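import Pool.Agent.H20.TIE.Low

/-!
# Two own leaves

`Pre`: an own leaf over the coordinates of `M` (few dependence, fullness). `two`: from two own
leaves there are a sub-law and the two claims on it. `pre_all`: with `AllS` the claim for all
coordinates.
-/

set_option autoImplicit false

namespace Pool.TIE

open Finset MvPolynomial
open Pool.Agent.H49.Ent Pool.Agent.H32.Dense Pool.STK Pool.BFL Pool.MIC

variable {m : ℕ}

/-- **An own leaf** over the coordinates of `M`. -/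
structure Pre (D : Dat m) (M : Finset (Fin m)) (K : ℕ) (b θ : ℝ) (kap : D.Ω → Pl m) : Prop where
  vars : ∀ ω, (kap ω).vars ⊆ M
  deg : ∀ ω, (kap ω).totalDegree ≤ K
  cf : ∀ ω α, |coeff α (kap ω)| ≤ (2 : ℝ) ^ b
  ind : CH D.p kap (fun ω => (D.out M ω, D.z ω)) ≤
    CH D.p kap (fun ω => (D.nu ω, (D.on M ω, (D.out M ω, D.z ω)))) + θ
  full : M.card * (D.X * Real.log 2) - θ ≤
    CH D.p (D.on M) (fun ω => (D.hF D.h₀ kap ω, (kap ω, (D.out M ω, D.z ω))))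

/-- The law on an event is a part of the law. -/
theorem subL_ev {Ω : Type} [Fintype Ω] {p : Ω → ℝ} (hp : IsLaw p) (E : Ω → Prop) {c : ℝ}
    (hc : 0 < c) (hE : c ≤ Pb p E) : SubL p c (cond p E True) id := by
  classical
  have hE0 : 0 < Pb p E := hc.trans_le hE
  refine ⟨isLaw_ev hp E hE0, fun ω => ?_⟩
  have h1 : law (cond p E True) id ω = cond p E True ω := by
    unfold law
    rw [Finset.sum_eq_single ω]
    · simp
    · intro b _ hb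
      rw [if_neg]
      exact hb
    · intro h
      exact absurd (mem_univ ω) h
  rw [h1]
  refine (mul_le_mul_of_nonneg_right hE (cond_nonneg hp.nonneg E True ω)).trans ?_
  unfold Pool.Agent.H49.Ent.cond
  rw [law_True]
  by_cases h : E ω
  · rw [if_pos (by simpa using h), mul_div_cancel₀ _ hE0.ne']
  · rw [if_neg (by simpa using h), mul_zero]
    exact hp.nonneg ω

theorem subL_self {Ω : Type} [Fintype Ω] {p : Ω → ℝ} (hp : IsLaw p) {c : ℝ} (hc : c ≤ 1) :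
    SubL p c p id := by
  classical
  refine ⟨hp, fun ω => ?_⟩
  have h1 : law p id ω = p ω := by
    unfold law
    rw [Finset.sum_eq_single ω]
    · simp
    · intro b _ hb
      rw [if_neg]
      exact hb
    · intro h
      exact absurd (mem_univ ω) h
  rw [h1]
  exact mul_le_of_le_one_left (hp.nonneg ω) hc

/-- Own leaves pass to sub-laws. -/
theorem Pre.sub {c : ℝ} (hc : 0 < c) {D : Dat m} (hp : IsLaw D.p)
    (hV : ∀ ω c, 0 ≤ D.V ω c ∧ D.V ω c < 2 ^ D.X) {M : Finset (Fin m)} {K : ℕ} {b θ : ℝ}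
    {kap : D.Ω → Pl m} (hθ : 0 ≤ θ) (H : Pre D M K b θ kap) {Ω' : Type} [Fintype Ω'] {q : Ω' → ℝ}
    {f : Ω' → D.Ω} (hS : SubL D.p c q f) :
    Pre (D.pull q f) M K b (1 / c * (θ + 1)) (fun ω => kap (f ω)) := by
  have hl := hS.law
  obtain ⟨hc1, ρ, hρ0, hρ1, hmix⟩ := mix hp hl hc hS.dens
  have hlog : Real.log 2 ≤ 1 := by linarith [Real.log_two_lt_d9]
  have hC : (θ + Real.log 2) / c ≤ 1 / c * (θ + 1) := by
    rw [div_mul_eq_mul_div, one_mul]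
    exact div_le_div_of_nonneg_right (by linarith) hc.le
  refine ⟨fun ω => H.vars (f ω), fun ω => H.deg (f ω), fun ω => H.cf (f ω), ?_, ?_⟩
  · have h1 : CH q (fun ω => kap (f ω)) (fun ω => (D.out M (f ω), D.z (f ω))) =
        CH (law q f) kap (fun ω => (D.out M ω, D.z ω)) :=
      SubL.push q f kap (fun ω => (D.out M ω, D.z ω))
    have h2 : CH q (fun ω => kap (f ω)) (fun ω => (D.nu (f ω), (D.on M (f ω),
        (D.out M (f ω), D.z (f ω))))) =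
        CH (law q f) kap (fun ω => (D.nu ω, (D.on M ω, (D.out M ω, D.z ω)))) :=
      SubL.push q f kap (fun ω => (D.nu ω, (D.on M ω, (D.out M ω, D.z ω))))
    change CH q (fun ω => kap (f ω)) (fun ω => (D.out M (f ω), D.z (f ω))) ≤
      CH q (fun ω => kap (f ω)) (fun ω => (D.nu (f ω), (D.on M (f ω),
        (D.out M (f ω), D.z (f ω))))) + _
    rw [h1, h2]
    have h3 := (hmix kap (fun ω => (D.out M ω, D.z ω))).1
    have h4 := (hmix kap (fun ω => (D.nu ω, (D.on M ω, (D.out M ω, D.z ω))))).2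
    have h5 := H.ind
    have h6 : CH ρ (fun w => kap w.1) (fun w => (D.nu w.1, (D.on M w.1, (D.out M w.1, D.z w.1)))) ≤
        CH ρ (fun w => kap w.1) (fun w => (D.out M w.1, D.z w.1)) :=
      CH_mono_cond hρ0 fun w w' _ _ hh => (Prod.ext_iff.1 (Prod.ext_iff.mp hh).2).2
    have h7 := mul_le_mul_of_nonneg_left h6 (by linarith : (0 : ℝ) ≤ 1 - c)
    have h8 : CH (law q f) kap (fun ω => (D.out M ω, D.z ω)) ≤
        CH (law q f) kap (fun ω => (D.nu ω, (D.on M ω, (D.out M ω, D.z ω)))) +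
          (θ + Real.log 2) / c := by
      rw [← sub_le_iff_le_add', le_div_iff₀ hc]
      nlinarith
    linarith
  · have h1 := H.full
    obtain ⟨-, h2⟩ := hmix (D.on M) (fun ω => (D.hF D.h₀ kap ω, (kap ω, (D.out M ω, D.z ω))))
    have h3 : (1 - c) * CH ρ (fun w => D.on M w.1)
        (fun w => (D.hF D.h₀ kap w.1, (kap w.1, (D.out M w.1, D.z w.1)))) ≤
        (1 - c) * (M.card * (D.X * Real.log 2)) := by
      rcases hc1.eq_or_lt with h4 | h4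
      · rw [h4, sub_self, zero_mul, zero_mul]
      · exact mul_le_mul_of_nonneg_left (on_le D hV M (hρ1 h4) (fun w => w.1) _) (by linarith)
    have h5 : (M.card * (D.X * Real.log 2)) - (θ + Real.log 2) / c ≤
        CH (law q f) (D.on M) (fun ω => (D.hF D.h₀ kap ω, (kap ω, (D.out M ω, D.z ω)))) := by
      rw [sub_le_iff_le_add, ← sub_le_iff_le_add']
      rw [le_div_iff₀ hc]
      nlinarith
    have h6 : CH q (fun ω => D.on M (f ω)) (fun ω => (D.hF D.h₀ kap (f ω), (kap (f ω),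
        (D.out M (f ω), D.z (f ω))))) =
        CH (law q f) (D.on M) (fun ω => (D.hF D.h₀ kap ω, (kap ω, (D.out M ω, D.z ω)))) :=
      SubL.push q f (D.on M) (fun ω => (D.hF D.h₀ kap ω, (kap ω, (D.out M ω, D.z ω))))
    change M.card * (D.X * Real.log 2) - _ ≤ CH q (fun ω => D.on M (f ω)) (fun ω =>
      (D.hF D.h₀ kap (f ω), (kap (f ω), (D.out M (f ω), D.z (f ω)))))
    rw [h6]
    linarith

/-- The entropy of the height. -/
theorem nu_of_NFd {D : Dat m} {K : ℕ} {b θ c₀ κ π : ℝ} (H : Hyp D K b θ) (hb : 0 ≤ b)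
    (hκ : κ ≤ 1) (N : NFd D D.h₀ c₀ κ π) {q : D.Ω → ℝ} (hS : SubL D.p π q id) :
    CH q D.nu (fun ω => (D.V ω, D.z ω)) ≤ (1 - c₀) * (D.h₀ * Real.log 2) + (b + 3) := by
  have h1 := N D.Ω q id hS 0 D.h₀ (Nat.zero_le _) le_rfl (by
    rw [Nat.cast_zero, sub_zero]
    exact mul_le_of_le_one_left (Nat.cast_nonneg _) hκ)
  have hq := hS.isLaw
  have h2 : CH q (fun ω => dg D.h₀ (D.nr (id ω)))
      (fun ω => (dg 0 (D.nr (id ω)), (D.V (id ω), D.z (id ω)))) =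
      CH q D.nu (fun ω => (dg 0 (D.nr ω), (D.V ω, D.z ω))) := by
    simp only [id, Dat.dg_nu]
  rw [h2, Nat.cast_zero, sub_zero] at h1
  have h3 := CH_le_add hq.nonneg D.nu (fun ω => dg 0 (D.nr ω)) (fun ω => (D.V ω, D.z ω))
  have h2b : (1 : ℝ) ≤ (2 : ℝ) ^ b := Real.one_le_rpow one_le_two hb
  obtain ⟨A, hA⟩ : ∃ A : ℕ, A = ⌈(2 : ℝ) ^ b⌉₊ := ⟨_, rfl⟩
  have hA1 : (2 : ℝ) ^ b ≤ A := by rw [hA]; exact Nat.le_ceil _
  have hA2 : (A : ℝ) ≤ 2 ^ b + 1 := by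
    rw [hA]
    exact (Nat.ceil_lt_add_one (by linarith)).le
  have h4 := CH_le_card hq.nonneg hq.sum_one (fun ω => dg 0 (D.nr ω))
    (fun ω => (D.V ω, D.z ω)) (fun _ => Finset.Icc (-(A : ℤ)) A) (fun ω _ => by
      have h5 := abs_le.1 (H.nr_le ω)
      unfold dg
      rw [pow_zero, one_mul, Finset.mem_Icc]
      constructor
      · rw [Int.le_floor]
        push_cast
        linarith
      · have h6 : (⌊D.nr ω⌋ : ℝ) ≤ A := (Int.floor_le _).trans (by linarith)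
        exact_mod_cast h6)
  rw [Ex_const hq.sum_one, Int.card_Icc] at h4
  have h5 : ((A : ℤ) + 1 - -(A : ℤ)).toNat = 2 * A + 1 := by omega
  rw [h5] at h4
  have h6 : ((2 * A + 1 : ℕ) : ℝ) ≤ 2 ^ 3 * 2 ^ b := by
    push_cast
    linarith
  have h7 : Real.log ((2 * A + 1 : ℕ) : ℝ) ≤ Real.log (2 ^ 3 * 2 ^ b) :=
    Real.log_le_log (by positivity) h6
  rw [Real.log_mul (by positivity) (by positivity), Real.log_pow, Real.log_rpow two_pos] at h7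
  have hl2 : Real.log 2 ≤ 1 := by linarith [Real.log_two_lt_d9]
  have h8 : b * Real.log 2 ≤ b * 1 := mul_le_mul_of_nonneg_left hl2 hb
  push_cast at h7
  have h9 : (1 - c₀) * (D.h₀ : ℝ) * Real.log 2 = (1 - c₀) * (D.h₀ * Real.log 2) := by ring
  rw [h9] at h1
  push_cast at h4
  linarith

/-- **Two own leaves**: a sub-law and the two claims. -/
theorem two (m K : ℕ) (c₀ : ℝ) (hc₀ : 0 < c₀) :
    ∃ (σ ι C c₁ π : ℝ) (h₁ : ℕ), 0 < σ ∧ σ ≤ 1 ∧ 0 < ι ∧ 1 ≤ C ∧ 0 < c₁ ∧ 0 < π ∧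
    ∀ (D : Dat m) (M₁ M₂ : Finset (Fin m)) (kap₁ kap₂ : D.Ω → Pl m) (b θ κ : ℝ) (h : ℕ),
      h₁ ≤ D.h₀ → 0 ≤ b → b ≤ ι * D.h₀ → 0 ≤ θ → θ ≤ ι * D.h₀ → (h : ℝ) ≤ σ * D.h₀ → κ ≤ 1 →
      Hyp D K b θ → NFd D D.h₀ c₀ κ π → Pre D M₁ K b θ kap₁ → Pre D M₂ K b θ kap₂ →
      ∃ q : D.Ω → ℝ, SubL D.p c₁ q id ∧
        Claim (D.pull q id) M₁ h K (b + 1) (C * (θ + b + 1)) (fun ω => Fr M₁ K h (kap₁ ω)) ∧
        Claim (D.pull q id) M₂ h K (b + 1) (C * (θ + b + 1)) (fun ω => Fr M₂ K h (kap₂ ω)) := by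
  obtain ⟨η, hη⟩ : ∃ η : ℝ, η = min c₀ 1 / 2 := ⟨_, rfl⟩
  have hm0 : 0 < min c₀ 1 := lt_min hc₀ one_pos
  have hη0 : 0 < η := by rw [hη]; positivity
  have hη1 : 2 * η ≤ 1 := by rw [hη]; linarith [min_le_right c₀ 1]
  have hηc : 2 * η ≤ c₀ := by rw [hη]; linarith [min_le_left c₀ 1]
  obtain ⟨σ, ι, C, h₁, hσ, hσ1, hι, hC, hown⟩ := own m K η hη0 (by linarith)
  obtain ⟨Cs, hCs, hsub⟩ := sub_stmt m K (η / 8) (by positivity)
  obtain ⟨a, ha⟩ : ∃ a : ℝ, a = 8 / η := ⟨_, rfl⟩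
  have ha0 : 0 < a := by rw [ha]; positivity
  have ha1 : 1 ≤ a := by
    rw [ha, one_le_div hη0]
    linarith
  have haη : 1 / (η / 8) = a := by
    rw [ha]
    field_simp
  have hl2 : 1 / 2 ≤ Real.log 2 := by linarith [Real.log_two_gt_d9]
  obtain ⟨ι', hι'⟩ : ∃ ι' : ℝ, ι' = min (ι / (2 * a)) (η / 8) := ⟨_, rfl⟩
  have hι'0 : 0 < ι' := by rw [hι']; exact lt_min (by positivity) (by positivity)
  have hι'1 : ι' * (2 * a) ≤ ι := by
    have : ι' ≤ ι / (2 * a) := by rw [hι']; exact min_le_left _ _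
    rwa [le_div_iff₀ (by positivity)] at this
  have hι'2 : ι' ≤ η / 8 := by rw [hι']; exact min_le_right _ _
  obtain ⟨N₁, hN₁⟩ := exists_nat_ge (2 * a / ι + 24 / η)
  obtain ⟨C', hC'⟩ : ∃ C' : ℝ, C' = 2 * (Cs * (Cs * C)) + 2 * (C * a) := ⟨_, rfl⟩
  have hCC : 1 ≤ Cs * C := one_le_mul_of_one_le_of_one_le hCs hC
  have hCCC : 1 ≤ Cs * (Cs * C) := one_le_mul_of_one_le_of_one_le hCs hCC
  have hCa : 0 < C * a := by positivity
  refine ⟨σ, ι', C', (η / 8) * (η / 8), min 1 (η / 8), max h₁ N₁, hσ,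
    hσ1, hι'0, by rw [hC']; linarith, by positivity, lt_min one_pos (by positivity), ?_⟩
  intro D M₁ M₂ kap₁ kap₂ b θ κ h hh₁ hb hbι hθ hθι hh hκ hH hN hP₁ hP₂
  have hp := hH.isLaw
  have hr : (N₁ : ℝ) ≤ D.h₀ := by exact_mod_cast (le_max_right _ _).trans hh₁
  have hhh : h₁ ≤ D.h₀ := (le_max_left _ _).trans hh₁
  have hx0 : (0 : ℝ) ≤ D.h₀ := Nat.cast_nonneg _
  have g1 : 2 * a / ι ≤ D.h₀ := by
    have : 0 ≤ 24 / η := by positivity
    linarith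
  have g2 : 24 / η ≤ D.h₀ := by
    have : 0 ≤ 2 * a / ι := by positivity
    linarith
  rw [div_le_iff₀ (by positivity)] at g1 g2
  have hι'x : ι' * D.h₀ * (2 * a) ≤ ι * D.h₀ := by
    have := mul_le_mul_of_nonneg_right hι'1 hx0
    linarith
  have hι'y : ι' * D.h₀ ≤ η / 8 * D.h₀ := mul_le_mul_of_nonneg_right hι'2 hx0
  have hι'z : 0 ≤ ι' * D.h₀ := by positivity
  have hι'w : ι' * D.h₀ ≤ ι' * D.h₀ * (2 * a) := le_mul_of_one_le_right hι'z (by linarith)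
  -- the height is not full
  have h3 : ∀ q : D.Ω → ℝ, SubL D.p (min 1 (η / 8)) q id →
      CH q D.nu (fun ω => (D.V ω, D.z ω)) ≤ (1 - η) * (D.h₀ * Real.log 2) := by
    intro q hS
    refine (nu_of_NFd hH hb hκ hN hS).trans ?_
    have e1 : 2 * η * (D.h₀ * Real.log 2) ≤ c₀ * (D.h₀ * Real.log 2) :=
      mul_le_mul_of_nonneg_right hηc (by positivity)
    have e2 : η * D.h₀ * (1 / 2) ≤ η * D.h₀ * Real.log 2 :=
      mul_le_mul_of_nonneg_left hl2 (by positivity)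
    have e3 : b + 3 ≤ η * D.h₀ * (1 / 2) := by linarith
    have e4 : (1 - c₀) * (D.h₀ * Real.log 2) = D.h₀ * Real.log 2 - c₀ * (D.h₀ * Real.log 2) := by
      ring
    have e5 : (1 - η) * (D.h₀ * Real.log 2) = D.h₀ * Real.log 2 - η * D.h₀ * Real.log 2 := by
      ring
    rw [e4, e5]
    linarith
  have hXh : D.h₀ ≤ D.X := by
    have := hH.h_le
    omega
  -- the first claim
  obtain ⟨E₁, hE₁, hcl₁⟩ := hown D M₁ kap₁ b θ h hp hH.V_lt hXh hhh hH.s_vars hb (by linarith) hθ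
    (by linarith) hh hP₁.vars hP₁.deg hP₁.cf hP₁.ind hP₁.full
    (h3 D.p (subL_self hp (min_le_left _ _)))
  obtain ⟨q₁, hq₁⟩ : ∃ q₁ : D.Ω → ℝ, q₁ = cond D.p E₁ True := ⟨_, rfl⟩
  rw [← hq₁] at hcl₁
  have hS₁ : SubL D.p (η / 8) q₁ id := by
    rw [hq₁]
    exact subL_ev hp E₁ (by positivity) hE₁
  have hH₁ := (hsub D D.Ω q₁ id b θ hθ hH hS₁).1
  -- the second claim
  have hP₂' := hP₂.sub (by positivity) hp hH.V_lt hθ hS₁
  rw [haη] at hP₂'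
  have hθ' : a * (θ + 1) ≤ ι * D.h₀ := by
    have e1 : a * θ ≤ a * (ι' * D.h₀) := mul_le_mul_of_nonneg_left hθι ha0.le
    linarith
  obtain ⟨E₂, hE₂, hcl₂⟩ := hown (D.pull q₁ id) M₂ (fun ω => kap₂ (id ω)) b (a * (θ + 1)) h
    hH₁.isLaw hH₁.V_lt hXh hhh hH₁.s_vars hb (by
      change b ≤ ι * D.h₀
      linarith) (by positivity) hθ' hh hP₂'.vars hP₂'.deg hP₂'.cf hP₂'.ind hP₂'.full
    (h3 q₁ (hS₁.mono (min_le_right _ _)))
  obtain ⟨q₂, hq₂⟩ : ∃ q₂ : D.Ω → ℝ, q₂ = cond q₁ E₂ True := ⟨_, rfl⟩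
  have hcl₂' : Claim (D.pull q₂ id) M₂ h K (b + 1) (C * (a * (θ + 1) + b + 1))
      (fun ω => Fr M₂ K h (kap₂ ω)) := by
    rw [hq₂]
    exact hcl₂
  have hS₂ : SubL q₁ (η / 8) q₂ id := by
    rw [hq₂]
    exact subL_ev hS₁.isLaw E₂ (by positivity) hE₂
  obtain ⟨t, ht⟩ : ∃ t : ℝ, t = θ + b + 1 := ⟨_, rfl⟩
  have ht1 : 1 ≤ t := by rw [ht]; linarith
  have e0 : θ + 1 ≤ t := by rw [ht]; linarith
  rw [← ht] at hcl₁
  obtain ⟨θ₅, hθ₅⟩ : ∃ θ₅ : ℝ, θ₅ = Cs * C * t := ⟨_, rfl⟩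
  have hθ₅1 : Cs * (θ + 1) ≤ θ₅ := by
    rw [hθ₅, mul_assoc]
    exact mul_le_mul_of_nonneg_left (e0.trans (le_mul_of_one_le_left (by linarith) hC))
      (by linarith)
  have hθ₅2 : C * t ≤ θ₅ := by
    rw [hθ₅, mul_assoc]
    exact le_mul_of_one_le_left (by positivity) hCs
  have hθ₅0 : 0 ≤ θ₅ := by rw [hθ₅]; positivity
  have hcl₁' : Claim (D.pull q₂ id) M₁ h K (b + 1) (Cs * (θ₅ + 1))
      (fun ω => Fr M₁ K h (kap₁ ω)) :=
    (hsub (D.pull q₁ id) D.Ω q₂ id (b + 1) θ₅ hθ₅0 (hH₁.mono le_rfl (by linarith) hθ₅1)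
      hS₂).2.2.2 M₁ h _ (hcl₁.mono hS₁.isLaw.nonneg le_rfl le_rfl le_rfl hθ₅2)
  refine ⟨q₂, hS₁.trans (by positivity) hS₂, ?_, ?_⟩
  · refine hcl₁'.mono hS₂.isLaw.nonneg le_rfl le_rfl le_rfl ?_
    rw [← ht, hθ₅, hC']
    have e1 : Cs ≤ Cs * (Cs * C) * t := by
      rw [mul_assoc]
      exact le_mul_of_one_le_right (by linarith) (one_le_mul_of_one_le_of_one_le hCC ht1)
    have e2 : 0 ≤ 2 * (C * a) * t := by positivity
    have e3 : Cs * (Cs * C * t + 1) = Cs * (Cs * C) * t + Cs := by ring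
    have e4 : (2 * (Cs * (Cs * C)) + 2 * (C * a)) * t =
        2 * (Cs * (Cs * C) * t) + 2 * (C * a) * t := by ring
    rw [e3, e4]
    linarith
  · refine hcl₂'.mono hS₂.isLaw.nonneg le_rfl le_rfl le_rfl ?_
    rw [← ht, hC']
    have e1 : a * (θ + 1) ≤ a * t := mul_le_mul_of_nonneg_left e0 ha0.le
    have e2 : t ≤ a * t := le_mul_of_one_le_left (by linarith) ha1
    have e3 : b + 1 ≤ t := by rw [ht]; linarith
    have e4 : C * (a * (θ + 1) + b + 1) ≤ C * (2 * (a * t)) :=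
      mul_le_mul_of_nonneg_left (by linarith) (by linarith)
    have e5 : 0 ≤ 2 * (Cs * (Cs * C)) * t := by positivity
    have e6 : (2 * (Cs * (Cs * C)) + 2 * (C * a)) * t =
        2 * (Cs * (Cs * C)) * t + C * (2 * (a * t)) := by ring
    rw [e6]
    linarith

/-- **Two own leaves and STEP V**: the claim for all coordinates. -/
theorem pre_all (H : AllS) (m K : ℕ) (c₀ : ℝ) (hc₀ : 0 < c₀) : ∃ K' : ℕ, ∀ ε : ℝ, 0 < ε →
    ∃ (h₁ : ℕ) (κ' κ π c₁ ι : ℝ), 0 < κ' ∧ κ' ≤ 1 ∧ 0 < κ ∧ 0 < π ∧ 0 < c₁ ∧ 0 < ι ∧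
    ∀ (D : Dat m) (sd : Fin m → Bool) (rk : Fin m → ℕ) (kap₁ kap₂ : D.Ω → Pl m), h₁ ≤ D.h₀ →
      (∀ c c', rk c = rk c' → sd c = sd c' → c = c') →
      Hyp D K (ι * D.h₀) (ι * D.h₀) → NFd D D.h₀ c₀ κ π →
      (∀ i j, ∀ c c', sd c = true → sd c' = false → rk c = i → rk c' = j →
        FulM D (univ.filter fun a => (sd a = true ∧ rk a ≤ i) ∨ (sd a = false ∧ rk a ≤ j)) c c'
          (ι * D.h₀)) →
      Pre D (univ.filter fun a => sd a = true) K (ι * D.h₀) (ι * D.h₀) kap₁ →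
      Pre D (univ.filter fun a => sd a = false) K (ι * D.h₀) (ι * D.h₀) kap₂ →
      ∃ (Ω' : Type) (_ : Fintype Ω') (q : Ω' → ℝ) (f : Ω' → D.Ω) (h' : ℕ) (G : Ω' → Pl m),
        SubL D.p c₁ q f ∧ κ' * D.h₀ ≤ h' ∧ h' ≤ D.h₀ ∧
        Claim (D.pull q f) univ h' K' (ε * h') (ε * h') G := by
  obtain ⟨K', hall⟩ := H m K c₀ hc₀
  obtain ⟨σ, ι₁, C, c, π₁, h₁, hσ, hσ1, hι₁, hC, hc, hπ₁, htwo⟩ := two m K c₀ hc₀
  obtain ⟨Cs, hCs, hsub⟩ := sub_stmt m K c hc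
  refine ⟨K', fun ε hε => ?_⟩
  obtain ⟨h₂, κ₂', κ₂, π₂, c₂, ι₂, hκ₂', hκ₂'1, hκ₂, hπ₂, hc₂, hι₂, hmain⟩ := hall (ε / 2)
    (by positivity)
  -- constants
  obtain ⟨B, hB⟩ : ∃ B : ℝ, B = 3 * C + 2 * Cs + 1 := ⟨_, rfl⟩
  have hB1 : 1 ≤ B := by rw [hB]; linarith
  obtain ⟨ι, hι⟩ : ∃ ι : ℝ, ι = min ι₁ (ι₂ * σ / (8 * B)) := ⟨_, rfl⟩
  have hι0 : 0 < ι := by rw [hι]; exact lt_min hι₁ (by positivity)
  have hιa : ι ≤ ι₁ := by rw [hι]; exact min_le_left _ _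
  have hιb : ι * (8 * B) ≤ ι₂ * σ := by
    have : ι ≤ ι₂ * σ / (8 * B) := by rw [hι]; exact min_le_right _ _
    rwa [le_div_iff₀ (by positivity)] at this
  obtain ⟨N, hN⟩ := exists_nat_ge (2 * (h₂ + 1) / σ + 8 * (B + 3) / (ι₂ * σ) + 2 / σ +
    12 / (ε * κ₂' * σ))
  refine ⟨max h₁ N, κ₂' * (σ / 2), min 1 (κ₂ * (σ / 2)), min π₁ (min 1 (π₂ * c)), c * c₂, ι,
    by positivity, ?_, lt_min one_pos (by positivity),
    lt_min hπ₁ (lt_min one_pos (by positivity)), by positivity, hι0, ?_⟩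
  · exact mul_le_one₀ hκ₂'1 (by positivity) (by linarith)
  intro D sd rk kap₁ kap₂ hh₁ hrk hH hNF hFul hP₁ hP₂
  have hx0 : (0 : ℝ) ≤ D.h₀ := Nat.cast_nonneg _
  have hx1 : (N : ℝ) ≤ D.h₀ := by exact_mod_cast (le_max_right _ _).trans hh₁
  have hx2 : h₁ ≤ D.h₀ := (le_max_left _ _).trans hh₁
  have p1 : 0 ≤ 2 * ((h₂ : ℝ) + 1) / σ := by positivity
  have p2 : 0 ≤ 8 * (B + 3) / (ι₂ * σ) := by positivity
  have p3 : 0 ≤ 2 / σ := by positivity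
  have p4 : 0 ≤ 12 / (ε * κ₂' * σ) := by positivity
  have g1 : 2 * ((h₂ : ℝ) + 1) / σ ≤ D.h₀ := by linarith
  have g2 : 8 * (B + 3) / (ι₂ * σ) ≤ D.h₀ := by linarith
  have g3 : 2 / σ ≤ D.h₀ := by linarith
  have g4 : 12 / (ε * κ₂' * σ) ≤ D.h₀ := by linarith
  rw [div_le_iff₀ (by positivity)] at g1 g2 g3 g4
  obtain ⟨h, hh⟩ : ∃ h : ℕ, h = ⌊σ * D.h₀⌋₊ := ⟨_, rfl⟩
  have hf1 : (h : ℝ) ≤ σ * D.h₀ := by
    rw [hh]
    exact Nat.floor_le (by positivity)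
  have hf2 : σ * D.h₀ < h + 1 := by
    rw [hh]
    exact Nat.lt_floor_add_one _
  have hf3 : h ≤ D.h₀ := by
    have : (h : ℝ) ≤ D.h₀ := hf1.trans (mul_le_of_le_one_left hx0 hσ1)
    exact_mod_cast this
  have hf4 : σ / 2 * D.h₀ ≤ h := by linarith
  have hh₂ : h₂ ≤ h := by
    have : (h₂ : ℝ) ≤ h := by linarith
    exact_mod_cast this
  obtain ⟨β, hβ⟩ : ∃ β : ℝ, β = ι * D.h₀ := ⟨_, rfl⟩
  have hβ0 : 0 ≤ β := by rw [hβ]; positivity
  have hβ1 : β ≤ ι₁ * D.h₀ := by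
    rw [hβ]
    exact mul_le_mul_of_nonneg_right hιa hx0
  rw [← hβ] at hH hFul hP₁ hP₂
  have hβ2 : β * (8 * B) ≤ ι₂ * (2 * h) := by
    rw [hβ]
    have e1 : ι * D.h₀ * (8 * B) = ι * (8 * B) * D.h₀ := by ring
    have e2 : ι₂ * σ * D.h₀ = ι₂ * (2 * (σ / 2 * D.h₀)) := by ring
    rw [e1]
    refine (mul_le_mul_of_nonneg_right hιb hx0).trans ?_
    rw [e2]
    exact mul_le_mul_of_nonneg_left (by linarith) hι₂.le
  have hβ3 : 8 * (B + 3) ≤ ι₂ * (2 * h) := by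
    refine g2.trans ?_
    have e2 : D.h₀ * (ι₂ * σ) = ι₂ * (2 * (σ / 2 * D.h₀)) := by ring
    rw [e2]
    exact mul_le_mul_of_nonneg_left (by linarith) hι₂.le
  have hβB : β ≤ β * B := le_mul_of_one_le_right hβ0 hB1
  have hβa : β + 1 ≤ ι₂ * h := by
    have : (0 : ℝ) ≤ β * B := by positivity
    linarith
  have hβb : Cs * (β + 1) ≤ ι₂ * h := by
    have e1 : 2 * Cs * β ≤ B * β := mul_le_mul_of_nonneg_right (by rw [hB]; linarith) hβ0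
    have e2 : 2 * Cs ≤ B := by rw [hB]; linarith
    linarith
  have hβc : C * (β + β + 1) + 3 ≤ ι₂ * h := by
    have e1 : 3 * C * β ≤ B * β := mul_le_mul_of_nonneg_right (by rw [hB]; linarith) hβ0
    have e2 : 3 * C ≤ B := by rw [hB]; linarith
    have e3 : 0 ≤ C * β := by positivity
    linarith
  -- the two claims
  have hπa : min π₁ (min 1 (π₂ * c)) ≤ π₁ := min_le_left _ _
  have hπb : min π₁ (min 1 (π₂ * c)) ≤ π₂ * c := (min_le_right _ _).trans (min_le_right _ _)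
  have hκa : min 1 (κ₂ * (σ / 2)) * D.h₀ ≤ κ₂ * h := by
    have e1 : min 1 (κ₂ * (σ / 2)) * D.h₀ ≤ κ₂ * (σ / 2) * D.h₀ :=
      mul_le_mul_of_nonneg_right (min_le_right _ _) hx0
    have e2 : κ₂ * (σ / 2 * D.h₀) ≤ κ₂ * h := mul_le_mul_of_nonneg_left hf4 hκ₂.le
    linarith
  obtain ⟨q, hS, hc1, hc2⟩ := htwo D _ _ kap₁ kap₂ β β (min 1 (κ₂ * (σ / 2))) h hx2 hβ0 hβ1 hβ0 hβ1
    hf1 (min_le_left _ _) hH (hNF.mono le_rfl le_rfl hπa) hP₁ hP₂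
  have hNF' : NFd D h c₀ κ₂ (π₂ * c) := hNF.mono hf3 hκa hπb
  obtain ⟨hH₂, hN₂, hF₂, -⟩ := hsub D D.Ω q id β β hβ0 hH hS
  have hN₂' := hN₂ h c₀ κ₂ (π₂ * c) (by positivity) hNF'
  rw [mul_div_cancel_right₀ _ hc.ne'] at hN₂'
  have hq := hS.isLaw
  obtain ⟨Ω', inst, q', f', h', G, hS', hl1, hl2, hcl⟩ := hmain ((D.pull q id).low h) sd rk _ _ hh₂
    hrk ((hH₂.low hβ0 hf3).mono le_rfl hβa hβb) hN₂'.low
    (fun i j a a' h1 h2 h3 h4 => (hF₂ _ a a' (hFul i j a a' h1 h2 h3 h4)).mono hβb)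
    ((hc1.low hq le_rfl).mono hq.nonneg le_rfl le_rfl hβa hβc)
    ((hc2.low hq le_rfl).mono hq.nonneg le_rfl le_rfl hβa hβc)
  have hcl' : Claim ((D.pull q id).pull q' f') univ h' K' (ε / 2 * h') (ε / 2 * h' + 3) G :=
    Claim.high (D := D.pull q id) (h := h) hS'.isLaw hcl hl2
  have hl1' : κ₂' * (h : ℝ) ≤ h' := hl1
  have hl2' : h' ≤ h := hl2
  have r1 : κ₂' * (σ / 2) * D.h₀ ≤ h' := by
    have e1 : κ₂' * (σ / 2 * D.h₀) ≤ κ₂' * h := mul_le_mul_of_nonneg_left hf4 hκ₂'.le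
    linarith
  have r2 : ε * (κ₂' * (σ / 2) * D.h₀) ≤ ε * h' := mul_le_mul_of_nonneg_left r1 hε.le
  have r3 : (0 : ℝ) ≤ ε * h' := by positivity
  have r4 : D.h₀ * (ε * κ₂' * σ) = 2 * (ε * (κ₂' * (σ / 2) * D.h₀)) := by ring
  rw [r4] at g4
  refine ⟨Ω', inst, q', fun w => f' w, h', G, hS.trans hc.le hS', r1, hl2'.trans hf3, ?_⟩
  refine Claim.mono (D := D.pull q' fun w => f' w) hS'.isLaw.nonneg hcl' le_rfl le_rfl ?_ ?_
  · linarith
  · linarith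

end Pool.TIE
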