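import Pool.Agent.H20.TIE.Rst

/-!
# The restriction of a claim is the claim of the eliminated polynomial
-/

set_option autoImplicit false

namespace Pool.TIE

open Finset MvPolynomial
open Pool.Agent.H49.Ent Pool.Agent.H32.Dense Pool.STK Pool.BFL Pool.MIC
open Pool.GLM (ml ml_nn)

/-- **Restriction** to any smaller set, with the explicit polynomial. -/
theorem restr_rst (m K : ℕ) : ∃ (K' : ℕ) (C : ℝ), 1 ≤ C ∧
    ∀ (D : Dat m) (M M' : Finset (Fin m)) (h h' : ℕ) (b θ : ℝ) (F : D.Ω → Pl m), M' ⊆ M →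
      0 ≤ b → 0 ≤ θ → h' ≤ h → (h' : ℝ) + C * (b + 1) ≤ D.X → Hyp D K b θ →
      (M'.card * (D.X * Real.log 2) - θ ≤
        CH D.p (D.on M') (fun ω => (D.out M' ω, D.z ω))) →
      Claim D M h K b θ F →
      Claim D M' h' K' (C * (b + 1)) (C * (θ + b + 1)) (D.rst M' F) := by
  obtain ⟨K', C, hC5, hdet⟩ := rst_det m K
  refine ⟨K', C, by linarith, ?_⟩
  intro D M M' h h' b θ F hsub hb hθ hh hhX hH hfull hcl
  have hX : C * (b + 1) ≤ D.X := by
    have := Nat.cast_nonneg (α := ℝ) h'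
    linarith
  have hd := hdet D M' b θ F hb hH hX hcl.deg hcl.cf
  obtain ⟨G, hG⟩ : ∃ G : D.Ω → Pl m, G = D.rst M' F := ⟨_, rfl⟩
  rw [← hG] at hd ⊢
  have hp := hH.isLaw.nonneg
  have h1 := hH.isLaw.sum_one
  -- `out M` is a function of `out M'`
  have hout : ∀ ω ω' : D.Ω, D.out M' ω = D.out M' ω' → D.out M ω = D.out M ω' := by
    intro ω ω' e
    funext i
    by_cases hi : i ∈ M
    · unfold Dat.out; rw [if_pos hi, if_pos hi]
    · have := D.out_some e (fun h => hi (hsub h))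
      unfold Dat.out
      rw [if_neg hi, if_neg hi, this.1, this.2]
  -- `out` is a function of the position and the shapes
  have houtV : ∀ (N : Finset (Fin m)) (ω ω' : D.Ω), D.V ω = D.V ω' → D.s ω = D.s ω' →
      D.out N ω = D.out N ω' := by
    intro N ω ω' e1 e2
    funext i
    unfold Dat.out Dat.ht Dat.v
    rw [e1, e2]
  have honV : ∀ (N : Finset (Fin m)) (ω ω' : D.Ω), D.V ω = D.V ω' → D.on N ω = D.on N ω' := by
    intro N ω ω' e1
    unfold Dat.on
    rw [e1]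
  have hVdet : ∀ (N : Finset (Fin m)) (ω ω' : D.Ω), D.out N ω = D.out N ω' →
      D.on N ω = D.on N ω' → D.V ω = D.V ω' := fun N ω ω' e1 e2 =>
    D.V_det_out hH.s_vars e1 e2
  refine ⟨fun ω => (hd ω).1, fun ω => (hd ω).2.1, fun ω α => (hd ω).2.2.1 α, ?_, ?_⟩
  · -- few
    have a1 : CH D.p G (fun ω => (D.out M' ω, D.z ω)) ≤
        CH D.p F (fun ω => (D.out M' ω, D.z ω)) :=
      CH_mono_left hp fun ω ω' _ _ e => by
        simp only [Prod.mk.injEq] at e
        rw [hG]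
        exact D.rst_congr e.1 e.2.1
    have a2 : CH D.p F (fun ω => (D.out M' ω, D.z ω)) ≤ CH D.p F (fun ω => (D.out M ω, D.z ω)) :=
      CH_mono_cond hp fun ω ω' _ _ e => by
        simp only [Prod.mk.injEq] at e ⊢
        exact ⟨hout _ _ e.1, e.2⟩
    have a3 := hcl.few
    have a4 : θ ≤ C * (θ + b + 1) := by nlinarith
    linarith
  · -- full
    set Z := D.z
    set Fh := D.hF h' F
    have hcl2 := hcl.full
    have hfew := hcl.few
    -- (ii): the height over `F` to `h'` digits is independent of the coordinates of `M`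
    have b1 : CH D.p (D.on M) (fun ω => (F ω, (D.out M ω, Z ω))) ≤
        M.card * (D.X * Real.log 2) :=
      CH_box_le hp h1 M D.X (D.on M) _ (fun ω i hi => by
        unfold Dat.on; rw [if_pos hi]; exact hH.V_lt ω i) (fun ω i hi => by
        unfold Dat.on; rw [if_neg hi])
    have b2 : CH D.p (D.on M) (fun ω => (D.hF h F ω, (F ω, (D.out M ω, Z ω)))) ≤
        CH D.p (D.on M) (fun ω => (Fh ω, (F ω, (D.out M ω, Z ω)))) :=
      CH_mono_cond hp fun ω ω' _ _ e => by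
        simp only [Prod.mk.injEq] at e ⊢
        exact ⟨dg_of_dg hh e.1, e.2⟩
    have b3 := CH_symm hp (D.on M) Fh (fun ω => (F ω, (D.out M ω, Z ω)))
    have b4 : CH D.p Fh (fun ω => (F ω, (D.out M ω, Z ω))) ≤
        CH D.p Fh (fun ω => (D.on M ω, (F ω, (D.out M ω, Z ω)))) + θ := by linarith
    -- (iii)
    have b5 : CH D.p Fh (fun ω => (D.on M ω, (F ω, (D.out M ω, Z ω)))) ≤
        CH D.p Fh (fun ω => (F ω, (D.V ω, Z ω))) :=
      CH_mono_cond hp fun ω ω' _ _ e => by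
        simp only [Prod.mk.injEq] at e ⊢
        exact ⟨e.2.1, hVdet M _ _ e.2.2.1 e.1, e.2.2.2⟩
    -- (iv)
    have c1 := hH.nu_s
    have c2 := CH_chain hp D.nu F (fun ω => (D.s ω, (D.V ω, Z ω)))
    have c3 := CH_chain hp F D.nu (fun ω => (D.s ω, (D.V ω, Z ω)))
    have c4 := CH_swl hp F D.nu (fun ω => (D.s ω, (D.V ω, Z ω)))
    have c5 : 0 ≤ CH D.p F (fun ω => (D.nu ω, (D.s ω, (D.V ω, Z ω)))) := CH_nonneg hp _ _
    have c6 : CH D.p F (fun ω => (D.s ω, (D.V ω, Z ω))) ≤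
        CH D.p F (fun ω => (D.out M ω, Z ω)) :=
      CH_mono_cond hp fun ω ω' _ _ e => by
        simp only [Prod.mk.injEq] at e ⊢
        exact ⟨houtV M _ _ e.2.1 e.1, e.2.2⟩
    have c7 : CH D.p D.nu (fun ω => (F ω, (D.s ω, (D.V ω, Z ω)))) =
        CH D.p D.nu (fun ω => (D.s ω, (F ω, (D.V ω, Z ω)))) := by
      refine CH_congr hp ?_ ?_ ?_ ?_ <;>
      · intro w w' _ _ e
        simp only [Prod.mk.injEq] at e ⊢
        tauto
    have c8 : CH D.p D.nu (fun ω => (F ω, (D.V ω, Z ω))) ≤ CH D.p D.nu (fun ω => (D.V ω, Z ω)) :=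
      CH_mono_cond hp fun ω ω' _ _ e => (Prod.ext_iff.1 e).2
    have c9 : CH D.p D.nu (fun ω => (F ω, (D.V ω, Z ω))) ≤
        CH D.p D.nu (fun ω => (D.s ω, (F ω, (D.V ω, Z ω)))) + 2 * θ := by
      rw [← c7]
      have e1 : CH D.p D.nu (fun ω => (D.s ω, (D.V ω, Z ω))) ≤
          CH D.p D.nu (fun ω => (F ω, (D.s ω, (D.V ω, Z ω)))) + θ := by linarith
      have e2 : CH D.p D.nu (fun ω => (D.V ω, Z ω)) ≤
          CH D.p D.nu (fun ω => (D.s ω, (D.V ω, Z ω))) + θ := c1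
      linarith
    have hFhdet : Det D.p (fun ω => (D.nu ω, (F ω, (D.V ω, Z ω)))) Fh := by
      intro ω ω' _ _ e
      simp only [Prod.mk.injEq] at e
      change D.hF h' F ω = D.hF h' F ω'
      unfold Dat.hF Dat.nr Dat.v
      rw [e.1, e.2.1, e.2.2.1]
    have c10 := CH_indR hp hFhdet c9
    -- (v)
    have d1 : CH D.p Fh (fun ω => (F ω, (D.out M' ω, Z ω))) ≤
        CH D.p Fh (fun ω => (F ω, (D.out M ω, Z ω))) :=
      CH_mono_cond hp fun ω ω' _ _ e => by
        simp only [Prod.mk.injEq] at e ⊢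
        exact ⟨e.1, hout _ _ e.2.1, e.2.2⟩
    have d2 : CH D.p Fh (fun ω => (D.s ω, (F ω, (D.V ω, Z ω)))) ≤
        CH D.p Fh (fun ω => (D.on M' ω, (F ω, (D.out M' ω, Z ω)))) :=
      CH_mono_cond hp fun ω ω' _ _ e => by
        simp only [Prod.mk.injEq] at e ⊢
        exact ⟨honV M' _ _ e.2.2.1, e.2.1, houtV M' _ _ e.2.2.1 e.1, e.2.2.2⟩
    have d3 := CH_symm hp (D.on M') Fh (fun ω => (F ω, (D.out M' ω, Z ω)))
    have d4 : CH D.p (D.on M') (fun ω => (F ω, (D.out M' ω, Z ω))) ≤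
        CH D.p (D.on M') (fun ω => (Fh ω, (F ω, (D.out M' ω, Z ω)))) + 3 * θ := by linarith
    -- (vi)
    have d5 := CH_le_add hp (D.on M') F (fun ω => (D.out M' ω, Z ω))
    have d6 : CH D.p F (fun ω => (D.out M' ω, Z ω)) ≤ CH D.p F (fun ω => (D.out M ω, Z ω)) :=
      CH_mono_cond hp fun ω ω' _ _ e => by
        simp only [Prod.mk.injEq] at e ⊢
        exact ⟨hout _ _ e.1, e.2⟩
    -- (vii)
    set Gh := D.hF h' G
    have hE : ∀ ω, |Gh ω - Fh ω| ≤ 1 := by
      intro ω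
      refine dg_nearR ?_
      have e1 : (D.nr ω - eval (D.v ω) (G ω)) - (D.nr ω - eval (D.v ω) (F ω)) =
          -(eval (D.v ω) (G ω) - eval (D.v ω) (F ω)) := by ring
      rw [e1, abs_neg]
      have e2 := (hd ω).2.2.2
      have e3 : (2 : ℝ) ^ h' * ((2 : ℝ) ^ (C * (b + 1)) * ((2 : ℝ) ^ D.X)⁻¹) ≤ 1 := by
        rw [← mul_assoc, ← div_eq_mul_inv, div_le_one (by positivity), ← Real.rpow_natCast,
          ← Real.rpow_natCast, ← Real.rpow_add (by norm_num)]
        exact Real.rpow_le_rpow_of_exponent_le (by norm_num) hhX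
      exact (mul_le_mul_of_nonneg_left e2 (by positivity)).trans e3
    have f1 := CH_le_add hp (D.on M') (fun ω => Gh ω - Fh ω)
      (fun ω => (Fh ω, (F ω, (D.out M' ω, Z ω))))
    have f2 : CH D.p (D.on M') (fun ω => (Fh ω, (F ω, (D.out M' ω, Z ω)))) ≤
        CH D.p (D.on M') (fun ω => ((Gh ω - Fh ω), (Fh ω, (F ω, (D.out M' ω, Z ω))))) +
          Real.log 3 := by
      have g1 := CH_symm hp (D.on M') (fun ω => Gh ω - Fh ω)
        (fun ω => (Fh ω, (F ω, (D.out M' ω, Z ω))))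
      have g2 := CH_three hp h1 (fun ω => Gh ω - Fh ω)
        (fun ω => (Fh ω, (F ω, (D.out M' ω, Z ω)))) hE
      have g3 : 0 ≤ CH D.p (fun ω => Gh ω - Fh ω)
          (fun ω => (D.on M' ω, (Fh ω, (F ω, (D.out M' ω, Z ω))))) := CH_nonneg hp _ _
      linarith
    have f3 : CH D.p (D.on M') (fun ω => ((Gh ω - Fh ω), (Fh ω, (F ω, (D.out M' ω, Z ω))))) ≤
        CH D.p (D.on M') (fun ω => (Gh ω, (G ω, (D.out M' ω, Z ω)))) :=
      CH_mono_cond hp fun ω ω' _ _ e => by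
        simp only [Prod.mk.injEq] at e ⊢
        refine ⟨by linarith [e.1, e.2.1], ?_, e.2.2.2⟩
        rw [hG]
        exact D.rst_congr e.2.2.1 e.2.2.2.1
    have hlog3 : Real.log 3 ≤ 2 := by
      have := Real.log_le_sub_one_of_pos (show (0 : ℝ) < 3 by norm_num)
      linarith
    have hfin : 5 * θ + Real.log 3 ≤ C * (θ + b + 1) := by nlinarith
    linarith

end Pool.TIE
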