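import Pool.Agent.H20.TIE.UnqD
import Pool.Agent.H20.TIE.RstC
import Pool.Agent.H20.TIE.Pre

/-!
# The restriction of the full shape to an own leaf is the own shape

`match_ev`: on an event of constant probability the restriction of the shape of a large set to the
sheets outside a smaller set agrees with the own shape of the smaller set. `grad_match`: then the
gradient of the shape is determined by the gradients along the leaves.
-/

set_option autoImplicit false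

namespace Pool.TIE

open Finset MvPolynomial
open Pool.Agent.H49.Ent Pool.Agent.H32.Dense Pool.STK Pool.BFL Pool.MIC
open Pool.GLM (ml ml_nn)

variable {m : ℕ}

/-- The restriction of `F` to the sheets outside `M` agrees with `F'`, up to the constant. -/
def Dat.mtd (D : Dat m) (M : Finset (Fin m)) (s : ℕ) (F F' : D.Ω → Pl m) (ω : D.Ω) : Prop :=
  ∀ α, α ≠ 0 → |coeff α (D.rst M F ω) - coeff α (F' ω)| ≤ 1 / 2 ^ s

theorem Dat.mtd.mono {D : Dat m} {M : Finset (Fin m)} {s s' : ℕ} {F F' : D.Ω → Pl m} {ω : D.Ω}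
    (h : D.mtd M s F F' ω) (hs : s' ≤ s) : D.mtd M s' F F' ω := fun α hα =>
  (h α hα).trans (one_div_le_one_div_of_le (by positivity) (pow_le_pow_right₀ one_le_two hs))

theorem Pb_and {Ω : Type} [Fintype Ω] {p : Ω → ℝ} {E₁ E₂ : Ω → Prop}
    (h : 0 < Pb p E₁) : Pb p (fun ω => E₁ ω ∧ E₂ ω) = Pb p E₁ * Pb (cond p E₁ True) E₂ := by
  classical
  have e : ∀ ω, cond p E₁ True ω = if E₁ ω then p ω / Pb p E₁ else 0 := fun ω => by
    unfold Pool.Agent.H49.Ent.cond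
    rw [law_True]
    by_cases h1 : E₁ ω
    · rw [if_pos h1, if_pos (by simpa using h1)]
    · rw [if_neg h1, if_neg (by simpa using h1)]
  obtain ⟨P, hP⟩ : ∃ P : ℝ, P = Pb p E₁ := ⟨_, rfl⟩
  rw [← hP] at h e ⊢
  unfold Pb
  rw [Finset.mul_sum]
  refine Finset.sum_congr rfl fun ω _ => ?_
  rw [e]
  by_cases h1 : E₁ ω
  · by_cases h2 : E₂ ω
    · rw [if_pos ⟨h1, h2⟩, if_pos h2, if_pos h1, mul_div_cancel₀ _ h.ne']
    · rw [if_neg (fun h3 => h2 h3.2), if_neg h2, mul_zero]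
  · rw [if_neg (fun h3 => h1 h3.1), if_neg h1]
    split_ifs <;> rw [mul_zero]

/-- **Matching.** -/
theorem match_ev (m K : ℕ) (c₀ : ℝ) (hc₀ : 0 < c₀) :
    ∃ (σ ι c₁ π : ℝ) (h₁ : ℕ), 0 < σ ∧ σ ≤ 1 ∧ 0 < ι ∧ 0 < c₁ ∧ 0 < π ∧
    ∀ (D : Dat m) (M M₁ M₂ : Finset (Fin m)) (F F₁ F₂ : D.Ω → Pl m) (b θ κ : ℝ) (h s : ℕ),
      M₁ ⊆ M → M₂ ⊆ M → h₁ ≤ h → h ≤ D.h₀ → 0 ≤ b → b ≤ ι * h → 0 ≤ θ → θ ≤ ι * h →
      (s : ℝ) ≤ σ * h → κ ≤ 1 → Hyp D K b θ → NFd D h c₀ κ π →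
      Claim D M h K b θ F → Claim D M₁ h K b θ F₁ → Claim D M₂ h K b θ F₂ →
      ∃ E : D.Ω → Prop, c₁ ≤ Pb D.p E ∧ ∀ ω, E ω → D.mtd M₁ s F F₁ ω ∧ D.mtd M₂ s F F₂ ω := by
  obtain ⟨η, hη⟩ : ∃ η : ℝ, η = min c₀ 1 / 2 := ⟨_, rfl⟩
  have hm0 : 0 < min c₀ 1 := lt_min hc₀ one_pos
  have hη0 : 0 < η := by rw [hη]; positivity
  have hη1 : 2 * η ≤ 1 := by rw [hη]; linarith only [min_le_right c₀ 1]
  have hηc : 2 * η ≤ c₀ := by rw [hη]; linarith only [min_le_left c₀ 1]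
  obtain ⟨K₁, Cr, hCr, hrst⟩ := restr_rst m K
  obtain ⟨K₂, hK₂⟩ : ∃ K₂ : ℕ, K₂ = max K K₁ := ⟨_, rfl⟩
  have hKK : K ≤ K₂ := by rw [hK₂]; exact le_max_left _ _
  have hK1K : K₁ ≤ K₂ := by rw [hK₂]; exact le_max_right _ _
  obtain ⟨σ, ι₀, h₀', hσ, hσ1, hι₀, hunq⟩ := unqD m K₂ η hη0
  obtain ⟨Cs, hCs, hsub⟩ := sub_stmt m K₂ (η / 4) (by positivity)
  have hl2 : 1 / 2 ≤ Real.log 2 := by linarith only [hη0, hη1, Real.log_two_gt_d9]
  -- constants
  obtain ⟨B, hB⟩ : ∃ B : ℝ, B = Cs * (3 * Cr + 1) := ⟨_, rfl⟩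
  have hB1 : 1 ≤ B := by
    rw [hB]
    exact one_le_mul_of_one_le_of_one_le hCs (by linarith only [hη0, hη1, hCr])
  have hCrB : 3 * Cr + 1 ≤ B := by
    rw [hB]
    exact le_mul_of_one_le_left (by linarith only [hη0, hη1, hCr]) hCs
  obtain ⟨ι₁, hι₁⟩ : ∃ ι₁ : ℝ, ι₁ = min ι₀ (min 1 (η / 8)) := ⟨_, rfl⟩
  have hι₁0 : 0 < ι₁ := by rw [hι₁]; exact lt_min hι₀ (lt_min one_pos (by positivity))
  have hι₁a : ι₁ ≤ ι₀ := by rw [hι₁]; exact min_le_left _ _
  have hι₁b : ι₁ ≤ 1 := by rw [hι₁]; exact (min_le_right _ _).trans (min_le_left _ _)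
  have hι₁c : ι₁ ≤ η / 8 := by rw [hι₁]; exact (min_le_right _ _).trans (min_le_right _ _)
  obtain ⟨ι, hι⟩ : ∃ ι : ℝ, ι = ι₁ / (4 * B) := ⟨_, rfl⟩
  have hι0 : 0 < ι := by rw [hι]; positivity
  have hιB : ι * (4 * B) = ι₁ := by
    rw [hι]
    field_simp
  exact by
   obtain ⟨N₁, hN₁⟩ := exists_nat_ge (2 * B / ι₁ + 16 / η)
   refine ⟨σ, ι, (η / 4) * (η / 4), min 1 (η / 4), max h₀' N₁, hσ, hσ1, hι0, by positivity,
     lt_min one_pos (by positivity), ?_⟩
   intro D M M₁ M₂ F F₁ F₂ b θ κ h s hM₁ hM₂ hh₁ hhh hb hbι hθ hθι hs hκ hH hN hF hF₁ hF₂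
   have hp := hH.isLaw
   have hr : (N₁ : ℝ) ≤ h := by exact_mod_cast (le_max_right _ _).trans hh₁
   have hh₀ : h₀' ≤ h := (le_max_left _ _).trans hh₁
   have hx0 : (0 : ℝ) ≤ h := Nat.cast_nonneg _
   have g1 : 2 * B / ι₁ ≤ h := by
     have : 0 ≤ 16 / η := by positivity
     linarith only [hN₁, hr, this]
   have g2 : 16 / η ≤ h := by
     have : 0 ≤ 2 * B / ι₁ := by positivity
     linarith only [hN₁, hr, this]
   rw [div_le_iff₀ (by positivity)] at g1 g2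
   have hBx : B * (ι * h) * 4 = ι₁ * h := by
     rw [← hιB]
     ring
   have hιh : 0 ≤ ι * h := by positivity
   have hBι : ι * h ≤ B * (ι * h) := le_mul_of_one_le_left hιh hB1
   have hι₁h : ι₁ * h ≤ η / 8 * h := mul_le_mul_of_nonneg_right hι₁c hx0
   have hι₁x : ι₁ * h ≤ h := mul_le_of_le_one_left hx0 hι₁b
   have hι₁y : ι₁ * h ≤ ι₀ * h := mul_le_mul_of_nonneg_right hι₁a hx0
   -- the height is not full
   have h3 : ∀ q : D.Ω → ℝ, SubL D.p (min 1 (η / 4)) q id →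
       CH q (fun ω => dg h (D.nr ω)) (fun ω => (D.V ω, D.z ω)) ≤ (1 - η) * (h * Real.log 2) := by
     intro q hS
     have e0 : CH q (fun ω => dg h (D.nr ω)) (fun ω => (D.V ω, D.z ω)) ≤
         (1 - c₀) * (h * Real.log 2) + (b + 1 + 3) :=
       nu_of_NFd (hH.low hb hhh) (by linarith only [hη1, hι₁0, hι₁c, hb]) hκ hN.low hS
     refine e0.trans ?_
     have e1 : 2 * η * (h * Real.log 2) ≤ c₀ * (h * Real.log 2) :=
       mul_le_mul_of_nonneg_right hηc (by positivity)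
     have e2 : η * h * (1 / 2) ≤ η * h * Real.log 2 :=
       mul_le_mul_of_nonneg_left hl2 (by positivity)
     have e3 : b + 1 + 3 ≤ η * h * (1 / 2) := by linarith only [hη1, hCr, hCrB, hι₁0, hι₁c, hbι, g1, hBx, hBι, hι₁h]
     have e4 : (1 - c₀) * (h * Real.log 2) = h * Real.log 2 - c₀ * (h * Real.log 2) := by
       ring
     have e5 : (1 - η) * (h * Real.log 2) = h * Real.log 2 - η * h * Real.log 2 := by
       ring
     rw [e4, e5]
     linarith only [hη1, hCr, hCrB, hι₁0, hι₁c, hbι, g1, hBx, hBι, hι₁h, e1, e2]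
   exact by
    have hXh : h ≤ D.X := by
      have := hH.h_le
      omega
    have hX2 : 2 * (h : ℝ) ≤ D.X := by
      have := hH.h_le
      have : 2 * h ≤ D.X := by omega
      exact_mod_cast this
    -- the restricted claims
    obtain ⟨b', hb'⟩ : ∃ b' : ℝ, b' = Cr * (b + 1) := ⟨_, rfl⟩
    obtain ⟨θ', hθ'⟩ : ∃ θ' : ℝ, θ' = Cr * (θ + b + 1) := ⟨_, rfl⟩
    have hbb' : b ≤ b' := by
      rw [hb']
      have := le_mul_of_one_le_left (show 0 ≤ b + 1 by linarith only [hη1, hι₁0, hι₁c, hb]) hCr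
      linarith only [hη1, hι₁0, hι₁c, this]
    have hθθ' : θ ≤ θ' := by
      rw [hθ']
      have := le_mul_of_one_le_left (show 0 ≤ θ + b + 1 by linarith only [hη1, hι₁0, hι₁c, hb, hθ]) hCr
      linarith only [hη1, hι₁0, hι₁c, hb, this]
    have hθ'0 : 0 ≤ θ' := hθ.trans hθθ'
    have hb'θ' : b' ≤ θ' := by
      rw [hb', hθ']
      exact mul_le_mul_of_nonneg_left (by linarith only [hθ]) (by linarith only [hη1, hCr, hι₁0, hι₁c])
    have hθ'1 : Cs * (θ' + 1) ≤ ι₁ * h := by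
      have e1 : θ' + 1 ≤ (3 * Cr + 1) * (ι * h + 1) := by
        rw [hθ']
        have : Cr * (θ + b + 1) ≤ Cr * (2 * (ι * h) + 1) :=
          mul_le_mul_of_nonneg_left (by linarith only [hbι, hθι]) (by linarith only [hη1, hCr, hι₁0, hι₁c])
        nlinarith only [hη1, hCr, hι₁0, hι₁c, hb, hbι, hθ, hθ', hθθ', this]
      have e2 : Cs * (θ' + 1) ≤ B * (ι * h + 1) := by
        rw [hB, mul_assoc]
        exact mul_le_mul_of_nonneg_left e1 (by linarith only [hη1, hCs, hι₁0, hι₁c])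
      have e3 : B * (ι * h + 1) = B * (ι * h) + B := by ring
      rw [e3] at e2
      linarith only [hη1, hCr, hCrB, hι₁0, hι₁c, g1, hBx, e2]
    exact by
     have hθ'2 : θ' ≤ ι₁ * h := by
       have : θ' + 1 ≤ Cs * (θ' + 1) := le_mul_of_one_le_left (by linarith only [hη1, hι₁0, hι₁c, hθ, hθθ']) hCs
       linarith only [hη1, hι₁0, hι₁c, hθ'1, this]
     have ful : ∀ (M' : Finset (Fin m)) (F' : D.Ω → Pl m), Claim D M' h K b θ F' →
         M'.card * (D.X * Real.log 2) - θ ≤ CH D.p (D.on M') (fun ω => (D.out M' ω, D.z ω)) := by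
       intro M' F' hc
       refine hc.full.trans (CH_mono_cond hp.nonneg fun ω ω' _ _ e => ?_)
       simp only [Prod.mk.injEq] at e ⊢
       exact e.2.2
     have rcl : ∀ (M' : Finset (Fin m)) (F' : D.Ω → Pl m), M' ⊆ M → Claim D M' h K b θ F' →
         Claim D M' h K₂ b' θ' (D.rst M' F) := by
       intro M' F' hsub' hc
       have h4 := hrst D M M' h h b θ F hsub' hb hθ le_rfl (by
         rw [← hb']
         linarith only [hι₁x, hX2, hb'θ', hθ'2]) hH (ful M' F' hc) hF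
       rw [← hb', ← hθ'] at h4
       exact h4.mono hp.nonneg le_rfl hK1K le_rfl le_rfl
     have ocl : ∀ (M' : Finset (Fin m)) (F' : D.Ω → Pl m), Claim D M' h K b θ F' →
         Claim D M' h K₂ b' θ' F' := fun M' F' hc => hc.mono hp.nonneg le_rfl hKK hbb' hθθ'
     -- the first set
     have hE₁ := hunq D M₁ (D.rst M₁ F) F₁ b' θ' h s hp hH.V_lt hXh hh₀ hH.s_vars (hb.trans hbb')
       (by linarith only [hι₁y, hb'θ', hθ'2]) hθ'0 (by linarith only [hι₁y, hθ'2]) hs (h3 D.p (subL_self hp (min_le_left _ _)))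
       (rcl M₁ F₁ hM₁ hF₁) (ocl M₁ F₁ hF₁)
     obtain ⟨E₁, hE₁e⟩ : ∃ E₁ : D.Ω → Prop, E₁ = fun ω => ∀ α, α ≠ 0 →
       |coeff α (D.rst M₁ F ω) - coeff α (F₁ ω)| ≤ 1 / 2 ^ s := ⟨_, rfl⟩
     rw [← hE₁e] at hE₁
     obtain ⟨q₁, hq₁⟩ : ∃ q₁ : D.Ω → ℝ, q₁ = cond D.p E₁ True := ⟨_, rfl⟩
     have hS₁ : SubL D.p (η / 4) q₁ id := by
       rw [hq₁]
       exact subL_ev hp E₁ (by positivity) hE₁
     exact by
      obtain ⟨hH₁, -, -, hC₁⟩ := hsub D D.Ω q₁ id b' θ' hθ'0 (hH.mono hKK hbb' hθθ') hS₁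
      have hE₂ := hunq (D.pull q₁ id) M₂ (fun ω => D.rst M₂ F (id ω)) (fun ω => F₂ (id ω)) b'
        (Cs * (θ' + 1)) h s hS₁.isLaw hH₁.V_lt hXh hh₀ hH₁.s_vars (hb.trans hbb')
        (by linarith only [hι₁y, hb'θ', hθ'2]) (by positivity) (by linarith only [hι₁y, hθ'1]) hs (h3 q₁ (hS₁.mono (min_le_right _ _)))
        (hC₁ M₂ h _ (rcl M₂ F₂ hM₂ hF₂)) (hC₁ M₂ h _ (ocl M₂ F₂ hF₂))
      obtain ⟨E₂, hE₂e⟩ : ∃ E₂ : D.Ω → Prop, E₂ = fun ω => ∀ α, α ≠ 0 →
        |coeff α (D.rst M₂ F ω) - coeff α (F₂ ω)| ≤ 1 / 2 ^ s := ⟨_, rfl⟩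
      have hE₂' : η / 4 ≤ Pb q₁ E₂ := by
        rw [hE₂e]
        exact hE₂
      refine ⟨fun ω => E₁ ω ∧ E₂ ω, ?_, fun ω hω => ⟨?_, ?_⟩⟩
      · have hpos : 0 < Pb D.p E₁ := lt_of_lt_of_le (by positivity) hE₁
        rw [Pb_and hpos, ← hq₁]
        exact mul_le_mul hE₁ hE₂' (by positivity) hpos.le
      · have h4 := hω.1
        rw [hE₁e] at h4
        exact h4
      · have h4 := hω.2
        rw [hE₂e] at h4
        exact h4

/-! ### Gradients -/

/-- The gradient of a polynomial with small nonconstant coefficients. -/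
theorem ml_pd_small {P : Pl m} {K : ℕ} {r : ℝ} (hP : P.totalDegree ≤ K) (hr : 0 ≤ r)
    (h : ∀ α, α ≠ 0 → |coeff α P| ≤ r) (c : Fin m) :
    ml (pderiv c P) ≤ ((K : ℝ) + 1) ^ m * (K * r) := by
  classical
  refine ml_le_of_cb (td_pdR hP c) (by positivity) fun β => ?_
  rw [coeff_pderiv, abs_mul]
  have hne : β + Finsupp.single c 1 ≠ 0 := by
    intro h0
    have := DFunLike.congr_fun h0 c
    simp at this
  obtain ⟨e, he⟩ : ∃ e : Fin m →₀ ℕ, e = β + Finsupp.single c 1 := ⟨_, rfl⟩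
  rw [← he] at hne ⊢
  by_cases h0 : coeff e P = 0
  · rw [h0, abs_zero, zero_mul]
    positivity
  · have h1 := sum_le_deg hP (mem_support_iff.2 h0)
    have h2 : e c ≤ ∑ j, e j :=
      Finset.single_le_sum (f := fun j => e j) (fun _ _ => Nat.zero_le _) (Finset.mem_univ c)
    have h3 : e c = β c + 1 := by
      rw [he]
      simp
    have h4 : ((β c : ℝ) + 1) ≤ K := by
      have : β c + 1 ≤ K := by omega
      exact_mod_cast this
    have h5 : |((β c : ℝ) + 1)| = (β c : ℝ) + 1 := abs_of_nonneg (by positivity)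
    rw [h5, mul_comm]
    exact mul_le_mul h4 (h _ hne) (abs_nonneg _) (by positivity)

/-- **The gradient of the full shape is the own gradient.** -/
theorem grad_match (m K : ℕ) : ∃ C : ℝ, 1 ≤ C ∧
    ∀ (D : Dat m) (M₁ M₂ : Finset (Fin m)) (F F₁ F₂ : D.Ω → Pl m) (b θ ρ : ℝ) (s : ℕ),
      M₁ ∪ M₂ = univ → 0 ≤ b → 0 ≤ ρ → Hyp D K b θ → C * (b + 1) ≤ D.X → s ≤ D.X →
      (∀ ω, (F ω).totalDegree ≤ K) → (∀ ω α, |coeff α (F ω)| ≤ (2 : ℝ) ^ b) →
      (∀ ω, (F₁ ω).totalDegree ≤ K) → (∀ ω, (F₂ ω).totalDegree ≤ K) →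
      ∀ (ω : D.Ω) (p : Fin m → ℝ), D.mtd M₁ s F F₁ ω → D.mtd M₂ s F F₂ ω →
        (∀ c ∈ M₁, |(∑ l, D.slp M₁ ω c l * p l) - eval (D.v ω) (pderiv c (F₁ ω))| ≤ ρ) →
        (∀ c ∈ M₂, |(∑ l, D.slp M₂ ω c l * p l) - eval (D.v ω) (pderiv c (F₂ ω))| ≤ ρ) →
        ∀ c, |eval (D.v ω) (pderiv c (F ω)) - p c| ≤
          (2 : ℝ) ^ (C * (b + 1)) * (1 / 2 ^ s + ρ) := by
  obtain ⟨Kr, Cr, hCr, hdet⟩ := rst_det m K
  obtain ⟨C₁, hC₁, hpd⟩ := rst_pd m K
  obtain ⟨K₂, hK₂⟩ : ∃ K₂ : ℕ, K₂ = max K Kr := ⟨_, rfl⟩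
  obtain ⟨N, hN⟩ : ∃ N : ℕ, (K₂ + 1) ^ m * K₂ + 1 ≤ 2 ^ N :=
    ⟨(K₂ + 1) ^ m * K₂ + 1, (Nat.lt_two_pow_self).le⟩
  obtain ⟨C, hC⟩ : ∃ C : ℝ, C = m * (m + C₁) + C₁ + N + 1 + Cr := ⟨_, rfl⟩
  have hm0 : (0 : ℝ) ≤ m := Nat.cast_nonneg m
  have hNn : (0 : ℝ) ≤ N := Nat.cast_nonneg N
  have hmC : 0 ≤ m * (m + C₁) := by positivity
  refine ⟨C, by rw [hC]; linarith only [hCr, hC₁, hmC], ?_⟩
  intro D M₁ M₂ F F₁ F₂ b θ ρ s hU hb hρ hH hX hsX hFd hFc hF₁ hF₂ ω p hm₁ hm₂ ho₁ ho₂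
  have hX1 : C₁ * (b + 1) ≤ D.X := by
    have : C₁ * (b + 1) ≤ C * (b + 1) :=
      mul_le_mul_of_nonneg_right (by rw [hC]; linarith only [hCr, hmC]) (by linarith only [hb])
    linarith only [hX, this]
  have hXr : Cr * (b + 1) ≤ D.X := by
    have : Cr * (b + 1) ≤ C * (b + 1) :=
      mul_le_mul_of_nonneg_right (by rw [hC]; linarith only [hC₁, hmC]) (by linarith only [hb])
    linarith only [hX, this]
  have hv := D.v_le hH.V_lt ω
  obtain ⟨A, hA⟩ : ∃ A : ℝ, A = (2 : ℝ) ^ (C₁ * (b + 1)) := ⟨_, rfl⟩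
  have hA1 : 1 ≤ A := by
    rw [hA]
    exact Real.one_le_rpow (by norm_num) (by positivity)
  obtain ⟨δ, hδ⟩ : ∃ δ : ℝ, δ = 1 / 2 ^ s := ⟨_, rfl⟩
  have hδ0 : 0 ≤ δ := by rw [hδ]; positivity
  have hδX : ((2 : ℝ) ^ D.X)⁻¹ ≤ δ := by
    rw [hδ, ← one_div]
    exact one_div_le_one_div_of_le (by positivity) (pow_le_pow_right₀ one_le_two hsX)
  obtain ⟨Q, hQ⟩ : ∃ Q : ℝ, Q = ((K₂ : ℝ) + 1) ^ m * K₂ := ⟨_, rfl⟩
  exact by
   have hQ0 : 0 ≤ Q := by rw [hQ]; positivity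
   have hQN : Q + 1 ≤ (2 : ℝ) ^ (N : ℝ) := by
     rw [hQ, Real.rpow_natCast]
     exact_mod_cast hN
   obtain ⟨r, hr⟩ : ∃ r : ℝ, r = A * δ + Q * δ + ρ := ⟨_, rfl⟩
   have hr0 : 0 ≤ r := by rw [hr]; positivity
   obtain ⟨d, hd⟩ : ∃ d : Fin m → ℝ, d = fun c => eval (D.v ω) (pderiv c (F ω)) - p c := ⟨_, rfl⟩
   -- one set
   have one : ∀ (M : Finset (Fin m)) (G : D.Ω → Pl m), (∀ ω, (G ω).totalDegree ≤ K) →
       D.mtd M s F G ω →
       (∀ c ∈ M, |(∑ l, D.slp M ω c l * p l) - eval (D.v ω) (pderiv c (G ω))| ≤ ρ) →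
       ∀ c ∈ M, |d c + ∑ l ∈ univ.filter (fun l => l ∉ M), D.slp M ω c l * d l| ≤ r := by
     intro M G hG hm ho c hc
     obtain ⟨-, h1⟩ := hpd D M b θ F hb hH hX1 hFd hFc ω c
     obtain ⟨-, hd2, -, -⟩ := hdet D M b θ F hb hH hXr hFd hFc ω
     have h2 : |eval (D.v ω) (pderiv c (D.rst M F ω)) - eval (D.v ω) (pderiv c (G ω))| ≤ Q * δ := by
       rw [← map_sub, ← map_sub]
       refine (eval_ml2 hv).trans ?_
       have h3 : (D.rst M F ω - G ω).totalDegree ≤ K₂ := by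
         refine (totalDegree_sub _ _).trans (max_le ?_ ?_)
         · rw [hK₂]
           exact hd2.trans (le_max_right _ _)
         · rw [hK₂]
           exact (hG ω).trans (le_max_left _ _)
       refine (ml_pd_small h3 hδ0 (fun α hα => ?_) c).trans (le_of_eq ?_)
       · rw [coeff_sub, hδ]
         exact hm α hα
       · rw [hQ]
         ring
     have h3 : |eval (D.v ω) (pderiv c (D.rst M F ω)) -
         ∑ l, D.slp M ω c l * eval (D.v ω) (pderiv l (F ω))| ≤ A * δ := by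
       refine h1.trans ?_
       rw [← hA]
       exact mul_le_mul_of_nonneg_left hδX (by linarith only [hA1])
     have h4 := ho c hc
     rw [← D.slp_sum M ω hc d]
     have e : (∑ l, D.slp M ω c l * d l) =
         (∑ l, D.slp M ω c l * eval (D.v ω) (pderiv l (F ω))) - ∑ l, D.slp M ω c l * p l := by
       rw [← Finset.sum_sub_distrib]
       refine Finset.sum_congr rfl fun l _ => ?_
       rw [hd]
       ring
     rw [e, hr]
     rw [abs_le] at h2 h3 h4 ⊢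
     constructor <;> linarith only [h2, h3, h4, h2.1, h2.2, h3.1, h3.2, h4.1, h4.2]
   exact by
    have all : ∀ c, ∃ M : Finset (Fin m), (∀ l, |D.slp M ω c l| ≤ A) ∧
        |d c + ∑ l ∈ univ.filter (fun l => l ∉ M), D.slp M ω c l * d l| ≤ r := by
      intro c
      have hc : c ∈ M₁ ∪ M₂ := by rw [hU]; exact mem_univ c
      rw [Finset.mem_union] at hc
      rcases hc with hc | hc
      · refine ⟨M₁, fun l => ?_, one M₁ F₁ hF₁ hm₁ ho₁ c hc⟩
        rw [hA]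
        exact (hpd D M₁ b θ F hb hH hX1 hFd hFc ω c).1 l
      · refine ⟨M₂, fun l => ?_, one M₂ F₂ hF₂ hm₂ ho₂ c hc⟩
        rw [hA]
        exact (hpd D M₂ b θ F hb hH hX1 hFd hFc ω c).1 l
    -- downward induction
    have key : ∀ j : ℕ, ∀ c : Fin m, m - (c : ℕ) ≤ j → |d c| ≤ r * (1 + m * A) ^ j := by
      intro j
      induction j with
      | zero =>
        intro c hc
        have := c.isLt
        omega
      | succ j ih =>
        intro c hc
        obtain ⟨M, hM1, hM2⟩ := all c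
        have hmA : 0 ≤ (m : ℝ) * A := by positivity
        have hB0 : 0 ≤ r * (1 + m * A) ^ j := by positivity
        have h1 : |∑ l ∈ univ.filter (fun l => l ∉ M), D.slp M ω c l * d l| ≤
            m * (A * (r * (1 + m * A) ^ j)) := by
          refine (Finset.abs_sum_le_sum_abs _ _).trans ?_
          have h2 : ∀ l ∈ univ.filter (fun l => l ∉ M), |D.slp M ω c l * d l| ≤
              A * (r * (1 + m * A) ^ j) := by
            intro l hl
            rw [mem_filter] at hl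
            rw [abs_mul]
            by_cases hlc : l ≤ c
            · rw [D.slp_zero M ω (hH.s_vars ω) hl.2 hlc, abs_zero, zero_mul]
              exact mul_nonneg (by linarith only [hA1]) hB0
            · refine mul_le_mul (hM1 l) (ih l ?_) (abs_nonneg _) (by linarith only [hA1])
              have : (c : ℕ) < (l : ℕ) := by
                exact Fin.lt_def.1 (not_le.1 hlc)
              omega
          refine (Finset.sum_le_card_nsmul _ _ _ h2).trans ?_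
          rw [nsmul_eq_mul]
          refine mul_le_mul_of_nonneg_right ?_ (mul_nonneg (by linarith only [hA1]) hB0)
          have h3 : (univ.filter (fun l => l ∉ M)).card ≤ m := by
            refine (Finset.card_filter_le _ _).trans ?_
            rw [Finset.card_univ, Fintype.card_fin]
          exact_mod_cast h3
        have h2 : |d c| ≤ r + m * (A * (r * (1 + m * A) ^ j)) := by
          have e : d c = (d c + ∑ l ∈ univ.filter (fun l => l ∉ M), D.slp M ω c l * d l) -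
              ∑ l ∈ univ.filter (fun l => l ∉ M), D.slp M ω c l * d l := by ring
          rw [e]
          refine (abs_sub _ _).trans (add_le_add hM2 h1)
        refine h2.trans ?_
        have h3 : r ≤ r * (1 + m * A) ^ j :=
          le_mul_of_one_le_right hr0 (one_le_pow₀ (by linarith only [hmA]))
        rw [pow_succ]
        nlinarith only [h3]
    exact by
     intro c
     have h1 := key m c (Nat.sub_le _ _)
     have h2 : |eval (D.v ω) (pderiv c (F ω)) - p c| ≤ r * (1 + m * A) ^ m := by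
       rw [hd] at h1
       exact h1
     refine h2.trans ?_
     -- the constants
     have e1 : 1 + m * A ≤ (2 : ℝ) ^ ((m + C₁) * (b + 1)) := by
       have h3 : 1 + m * A ≤ (m + 1) * A := by linarith only [hA1]
       have h4 : (m : ℝ) + 1 ≤ (2 : ℝ) ^ (m : ℝ) := by
         rw [Real.rpow_natCast]
         exact_mod_cast Nat.lt_two_pow_self
       have h5 : (2 : ℝ) ^ (m : ℝ) ≤ (2 : ℝ) ^ (m * (b + 1)) :=
         Real.rpow_le_rpow_of_exponent_le (by norm_num) (le_mul_of_one_le_right hm0 (by linarith only [hb]))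
       refine h3.trans ((mul_le_mul_of_nonneg_right (h4.trans h5) (by linarith only [hA1])).trans ?_)
       rw [hA, ← Real.rpow_add (by norm_num)]
       refine le_of_eq ?_
       congr 1
       ring
     have e2 : (1 + m * A) ^ m ≤ (2 : ℝ) ^ (m * (m + C₁) * (b + 1)) := by
       refine (pow_le_pow_left₀ (by positivity) e1 m).trans (le_of_eq ?_)
       rw [← Real.rpow_natCast, ← Real.rpow_mul (by norm_num)]
       congr 1
       ring
     have e3 : r ≤ (2 : ℝ) ^ ((C₁ + N) * (b + 1)) * (1 / 2 ^ s + ρ) := by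
       rw [← hδ, hr]
       have h3 : A * δ + Q * δ + ρ ≤ (A * (Q + 1)) * (δ + ρ) := by
         have h5 : Q * δ ≤ A * Q * δ := by
           have := mul_le_mul_of_nonneg_right hA1 (mul_nonneg hQ0 hδ0)
           linarith only [this]
         have h6 : 1 ≤ A * (Q + 1) := one_le_mul_of_one_le_of_one_le hA1 (by linarith only [hQ0])
         have h7 := mul_le_mul_of_nonneg_right h6 hρ
         nlinarith only [h5, h7]
       refine h3.trans (mul_le_mul_of_nonneg_right ?_ (by positivity))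
       have h4 : A * (Q + 1) ≤ (2 : ℝ) ^ (C₁ * (b + 1)) * (2 : ℝ) ^ (N : ℝ) := by
         rw [hA]
         exact mul_le_mul_of_nonneg_left hQN (by positivity)
       refine h4.trans ?_
       rw [← Real.rpow_add (by norm_num)]
       refine Real.rpow_le_rpow_of_exponent_le (by norm_num) ?_
       nlinarith only [hb]
     exact by
      calc r * (1 + m * A) ^ m ≤ ((2 : ℝ) ^ ((C₁ + N) * (b + 1)) * (1 / 2 ^ s + ρ)) *
            (2 : ℝ) ^ (m * (m + C₁) * (b + 1)) := mul_le_mul e3 e2 (by positivity) (by positivity)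
        _ = (2 : ℝ) ^ ((C₁ + N) * (b + 1)) * (2 : ℝ) ^ (m * (m + C₁) * (b + 1)) *
            (1 / 2 ^ s + ρ) := by ring
        _ ≤ (2 : ℝ) ^ (C * (b + 1)) * (1 / 2 ^ s + ρ) := by
            refine mul_le_mul_of_nonneg_right ?_ (by positivity)
            rw [← Real.rpow_add (by norm_num)]
            refine Real.rpow_le_rpow_of_exponent_le (by norm_num) ?_
            rw [← add_mul]
            refine mul_le_mul_of_nonneg_right ?_ (by linarith only [hb])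
            rw [hC]
            linarith only [hCr]

end Pool.TIE
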