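import Pool.Agent.H20.TIE.Gds
import Pool.Agent.H24.GSD.ClsT

/-!
# STEP V with matching in a cell, unconditional
-/

set_option autoImplicit false

namespace Pool.GSD.Cls

open Finset Real MvPolynomial
open Pool.Agent.H49.Ent Pool.Agent.H32.Dense Pool.STK Pool.STAT
open Pool.BFL (Pb Pl)
open Pool.TIE
open Pool.GSD.Row

/-- **STEP V with matching in a cell**, a theorem. -/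
theorem gds_thm (n K B' : ℕ) (lam gam : ℕ → ℝ) (C₁ h : ℝ) (hn : 1 ≤ n)
    (hB' : 1 ≤ B') (hC₁ : 1 ≤ C₁) (hlam : ∀ l, 1 ≤ lam l) (hgam : ∀ l, 0 ≤ gam l)
    (hgn : 0 < gam n) (hno : ∀ l, 1 ≤ l → l < n → gam l * lam n ≠ gam n * lam l) (hh : 0 < h)
    (hh1 : h ≤ 1) :
    ∃ (K' : ℕ) (σ C Λ : ℝ), 0 < σ ∧ σ ≤ 1 ∧ 1 ≤ C ∧ (∀ l, 1 ≤ l → l ≤ n → lam l ≤ Λ) ∧
    ∀ ε : ℝ, 0 < ε → ∃ (c₁ : ℝ) (u u' N v Wd : ℕ) (x : ℕ → ℤ) (a : ℕ → ℕ) (B : ℕ), 0 < c₁ ∧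
      Dirs n lam gam (2 ^ u + 2 * Λ + 8) N v x a ∧ (∀ k ≤ N, |x k| ≤ Wd) ∧ v ≤ Wd ∧ 2 ≤ u' ∧
      u' ≤ u ∧ ∀ (m₀ b₀ : ℕ) (Rf : ℕ → ℕ) (η : ℝ), 0 < η →
    ∃ (N₀ M : ℕ) (κ₀ ϖ : ℝ) (z₀ : ℕ), 0 < κ₀ ∧ 0 < ϖ ∧
    ∀ (J a₀ w₀ z : ℕ) (κ κ' : ℝ) (D : NDat2) (q : D.Ω → ℝ), z₀ ≤ z → κ ≤ κ₀ → κ' ≤ κ₀ →
      D.Ok2 n K J a₀ w₀ z M lam gam κ C₁ q → D.NF n z M B' gam h C₁ ϖ q → D.TmU J w₀ z κ' q →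
      Pb q (fun ω => ¬ GA D n z a₀ B 1 M ω) ≤ η ∧
      ∃ (l i j bb h h' : ℕ), u + 1 ≤ l ∧ m₀ ≤ 2 ^ (l - u) ∧ 2 ^ l ≤ N₀ ∧
        (Rf N₀ + Wd) * 2 ^ l ≤ i ∧ i + (Rf N₀ + Wd) * 2 ^ l ≤ M ∧ (Rf N₀ + Wd) * 2 ^ l ≤ j ∧
        j + (Rf N₀ + Wd) * 2 ^ l ≤ M ∧ b₀ * z ≤ bb ∧ (bb : ℝ) + 1 ≤ ε * h' ∧ m₀ * z ≤ h' ∧
        h' ≤ h ∧ h ≤ 2 ^ (l - u') * z ∧
      ∃ (Ω' : Type) (_ : Fintype Ω') (q' : Ω' → ℝ) (f : Ω' → D.Ω) (G : Ω' → Pl (n - 1)),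
        SubL q c₁ q' f ∧ (∀ w, 0 < q' w → 0 < q (f w) ∧ GA D n z a₀ B 1 M (f w)) ∧
        Vg D n z N v x a l u i j bb (2 ^ (l - u') * z) (dK n K) K' (qG D n z a₀ B M q) σ C ε h h'
          q' f G :=
  gds_all cls n K B' lam gam C₁ h hn hB' hC₁ hlam hgam hgn hno hh hh1

end Pool.GSD.Cls
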