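import Pool.Agent.H20.TIE.Gds
import Pool.Agent.H19.VAS.Def

/-!
# The output of STEP V over the exact point

From the claim of `gds_all` (`cX` digits of the base, the height over the digits) to `VSt` (`h'`
digits of the base, the exact height over the total sheet).
-/

set_option autoImplicit false

namespace Pool.GSD.Cls

open Finset Real MvPolynomial
open Pool.Agent.H49.Ent Pool.Agent.H32.Dense Pool.STK Pool.STAT
open Pool.BFL (Pb Pl)
open Pool.TIE Pool.MicA
open Pool.VAS (VSt hT zv)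
open Pool.GSD.Row

/-- Fewer digits. -/
theorem yps_div (D : NDat2) (n z i j : ℕ) (S : D.Ω → ℕ → PN) (ω : D.Ω) {X X' : ℕ} (h : X' ≤ X)
    (l : Fin (n - 1)) : YpS D n z i j X' S ω l = YpS D n z i j X S ω l / 2 ^ (X - X') := by
  unfold YpS
  have h1 : (2 : ℝ) ^ X' * up z (ztS D i j S ω (l + 1)) =
      (2 : ℝ) ^ X * up z (ztS D i j S ω (l + 1)) / ((2 ^ (X - X') : ℕ) : ℝ) := by
    push_cast
    rw [eq_div_iff (by positivity)]
    have h2 : (2 : ℝ) ^ X = 2 ^ X' * 2 ^ (X - X') := by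
      rw [← pow_add]
      congr 1
      omega
    rw [h2]
    ring
  rw [h1, Nat.floor_div_natCast]

/-- The last digits. -/
theorem yps_few (D : NDat2) (n z i j : ℕ) (S : D.Ω → ℕ → PN) {X X' : ℕ} (h : X' ≤ X)
    {Ω' : Type} [Fintype Ω'] {q : Ω' → ℝ} (hq : IsLaw q) (f : Ω' → D.Ω) {T : Type} (Y : Ω' → T) :
    CH q (fun w => YpS D n z i j X S (f w)) (fun w => (YpS D n z i j X' S (f w), Y w)) ≤
      ((n - 1 : ℕ) : ℝ) * (((X : ℝ) - X') * Real.log 2) := by
  classical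
  have h0 : CH q (fun w => YpS D n z i j X S (f w)) (fun w => (YpS D n z i j X' S (f w), Y w)) ≤
      CH q (fun w => fun l => YpS D n z i j X S (f w) l % 2 ^ (X - X'))
        (fun w => (YpS D n z i j X' S (f w), Y w)) := by
    refine CH_mono_left hq.nonneg fun w w' _ _ e => ?_
    have e1 := (Prod.ext_iff.1 e).1
    have e2 := (Prod.ext_iff.1 (Prod.ext_iff.1 e).2).1
    funext l
    have e3 := congrFun e1 l
    have e4 := congrFun e2 l
    simp only at e3 e4
    rw [yps_div D n z i j S _ h, yps_div D n z i j S _ h] at e4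
    rw [← Nat.div_add_mod (YpS D n z i j X S (f w) l) (2 ^ (X - X')), e3, e4, Nat.div_add_mod]
  refine h0.trans ?_
  have h1 := CH_le_card hq.nonneg hq.sum_one
    (fun w => fun l => YpS D n z i j X S (f w) l % 2 ^ (X - X'))
    (fun w => (YpS D n z i j X' S (f w), Y w))
    (fun _ => Fintype.piFinset fun _ : Fin (n - 1) => Finset.range (2 ^ (X - X')))
    (fun w _ => by
      rw [Fintype.mem_piFinset]
      intro c
      exact Finset.mem_range.2 (Nat.mod_lt _ (by positivity)))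
  refine h1.trans (le_of_eq ?_)
  rw [Ex_const hq.sum_one, Fintype.card_piFinset]
  simp only [Finset.card_range, Finset.prod_const, Finset.card_univ, Fintype.card_fin]
  push_cast
  rw [Real.log_pow, Real.log_pow, Nat.cast_sub h]

/-- The constant of the polynomials. -/
noncomputable def cbx (n K' : ℕ) : ℝ :=
  (Pool.Agent.H36.KBX.bx (n - 1) K').card * (((n - 1 : ℕ) : ℝ) * K')

/-- The exact height over the total sheet. -/
theorem hT_arg (D : NDat2) (n z i j : ℕ) (F : Pl (n - 1)) (ω : D.Ω) :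
    (2 : ℝ) ^ D.g i j n * (D.X ω n - eval (D.X ω) (vtP n z (D.g i j) (D.Ψ i j ω) F)) =
      zs D i j ω n - eval (scv n z (D.g i j) (D.Ψ i j ω) (D.X ω)) F := by
  rw [eval_vtP]
  unfold zs Pool.MIC.Frm.nat
  field_simp
  ring

/-- The height over the digits is near to the exact height. -/
theorem h_near (D : NDat2) (n z i j X h₀ h' K' : ℕ) (ε : ℝ) (hε : ε ≤ 1) (hh : h' ≤ h₀)
    (hX : 2 * h₀ ≤ X) (F : Pl (n - 1)) (hF : F.totalDegree ≤ K')
    (hc : ∀ α, |coeff α F| ≤ (2 : ℝ) ^ (ε * h')) (ω : D.Ω)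
    (hp : ∀ k, 1 ≤ k → k < n → |zs D i j ω k| ≤ 1) :
    |((nuS D n i j h₀ (D.Ψ i j) ω : ℝ) / 2 ^ h₀ -
      eval (fun c => ((YpS D n z i j X (D.Ψ i j) ω c : ℤ) : ℝ) / 2 ^ X) F) -
      (2 : ℝ) ^ D.g i j n * (D.X ω n - eval (D.X ω) (vtP n z (D.g i j) (D.Ψ i j ω) F))| ≤
      (1 + cbx n K') * (1 / 2 ^ h') := by
  rw [hT_arg]
  have h1 : |(nuS D n i j h₀ (D.Ψ i j) ω : ℝ) / 2 ^ h₀ - zs D i j ω n| ≤ 1 / 2 ^ h' := by
    have h2 := Pool.TIE.dg_le h₀ (zs D i j ω n)
    rw [abs_sub_comm] at h2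
    refine le_trans h2 ?_
    exact one_div_le_one_div_of_le (by positivity) (pow_le_pow_right₀ one_le_two hh)
  have hX0 : (0 : ℝ) < 2 ^ X := by positivity
  have h3 : ∀ c : Fin (n - 1), 0 ≤ scv n z (D.g i j) (D.Ψ i j ω) (D.X ω) c ∧
      scv n z (D.g i j) (D.Ψ i j ω) (D.X ω) c ≤ 1 := fun c =>
    up_mem (z := z) (hp (c + 1) (by omega) (by have := c.2; omega))
  have h4 : ∀ c : Fin (n - 1), 0 ≤ scv n z (D.g i j) (D.Ψ i j ω) (D.X ω) c -
      ((YpS D n z i j X (D.Ψ i j) ω c : ℤ) : ℝ) / 2 ^ X ∧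
      scv n z (D.g i j) (D.Ψ i j ω) (D.X ω) c -
      ((YpS D n z i j X (D.Ψ i j) ω c : ℤ) : ℝ) / 2 ^ X ≤ 1 / 2 ^ X := by
    intro c
    have k1 : 0 ≤ (2 : ℝ) ^ X * scv n z (D.g i j) (D.Ψ i j ω) (D.X ω) c :=
      mul_nonneg hX0.le (h3 c).1
    have k2 := Nat.floor_le k1
    have k3 := Nat.lt_floor_add_one ((2 : ℝ) ^ X * scv n z (D.g i j) (D.Ψ i j ω) (D.X ω) c)
    have k4 : ((YpS D n z i j X (D.Ψ i j) ω c : ℤ) : ℝ) =
        (⌊(2 : ℝ) ^ X * scv n z (D.g i j) (D.Ψ i j ω) (D.X ω) c⌋₊ : ℝ) := by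
      push_cast
      rfl
    rw [k4]
    constructor
    · rw [sub_nonneg, div_le_iff₀ hX0]
      linarith
    · rw [sub_le_iff_le_add, ← add_div, le_div_iff₀ hX0]
      linarith
  have h5 : |eval (fun c => ((YpS D n z i j X (D.Ψ i j) ω c : ℤ) : ℝ) / 2 ^ X) F -
      eval (scv n z (D.g i j) (D.Ψ i j ω) (D.X ω)) F| ≤ cbx n K' * (1 / 2 ^ h') := by
    have k1 := pl_lip F hF (c := (2 : ℝ) ^ (ε * h')) (ε := 1 / 2 ^ X) (by positivity)
      (fun α _ => hc α) (by positivity)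
      (y := fun c => ((YpS D n z i j X (D.Ψ i j) ω c : ℤ) : ℝ) / 2 ^ X)
      (y' := scv n z (D.g i j) (D.Ψ i j ω) (D.X ω)) (fun c => by
        have k2 : (0 : ℝ) ≤ ((YpS D n z i j X (D.Ψ i j) ω c : ℤ) : ℝ) / 2 ^ X := by positivity
        rw [abs_of_nonneg k2]
        linarith [(h4 c).1, (h3 c).2])
      (fun c => by
        rw [abs_of_nonneg (h3 c).1]
        exact (h3 c).2)
      (fun c => by
        rw [abs_sub_comm, abs_of_nonneg (h4 c).1]
        exact (h4 c).2)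
    refine k1.trans ?_
    have k3 : (2 : ℝ) ^ (ε * h') * (1 / 2 ^ X) ≤ 1 / 2 ^ h' := by
      have k4 : (2 : ℝ) ^ (ε * h') ≤ 2 ^ h' := by
        rw [← Real.rpow_natCast]
        refine Real.rpow_le_rpow_of_exponent_le (by norm_num) ?_
        exact mul_le_of_le_one_left (Nat.cast_nonneg _) hε
      have k5 : (2 : ℝ) ^ h' * 2 ^ h' ≤ 2 ^ X := by
        rw [← pow_add]
        exact pow_le_pow_right₀ one_le_two (by omega)
      rw [mul_one_div, div_le_div_iff₀ hX0 (by positivity), one_mul]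
      exact (mul_le_mul_of_nonneg_right k4 (by positivity)).trans k5
    unfold cbx
    have k6 : (0 : ℝ) ≤ (Pool.Agent.H36.KBX.bx (n - 1) K').card * (((n - 1 : ℕ) : ℝ) * K') := by
      positivity
    have k7 := mul_le_mul_of_nonneg_left k3 k6
    refine le_trans (le_of_eq ?_) k7
    ring
  have e1 := abs_le.1 h1
  have e2 := abs_le.1 h5
  rw [abs_le]
  constructor <;> linarith

/-- The base has twice as many digits as the height. -/
theorem two_le_cX {z l u' : ℕ} (hu : 2 ≤ u') (hl : u' ≤ l) :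
    2 * (2 ^ (l - u') * z) ≤ cX z l := by
  unfold cX
  have h1 : 2 * 2 ^ (l - u') ≤ 2 ^ (l - 1) := by
    rw [← pow_succ']
    exact Nat.pow_le_pow_right (by norm_num) (by omega)
  have h2 : 2 * (2 ^ (l - u') * z) = 2 * 2 ^ (l - u') * z := by ring
  have h3 : 2 * 2 ^ (l - u') * z ≤ (2 ^ (l - 1) + 1) * z := Nat.mul_le_mul_right z (by omega)
  omega

/-- **From the claim of STEP V to the exact height.** -/
theorem vst_of (n K' : ℕ) : ∃ Cv : ℝ, 0 ≤ Cv ∧
    ∀ (D : NDat2) (z v : ℕ) (x : ℕ → ℤ) (a : ℕ → ℕ) (l i j bb h₀ : ℕ) (q q₀ : D.Ω → ℝ)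
      (c₁ ε : ℝ) (h' : ℕ) {Ω' : Type} [Fintype Ω'] (q' : Ω' → ℝ) (f : Ω' → D.Ω)
      (G : Ω' → Pl (n - 1)), SubL q c₁ q' f →
      (∀ w, 0 < q' w → ∀ k, 1 ≤ k → k < n → |zs D i j (f w) k| ≤ 1) → ε ≤ 1 → h' ≤ h₀ →
      2 * h₀ ≤ cX z l →
      Claim ((cD D n z v x a l i j bb h₀ q₀).pull q' f) univ h' K' (ε * h') (ε * h') G →
      VSt D n z i j h' K' q c₁ (ε * h' + Cv) (ε * h') q' f G := by
  have hcb : 0 ≤ cbx n K' := by unfold cbx; positivity
  refine ⟨Real.log (2 * (2 * (cbx n K' + 2)) + 1), Real.log_nonneg (by linarith), ?_⟩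
  intro D z v x a l i j bb h₀ q q₀ c₁ ε h' Ω' _ q' f G hs hp hε hh hX hc
  have hq' := hs.isLaw
  have hrc : ∀ w, (rc D ((i : ℤ), (j : ℤ)) (f w), D.T (f w)) = zv D i j (f w) := fun _ => rfl
  have hX' : h' ≤ cX z l := by omega
  have hz : ∀ w, ((cD D n z v x a l i j bb h₀ q₀).pull q' f).z w = zv D i j (f w) := fun _ => rfl
  have hnear : ∀ w, 0 < q' w →
      |((hT D n z i j h' (G w) (f w) - ((cD D n z v x a l i j bb h₀ q₀).pull q' f).hF h' G w : ℤ) : ℝ)|
        ≤ cbx n K' + 2 := by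
    intro w hw
    have h1 := h_near D n z i j (cX z l) h₀ h' K' ε hε hh hX (G w) (hc.deg w) (hc.cf w) (f w)
      (hp w hw)
    rw [abs_sub_comm] at h1
    have h2 := dig_near h1
    refine le_trans (le_of_eq ?_) (h2.trans (by linarith))
    rfl
  refine ⟨hs, hc.deg, hc.cf, ?_, ?_⟩
  · refine le_trans (CH_mono_cond hq'.nonneg fun w w' _ _ e => ?_)
      (hc.few.trans (by linarith [Real.log_nonneg (show 1 ≤ 2 * (2 * (cbx n K' + 2)) + 1 by linarith)]))
    refine Prod.ext ?_ ?_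
    · funext c
      simp [Dat.out]
    · exact e
  · have h1 := hc.full
    have e1 : CH q' (((cD D n z v x a l i j bb h₀ q₀).pull q' f).on univ)
        (fun ω => (((cD D n z v x a l i j bb h₀ q₀).pull q' f).hF h' G ω,
          (G ω, (((cD D n z v x a l i j bb h₀ q₀).pull q' f).out univ ω,
            ((cD D n z v x a l i j bb h₀ q₀).pull q' f).z ω)))) ≤
        CH q' (fun w => YpS D n z i j (cX z l) (D.Ψ i j) (f w))
          (fun w => (((cD D n z v x a l i j bb h₀ q₀).pull q' f).hF h' G w,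
            (G w, zv D i j (f w)))) := by
      refine (CH_mono_left hq'.nonneg fun w w' _ _ e => ?_).trans
        (CH_mono_cond hq'.nonneg fun w w' _ _ e => ?_)
      · have e2 := (Prod.ext_iff.1 e).1
        funext c
        simp only [Dat.on, mem_univ, if_true]
        have e3 := congrFun e2 c
        show ((YpS D n z i j (cX z l) (D.Ψ i j) (f w) c : ℕ) : ℤ) =
          ((YpS D n z i j (cX z l) (D.Ψ i j) (f w') c : ℕ) : ℤ)
        simp only at e3
        rw [e3]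
      · simp only [Prod.mk.injEq] at e ⊢
        exact ⟨e.1, e.2.1, e.2.2.2⟩
    have h1' : (((univ : Finset (Fin (n - 1))).card : ℝ)) * ((cX z l : ℝ) * Real.log 2) -
        ε * h' ≤ CH q' (fun w => YpS D n z i j (cX z l) (D.Ψ i j) (f w))
          (fun w => (((cD D n z v x a l i j bb h₀ q₀).pull q' f).hF h' G w,
            (G w, zv D i j (f w)))) := h1.trans e1
    obtain ⟨hF, hhF⟩ : ∃ hF : Ω' → ℤ,
        hF = ((cD D n z v x a l i j bb h₀ q₀).pull q' f).hF h' G := ⟨_, rfl⟩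
    rw [← hhF] at h1'
    rw [Finset.card_univ, Fintype.card_fin] at h1'
    have e2 := CH_le_add hq'.nonneg (fun w => YpS D n z i j (cX z l) (D.Ψ i j) (f w))
      (fun w => YpS D n z i j h' (D.Ψ i j) (f w)) (fun w => (hF w, (G w, zv D i j (f w))))
    have e3 := yps_few D n z i j (D.Ψ i j) hX' hq' f (fun w => (hF w, (G w, zv D i j (f w))))
    have e4 := CH_le_add hq'.nonneg (fun w => YpS D n z i j h' (D.Ψ i j) (f w))
      (fun w => hT D n z i j h' (G w) (f w)) (fun w => (hF w, (G w, zv D i j (f w))))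
    have e5 : CH q' (fun w => YpS D n z i j h' (D.Ψ i j) (f w))
        (fun w => (hT D n z i j h' (G w) (f w), (hF w, (G w, zv D i j (f w))))) ≤
        CH q' (fun w => YpS D n z i j h' (D.Ψ i j) (f w))
          (fun w => (hT D n z i j h' (G w) (f w), (G w, zv D i j (f w)))) := by
      refine CH_mono_cond hq'.nonneg fun w w' _ _ e => ?_
      simp only [Prod.mk.injEq] at e ⊢
      exact ⟨e.1, e.2.2⟩
    have e6 : CH q' (fun w => hT D n z i j h' (G w) (f w))
        (fun w => (hF w, (G w, zv D i j (f w)))) ≤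
        Real.log (2 * (2 * (cbx n K' + 2)) + 1) := by
      refine CH_int hq' _ _ (c := 2 * (cbx n K' + 2)) fun w w' hw hw' e => ?_
      have k1 := abs_le.1 (hnear w hw)
      have k2 := abs_le.1 (hnear w' hw')
      rw [← hhF] at k1 k2
      have k3 : hF w = hF w' := (Prod.ext_iff.1 e).1
      rw [k3] at k1
      push_cast at k1 k2 ⊢
      rw [abs_le]
      constructor <;> linarith [k1.1, k1.2, k2.1, k2.2]
    linarith

end Pool.GSD.Cls
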