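import Pool.Agent.H4.TIE.Nfd
import Pool.Agent.H41.GSD.Sid

/-!
# STEP V, class side: nonfull rows over the visible side

As `nfd_gen`, with the visible side in the place of the line side: the digits of the height over the
label at the point. No charts are needed.
-/

set_option autoImplicit false

namespace Pool.TIE

open Finset MvPolynomial
open Pool.Agent.H49.Ent Pool.Agent.H32.Dense Pool.STK Pool.STAT Pool.BFL Pool.MicA

/-- **Nonfull rows for sub-laws**, the visible side. -/
theorem nfs_gen (n B : ℕ) (C₁ h κ π A : ℝ) (hn : 1 ≤ n) (hB : 1 ≤ B) (hh : 0 < h) (hh1 : h ≤ 1)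
    (hκ : 0 < κ) (hπ : 0 < π) (hA : 0 ≤ A) : ∃ (H₀ z₀ : ℕ) (ϖ : ℝ), 0 < ϖ ∧
    ∀ (D : NDat2) (z M : ℕ) (gam : ℕ → ℝ) (q : D.Ω → ℝ),
      IsLaw q → D.NF n z M B gam h C₁ ϖ q → z₀ ≤ z →
      ∀ i j H X : ℕ, i + (H / z + 1) ≤ M → j ≤ M →
      (((H / z : ℕ) : ℝ) + 1) ≤ gam n * (M - j) → H₀ * z ≤ H → B * (H + z) ≤ X →
      ∀ {𝒱 𝒵 : Type} (V : D.Ω → 𝒱) (Z : D.Ω → 𝒵) (nr : D.Ω → ℝ),
      Det q Z (fun ω => (D.s i j ω, D.T ω)) →
      (∀ ω ω', 0 < q ω → 0 < q ω' → V ω = V ω' → Z ω = Z ω' →
        ∀ l, 1 ≤ l → l < n → |zs D i j ω l - zs D i j ω' l| ≤ Real.exp (A * z) / 2 ^ X) →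
      (∀ ω, 0 < q ω → |nr ω - zs D i j ω n| ≤ Real.exp (A * z) / 2 ^ H) →
      ∀ (Ω' : Type) [Fintype Ω'] (q' : Ω' → ℝ) (f : Ω' → D.Ω), SubL q π q' f →
      ∀ r r' : ℕ, r ≤ r' → r' ≤ H → κ * H ≤ (r' : ℝ) - r →
        CH q' (fun ω => dg r' (nr (f ω))) (fun ω => (dg r (nr (f ω)), (V (f ω), Z (f ω)))) ≤
          (1 - h / 2) * ((r' : ℝ) - r) * Real.log 2 := by
  obtain ⟨ϖ, M₀, hϖ, hd⟩ := dens (h / 4) π (by positivity) hπ
  obtain ⟨L, hL⟩ : ∃ L : ℝ, L = Real.log 18 := ⟨_, rfl⟩
  have hL0 : 0 ≤ L := by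
    rw [hL]
    exact Real.log_nonneg (by norm_num)
  have hl2 : (1 : ℝ) / 2 ≤ Real.log 2 := by
    have := Real.log_two_gt_d9
    linarith only [this]
  have hl21 : Real.log 2 ≤ 1 := by
    have := Real.log_two_lt_d9
    linarith only [this]
  obtain ⟨H₁, hH₁⟩ := exists_nat_ge ((2 + |C₁| + (n + 1) * (L + A)) * 8 / (h * κ))
  obtain ⟨z₁, hz₁⟩ := exists_nat_ge (2 * M₀)
  refine ⟨max H₁ 1, max z₁ 1, ϖ, hϖ, ?_⟩
  intro D z M gam q hq hN hz i j H X hiH hj hgam hH hX 𝒱 𝒵 V Z nr hZ hV hnr Ω' _ q' f hs
    r r' hr hr' hκr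
  have hq' := hs.isLaw
  have hi : i ≤ M := (Nat.le_add_right _ _).trans hiH
  have hz1 : 1 ≤ z := (le_max_right _ _).trans hz
  have hzR : (1 : ℝ) ≤ z := by exact_mod_cast hz1
  have hz0 : (0 : ℝ) < z := by linarith only [hzR]
  have hzM : M₀ ≤ z * Real.log 2 := by
    have h1 : (z₁ : ℝ) ≤ z := by exact_mod_cast (le_max_left _ _).trans hz
    have h2 : (z : ℝ) * (1 / 2) ≤ z * Real.log 2 := mul_le_mul_of_nonneg_left hl2 hz0.le
    linarith only [hz₁, h1, h2]
  exact by
   have hHz : z ≤ H := by
     have h1 := Nat.mul_le_mul_right z (le_max_right H₁ 1)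
     rw [one_mul] at h1
     exact h1.trans hH
   have hHR : (1 : ℝ) ≤ H := by exact_mod_cast hz1.trans hHz
   have hAz : 0 ≤ A * z := by positivity
   have hE : 1 ≤ Real.exp (A * z) := Real.one_le_exp hAz
   have hE0 : 0 < Real.exp (A * z) := by linarith only [hE]
   have hrr : r < r' := by
     have h1 : 0 < κ * (H : ℝ) := by positivity
     have h2 : (r : ℝ) < r' := by linarith only [hκr, h1]
     exact_mod_cast h2
   -- the rows
   obtain ⟨R, hR⟩ : ∃ R, R = r / z := ⟨_, rfl⟩
   obtain ⟨R', hR'⟩ : ∃ R', R' = (r' + z - 1) / z := ⟨_, rfl⟩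
   have a1 : R * z ≤ r := by
     rw [hR]
     exact Nat.div_mul_le_self r z
   have a2 : r < R * z + z := by
     rw [hR]
     exact Nat.lt_div_mul_add hz1
   have a3 : r' ≤ R' * z := by
     have h1 : r' + z - 1 < (r' + z - 1) / z * z + z := Nat.lt_div_mul_add hz1
     rw [hR']
     omega
   have a4 : R' * z ≤ r' + z := by
     have h1 : (r' + z - 1) / z * z ≤ r' + z - 1 := Nat.div_mul_le_self _ z
     rw [hR']
     omega
   have a5 : R' ≤ H / z + 1 := by
     rw [hR', ← Nat.add_div_right H hz1]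
     exact Nat.div_le_div_right (by omega)
   exact by
    have a6 : R < R' := by
      by_contra hc
      push Not at hc
      have := Nat.mul_le_mul_right z hc
      omega
    obtain ⟨U, rfl⟩ : ∃ U, R' = R + U := ⟨R' - R, by omega⟩
    have hU1 : 1 ≤ U := by omega
    have hUR : (1 : ℝ) ≤ U := by exact_mod_cast hU1
    have hHr : ∀ s ≤ H, Real.exp (A * z) / 2 ^ H ≤ Real.exp (A * z) / 2 ^ s := by
      intro s hs
      exact div_le_div_of_nonneg_left hE0.le (by positivity) (pow_le_pow_right₀ one_le_two hs)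
    have h1r : ∀ s t : ℕ, s ≤ t → (1 : ℝ) / 2 ^ t ≤ Real.exp (A * z) / 2 ^ s := by
      intro s t hst
      exact div_le_div₀ hE0.le hE (by positivity) (pow_le_pow_right₀ one_le_two hst)
    have hRH : (R + U) * z ≤ H + z := by omega
    -- the entropies
    have b0 : CH q' (fun w => D.nd n i j ((R + U) * z) (f w)) (fun w => (D.nd n i j (R * z) (f w),
        (D.vd n i j (B * ((R + U) * z)) (f w), (D.s i j (f w), D.T (f w))))) ≤
        ((1 - h) * (U * z) * Real.log 2 + C₁ * z) + h / 4 * (U * z * Real.log 2) := by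
      refine hd D.Ω _ _ q (D.nd n i j ((R + U) * z)) (fun ω => (D.nd n i j (R * z) ω,
        (D.vd n i j (B * ((R + U) * z)) ω, (D.s i j ω, D.T ω)))) _ _ hq ?_ ?_ ?_ Ω' q' f hs
      · have h1 := mul_le_mul_of_nonneg_right hUR (show 0 ≤ z * Real.log 2 by positivity)
        rw [one_mul, ← mul_assoc] at h1
        exact hzM.trans h1
      · intro Ω'' _ q'' g hq''
        have e1 : CH q'' (fun w => D.nd n i j ((R + U) * z) (g w))
            (fun w => (D.nd n i j (R * z) (g w),
              (D.vd n i j (B * ((R + U) * z)) (g w), (D.s i j (g w), D.T (g w))))) ≤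
            CH q'' (fun w => D.nd n i j ((R + U) * z) (g w) -
              2 ^ (U * z) * D.nd n i j (R * z) (g w)) (fun w => (D.nd n i j (R * z) (g w),
              (D.vd n i j (B * ((R + U) * z)) (g w), (D.s i j (g w), D.T (g w))))) := by
          refine CH_mono_left hq''.nonneg fun w w' _ _ e => ?_
          simp only [Prod.mk.injEq] at e
          obtain ⟨f1, f2, _⟩ := e
          rw [f2] at f1
          linarith only [f1]
        refine e1.trans ((CH_lt hq'' _ _ (X := U * z) fun w _ => ?_).trans (le_of_eq ?_))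
        · rw [nd_eq, nd_eq, add_mul]
          exact dig_split (R * z) (U * z) (zs D i j (g w) n)
        · push_cast
          ring
      · intro E hE'
        refine (hN i hi j hj R U (by omega) ?_ E hE').trans (le_of_eq ?_)
        · have : ((R + U : ℕ) : ℝ) ≤ ((H / z + 1 : ℕ) : ℝ) := by exact_mod_cast a5
          push_cast at this
          linarith only [hgam, this]
        · rfl
    -- the base
    exact by
     have b1 : CH q' (fun w => D.vd n i j (B * ((R + U) * z)) (f w))
         (fun w => (V (f w), Z (f w))) ≤ (n - 1 : ℕ) * (L + A * z) := by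
       have h1 := CH_le_vec hq'.nonneg hq'.sum_one (fun w => D.vd n i j (B * ((R + U) * z)) (f w))
         (fun w => (V (f w), Z (f w))) (fun _ => 1 * Real.exp (A * z) + 1)
         (fun w w' hw hw' e l => by
           simp only [Prod.mk.injEq] at e
           obtain ⟨e1, e2⟩ := e
           rw [vd_eq, vd_eq]
           refine dig_near ?_
           refine (hV _ _ (hs.pos hπ hw) (hs.pos hπ hw') e1 e2 (l + 1) (by omega)
             (by have := l.2; omega)).trans ?_
           rw [one_mul, mul_one_div]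
           refine div_le_div_of_nonneg_left hE0.le (by positivity)
             (pow_le_pow_right₀ one_le_two (le_trans ?_ hX))
           exact Nat.mul_le_mul_left B hRH)
       rw [Ex_const hq'.sum_one] at h1
       refine h1.trans (mul_le_mul_of_nonneg_left ?_ (Nat.cast_nonneg _))
       rw [hL]
       exact log_exp_le (by norm_num) hAz (by norm_num)
     -- from the digits of the height to the digits of `nr`
     have b2 : CH q' (fun w => dg r' (nr (f w))) (fun w => (D.nd n i j ((R + U) * z) (f w),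
         (dg r (nr (f w)), (V (f w), Z (f w))))) ≤ L + A * z := by
       have h1 := CH_int hq' (fun w => dg r' (nr (f w))) (fun w => (D.nd n i j ((R + U) * z) (f w),
         (dg r (nr (f w)), (V (f w), Z (f w)))))
         (c := 3 * Real.exp (A * z) + 1) (fun w w' hw hw' e => by
           simp only [Prod.mk.injEq] at e
           obtain ⟨e0, _, e1, e2⟩ := e
           have p := hs.pos hπ hw
           have p' := hs.pos hπ hw'
           rw [nd_eq, nd_eq] at e0
           have g1 : |zs D i j (f w) n - zs D i j (f w') n| ≤ Real.exp (A * z) / 2 ^ r' :=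
             (dig_eq e0).trans (h1r r' _ a3)
           have g2 := hnr _ p
           have g3 := hnr _ p'
           have g4 := hHr r' hr'
           refine dig_near ?_
           have g5 : |nr (f w) - nr (f w')| ≤ 3 * (Real.exp (A * z) / 2 ^ r') := by
             have := abs_le.1 g1
             have := abs_le.1 g2
             have := abs_le.1 g3
             rw [abs_le]
             constructor <;> linarith
           refine g5.trans (le_of_eq ?_)
           ring)
       refine h1.trans ?_
       rw [hL]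
       exact log_exp_le (by norm_num) hAz (by norm_num)
     exact by
      have b3 : CH q' (fun w => D.nd n i j (R * z) (f w))
          (fun w => (dg r (nr (f w)), (V (f w), Z (f w)))) ≤ L + A * z := by
        have h1 := CH_int hq' (fun w => D.nd n i j (R * z) (f w))
          (fun w => (dg r (nr (f w)), (V (f w), Z (f w))))
          (c := 3 * Real.exp (A * z) + 1) (fun w w' hw hw' e => by
            simp only [Prod.mk.injEq] at e
            obtain ⟨e0, e1, e2⟩ := e
            have p := hs.pos hπ hw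
            have p' := hs.pos hπ hw'
            have g0 := (dg_eq' e0).trans (h1r (R * z) r a1)
            have g2 := hnr _ p
            have g3 := hnr _ p'
            have hRz : R * z ≤ H := a1.trans (hr.trans hr')
            have g4 := hHr (R * z) hRz
            have g5 : |zs D i j (f w) n - zs D i j (f w') n| ≤ 3 * (Real.exp (A * z) / 2 ^ (R * z)) := by
              have := abs_le.1 g0
              have := abs_le.1 g2
              have := abs_le.1 g3
              rw [abs_le]
              constructor <;> linarith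
            rw [nd_eq, nd_eq]
            refine dig_near ?_
            refine g5.trans (le_of_eq ?_)
            ring)
        refine h1.trans ?_
        rw [hL]
        exact log_exp_le (by norm_num) hAz (by norm_num)
      -- together
      exact by
       have c1 := CH_le_add hq'.nonneg (fun w => dg r' (nr (f w)))
         (fun w => D.nd n i j ((R + U) * z) (f w))
         (fun w => (dg r (nr (f w)), (V (f w), Z (f w))))
       have c2 := CH_few hq'.nonneg (fun w => D.nd n i j ((R + U) * z) (f w))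
         (fun w => D.nd n i j (R * z) (f w))
         (fun w => (dg r (nr (f w)), (V (f w), Z (f w))))
       have c3 : CH q' (fun w => D.nd n i j ((R + U) * z) (f w)) (fun w => (D.nd n i j (R * z) (f w),
           (dg r (nr (f w)), (V (f w), Z (f w))))) ≤
           CH q' (fun w => D.nd n i j ((R + U) * z) (f w)) (fun w => (D.nd n i j (R * z) (f w),
             (V (f w), Z (f w)))) :=
         CH_mono_cond hq'.nonneg fun w w' _ _ e => by
           simp only [Prod.mk.injEq] at e ⊢
           tauto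
       have c4 := CH_few hq'.nonneg (fun w => D.nd n i j ((R + U) * z) (f w))
         (fun w => D.vd n i j (B * ((R + U) * z)) (f w))
         (fun w => (D.nd n i j (R * z) (f w), (V (f w), Z (f w))))
       have c5 : CH q' (fun w => D.vd n i j (B * ((R + U) * z)) (f w))
           (fun w => (D.nd n i j (R * z) (f w), (V (f w), Z (f w)))) ≤
           CH q' (fun w => D.vd n i j (B * ((R + U) * z)) (f w))
             (fun w => (V (f w), Z (f w))) :=
         CH_mono_cond hq'.nonneg fun w w' _ _ e => (Prod.ext_iff.1 e).2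
       have c6 : CH q' (fun w => D.nd n i j ((R + U) * z) (f w))
           (fun w => (D.vd n i j (B * ((R + U) * z)) (f w), (D.nd n i j (R * z) (f w),
             (V (f w), Z (f w))))) ≤
           CH q' (fun w => D.nd n i j ((R + U) * z) (f w)) (fun w => (D.nd n i j (R * z) (f w),
             (D.vd n i j (B * ((R + U) * z)) (f w), (D.s i j (f w), D.T (f w))))) :=
         CH_mono_cond hq'.nonneg fun w w' hw hw' e => by
           simp only [Prod.mk.injEq] at e
           obtain ⟨e1, e2, _, e4⟩ := e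
           exact Prod.ext e2 (Prod.ext e1 (hZ _ _ (hs.pos hπ hw) (hs.pos hπ hw') e4))
       -- numbers
       exact by
        have d1 : ((U : ℝ) * z) ≤ (r' : ℝ) - r + 2 * z := by
          have h1 : (R + U) * z + r ≤ r' + z + (R * z + z) := by omega
          have h2 : (((R + U) * z + r : ℕ) : ℝ) ≤ ((r' + z + (R * z + z) : ℕ) : ℝ) := by
            exact_mod_cast h1
          push_cast at h2
          linarith only [h2]
        have d2 : (n - 1 : ℕ) * (L + A * z) + 2 * (L + A * z) ≤ (n + 1) * (L + A) * z := by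
          have h1 : (((n - 1 : ℕ) : ℝ)) = n - 1 := by
            push_cast [Nat.cast_sub hn]
            ring
          rw [h1]
          have h2 : L + A * z ≤ (L + A) * z := by
            have := mul_le_mul_of_nonneg_left hzR hL0
            linarith only [this]
          have h3 := mul_le_mul_of_nonneg_left h2 (show (0 : ℝ) ≤ n + 1 by positivity)
          linarith only [h3]
        have d3 : C₁ * z ≤ |C₁| * z := mul_le_mul_of_nonneg_right (le_abs_self _) (by linarith only [hzR])
        have d4 : (2 + |C₁| + (n + 1) * (L + A)) * z ≤ h / 8 * ((r' : ℝ) - r) := by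
          have h1 : (H₁ : ℝ) * z ≤ H := by
            have h2 := (Nat.mul_le_mul_right z (le_max_left H₁ 1)).trans hH
            exact_mod_cast h2
          rw [div_le_iff₀ (by positivity)] at hH₁
          have h3 := mul_le_mul_of_nonneg_right hH₁ hz0.le
          have h4 := mul_le_mul_of_nonneg_left hκr hh.le
          have h5 := mul_le_mul_of_nonneg_left h1 (mul_pos hh hκ).le
          have e1 : (2 + |C₁| + (n + 1) * (L + A)) * 8 * z = 8 * ((2 + |C₁| + (n + 1) * (L + A)) * z) := by
            ring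
          have e2 : (H₁ : ℝ) * (h * κ) * z = h * κ * (H₁ * z) := by ring
          have e3 : h * (κ * H) = h * κ * H := by ring
          rw [e1, e2] at h3
          rw [e3] at h4
          linarith only [h3, h4, h5]
        exact by
         have d5 : (1 - h + h / 4) * (U * z * Real.log 2) ≤
             (1 - h + h / 4) * (((r' : ℝ) - r + 2 * z) * Real.log 2) :=
           mul_le_mul_of_nonneg_left (mul_le_mul_of_nonneg_right d1 (by linarith only [hl2])) (by linarith only [hh1])
         have d6 : (1 - h + h / 4) * (2 * z * Real.log 2) ≤ 2 * z := by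
           have h1 : 2 * (z : ℝ) * Real.log 2 ≤ 2 * (z : ℝ) * 1 :=
             mul_le_mul_of_nonneg_left hl21 (by positivity)
           have h2 : 0 ≤ 2 * (z : ℝ) * Real.log 2 := by positivity
           have h3 : (1 - h + h / 4) * (2 * z * Real.log 2) ≤ 1 * (2 * z * Real.log 2) :=
             mul_le_mul_of_nonneg_right (by linarith only [hh]) h2
           linarith only [h1, h3]
         have d7 : h / 8 * ((r' : ℝ) - r) ≤ h / 4 * (((r' : ℝ) - r) * Real.log 2) := by
           have h0 : 0 ≤ (r' : ℝ) - r := by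
             have : (r : ℝ) ≤ r' := by exact_mod_cast hr
             linarith only [this]
           have h1 : ((r' : ℝ) - r) * (1 / 2) ≤ ((r' : ℝ) - r) * Real.log 2 :=
             mul_le_mul_of_nonneg_left hl2 h0
           have h2 := mul_le_mul_of_nonneg_left h1 (show 0 ≤ h / 4 by positivity)
           linarith only [h2]
         have e1 : ((1 - h) * (U * z) * Real.log 2 + C₁ * z) + h / 4 * (U * z * Real.log 2) =
             (1 - h + h / 4) * (U * z * Real.log 2) + C₁ * z := by ring
         have e2 : (1 - h + h / 4) * (((r' : ℝ) - r + 2 * z) * Real.log 2) =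
             (1 - h + h / 4) * (((r' : ℝ) - r) * Real.log 2) + (1 - h + h / 4) * (2 * z * Real.log 2) := by
           ring
         have e3 : (2 + |C₁| + (n + 1) * (L + A)) * z =
             2 * z + |C₁| * z + (n + 1) * (L + A) * z := by ring
         have e4 : (1 - h / 2) * ((r' : ℝ) - r) * Real.log 2 =
             (1 - h + h / 4) * (((r' : ℝ) - r) * Real.log 2) + h / 4 * (((r' : ℝ) - r) * Real.log 2) := by
           ring
         rw [e1] at b0
         rw [e2] at d5
         exact by
          rw [e3] at d4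
          rw [e4]
          linarith only [b0, b1, b2, b3, c1, c2, c3, c4, c5, c6, d2, d3, d4, d5, d6, d7]

/-- Injective maps onto the support. -/
theorem subL_inj {Ω : Type} [Fintype Ω] {q : Ω → ℝ} (hq : IsLaw q) {W : Type} [Fintype W]
    (g : W → Ω) (hg : Function.Injective g) (h : ∀ ω, 0 < q ω → ∃ w, g w = ω) :
    SubL q 1 (fun w => q (g w)) g := by
  classical
  refine ⟨⟨fun w => hq.nonneg _, ?_⟩, fun ω => ?_⟩
  · rw [← hq.sum_one, ← Finset.sum_image (s := univ) (g := g) (f := q) fun a _ b _ e => hg e]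
    refine Finset.sum_subset (Finset.subset_univ _) fun ω _ hω => ?_
    by_contra hne
    obtain ⟨w, rfl⟩ := h ω (lt_of_le_of_ne (hq.nonneg ω) (Ne.symm hne))
    exact hω (Finset.mem_image_of_mem g (mem_univ w))
  · rw [one_mul]
    by_cases hw : ∃ w, g w = ω
    · obtain ⟨w, rfl⟩ := hw
      unfold Pool.Agent.H49.Ent.law
      rw [Finset.sum_eq_single w]
      · rw [if_pos rfl]
      · intro w' _ hne
        exact if_neg fun e => hne (hg e)
      · intro hw'
        exact absurd (mem_univ w) hw'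
    · unfold Pool.Agent.H49.Ent.law
      rw [Finset.sum_eq_zero]
      · exact hq.nonneg ω
      · intro w _
        exact if_neg fun e => hw ⟨w, e⟩

/-- A law on an event. -/
theorem subL_ev {Ω : Type} [Fintype Ω] {q : Ω → ℝ} (hq : IsLaw q) (G : Ω → Prop) {c : ℝ}
    (hc : 0 < c) (hG : c ≤ Pb q G) : SubL q c (Pool.Agent.H49.Ent.cond q G True) id := by
  classical
  have h0 : 0 < Pb q G := lt_of_lt_of_le hc hG
  refine ⟨Pool.MIC.isLaw_ev hq G h0, fun ω => ?_⟩
  have e1 : Pool.Agent.H49.Ent.law (Pool.Agent.H49.Ent.cond q G True) id ω =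
      Pool.Agent.H49.Ent.cond q G True ω := by
    unfold Pool.Agent.H49.Ent.law
    rw [Finset.sum_eq_single ω]
    · exact if_pos rfl
    · intro b _ hb
      exact if_neg hb
    · intro h
      exact absurd (mem_univ ω) h
  rw [e1]
  have h1 : Pool.Agent.H49.Ent.cond q G True ω ≤ q ω / Pb q G := by
    unfold Pool.Agent.H49.Ent.cond
    rw [Pool.MIC.law_True]
    split_ifs with h2
    · exact le_rfl
    · exact div_nonneg (hq.nonneg ω) h0.le
  refine (mul_le_mul_of_nonneg_left h1 hc.le).trans ?_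
  rw [mul_div_assoc', div_le_iff₀ h0, mul_comm]
  exact mul_le_mul_of_nonneg_left hG (hq.nonneg ω)

/-- **Nonfull rows of a cell in the form of STEP V**, the visible side, on sub-laws. -/
theorem nfd_vis (n B : ℕ) (C₁ h κ π c : ℝ) (hn : 1 ≤ n) (hB : 1 ≤ B) (hh : 0 < h) (hh1 : h ≤ 1)
    (hκ : 0 < κ) (hπ : 0 < π) (hc : 0 < c) : ∃ (H₀ z₀ : ℕ) (ϖ : ℝ), 0 < ϖ ∧
    ∀ (D : NDat2) (z M : ℕ) (gam : ℕ → ℝ) (q : D.Ω → ℝ),
      IsLaw q → D.NF n z M B gam h C₁ ϖ q → z₀ ≤ z →
      ∀ i j h₀ X : ℕ, (∀ ω, 0 < q ω → ∀ l, 1 ≤ l → l < n → |zs D i j ω l| ≤ 1) →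
      i + (h₀ / z + 1) ≤ M → j ≤ M →
      (((h₀ / z : ℕ) : ℝ) + 1) ≤ gam n * (M - j) → H₀ * z ≤ h₀ → B * (h₀ + z) ≤ X →
      ∀ {𝒵 : Type} (zz : D.Ω → 𝒵), Det q zz (fun ω => (D.s i j ω, D.T ω)) →
      ∀ (W : Type) [Fintype W] (p : W → ℝ) (g : W → D.Ω), SubL q c p g →
      ∀ (q₁ : D.Ω → ℝ) (s : D.Ω → Fin (n - 1) → Pl (n - 1)),
        NFd ((Pool.GSD.datS D n z i j X h₀ (D.Ψ i j) zz q₁ s).pull p g) h₀ (h / 2) κ π := by
  obtain ⟨H₀, z₀, ϖ, hϖ, H⟩ := nfs_gen n B C₁ h κ (c * π) 3 hn hB hh hh1 hκ (by positivity)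
    (by norm_num)
  refine ⟨H₀, max z₀ 1, ϖ, hϖ, ?_⟩
  intro D z M gam q hq hN hz i j h₀ X hp hi hj hgam hh₀ hX 𝒵 zz hzz W _ p g hg q₁ s Ω' _ q' f hs
    r r' hr hr' hκr
  have hz1 : (1 : ℝ) ≤ z := by exact_mod_cast (le_max_right _ _).trans hz
  have e4 : 4 * (2 : ℝ) ^ z ≤ Real.exp (3 * z) := by
    have h0 : (2 : ℝ) ≤ Real.exp 1 := by linarith only [Real.add_one_le_exp (1 : ℝ)]
    have h1 : (2 : ℝ) ^ z ≤ Real.exp (z * 1) := by
      rw [Real.exp_nat_mul]
      exact pow_le_pow_left₀ (by norm_num) h0 z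
    have h2 : (4 : ℝ) ≤ Real.exp (2 * z) := by
      have h3 : Real.exp 1 * Real.exp 1 ≤ Real.exp (2 * z) := by
        rw [← Real.exp_add]
        exact Real.exp_le_exp.2 (by linarith only [hz1])
      have h4 : (2 : ℝ) * 2 ≤ Real.exp 1 * Real.exp 1 :=
        mul_le_mul h0 h0 (by norm_num) (Real.exp_pos 1).le
      linarith only [h3, h4]
    have h5 : Real.exp (3 * z) = Real.exp (2 * z) * Real.exp (z * 1) := by
      rw [← Real.exp_add]
      congr 1
      ring
    rw [h5]
    exact mul_le_mul h2 h1 (by positivity) (Real.exp_pos _).le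
  refine H D z M gam q hq hN ((le_max_left _ _).trans hz) i j h₀ X hi hj hgam hh₀ hX
    (fun ω => fun l => (Pool.GSD.YpS D n z i j X (D.Ψ i j) ω l : ℤ)) zz
    (fun ω => (Pool.GSD.nuS D n i j h₀ (D.Ψ i j) ω : ℝ) / 2 ^ h₀) hzz
    ?_ ?_ Ω' q' (fun w => g (f w)) (hg.trans hc.le hs) r r' hr hr' hκr
  · intro ω ω' p1 p2 e1 e2 l l1 l2
    obtain ⟨l, rfl⟩ : ∃ m, l = m + 1 := ⟨l - 1, by omega⟩
    have e5 : (Pool.GSD.YpS D n z i j X (D.Ψ i j) ω ⟨l, by omega⟩ : ℤ) =
        Pool.GSD.YpS D n z i j X (D.Ψ i j) ω' ⟨l, by omega⟩ := congrFun e1 _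
    have e6 : ⌊(2 : ℝ) ^ X * up z (zs D i j ω (l + 1))⌋₊ =
        ⌊(2 : ℝ) ^ X * up z (zs D i j ω' (l + 1))⌋₊ := Int.ofNat.inj e5
    have k1 := (up_mem (z := z) (hp ω p1 (l + 1) l1 l2)).1
    have k2 := (up_mem (z := z) (hp ω' p2 (l + 1) l1 l2)).1
    have y1 := Nat.floor_le (mul_nonneg (show (0 : ℝ) ≤ 2 ^ X by positivity) k1)
    have y2 := Nat.lt_floor_add_one ((2 : ℝ) ^ X * up z (zs D i j ω (l + 1)))
    have y3 := Nat.floor_le (mul_nonneg (show (0 : ℝ) ≤ 2 ^ X by positivity) k2)
    have y4 := Nat.lt_floor_add_one ((2 : ℝ) ^ X * up z (zs D i j ω' (l + 1)))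
    rw [e6] at y1 y2
    have e7 : zs D i j ω (l + 1) - zs D i j ω' (l + 1) = 4 * 2 ^ z *
        (up z (zs D i j ω (l + 1)) - up z (zs D i j ω' (l + 1))) := by
      unfold up
      field_simp
      ring
    rw [e7, abs_mul, abs_of_pos (by positivity), ← mul_one_div]
    refine mul_le_mul e4 ?_ (abs_nonneg _) (Real.exp_pos _).le
    have y5 : |(2 : ℝ) ^ X * (up z (zs D i j ω (l + 1)) - up z (zs D i j ω' (l + 1)))| ≤ 1 := by
      rw [mul_sub, abs_le]
      constructor <;> linarith only [y1, y2, y3, y4]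
    rw [abs_mul, abs_of_pos (show (0 : ℝ) < 2 ^ X by positivity)] at y5
    rw [le_div_iff₀ (by positivity), mul_comm]
    exact y5
  · intro ω _
    have h1 := dg_le h₀ (zs D i j ω n)
    rw [abs_sub_comm]
    refine le_trans h1 (div_le_div_of_nonneg_right ?_ (by positivity))
    exact Real.one_le_exp (by positivity)

end Pool.TIE
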