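import Pool.Agent.H24.GSD.Asm
import Pool.Agent.H20.TIE.Pre

/-!
# From nested cuts to the claim for all coordinates

`cuts_all`: nested cuts (`H24/GSD/Asm`), nonfull rows and the two own leaves of the target give,
with `AllS`, the claim for all coordinates on a sub-law.
-/

set_option autoImplicit false

namespace Pool.TIE

open Finset MvPolynomial
open Pool.Agent.H49.Ent Pool.Agent.H32.Dense Pool.STK Pool.BFL
open Pool.GSD (Cuts)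
open Pool.GSD.Cuts (sdc rkc)

/-- **STEP V from nested cuts.** -/
theorem cuts_all (H : AllS) (m K : ℕ) (c₀ : ℝ) (hc₀ : 0 < c₀) : ∃ K' : ℕ, ∀ ε : ℝ, 0 < ε →
    ∃ (h₁ : ℕ) (κ' κ π c₁ ι : ℝ), 0 < κ' ∧ κ' ≤ 1 ∧ 0 < κ ∧ 0 < π ∧ 0 < c₁ ∧ 0 < ι ∧
    ∀ (D : Dat m) {Γ : Type} (N : ℕ) (A B : ℕ → D.Ω → Γ) (a : Fin m → ℕ) (aN : ℕ) (e : ℝ)
      (kapA kapB : D.Ω → Pl m), h₁ ≤ D.h₀ → 2 * D.h₀ ≤ D.X → Cuts D N A B a aN e →
      e ≤ ι * D.h₀ → (∀ ω c, (D.s ω c).totalDegree ≤ K) →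
      (∀ ω c α, |coeff α (D.s ω c)| ≤ (2 : ℝ) ^ (ι * D.h₀)) →
      (∀ ω, |D.nr ω| ≤ (2 : ℝ) ^ (ι * D.h₀)) → NFd D D.h₀ c₀ κ π →
      (∀ ω, ∀ x ∈ (kapA ω).vars, aN < a x) → (∀ ω, (kapA ω).totalDegree ≤ K) →
      (∀ ω α, |coeff α (kapA ω)| ≤ (2 : ℝ) ^ (ι * D.h₀)) →
      CH D.p kapA (fun ω => (A aN ω, D.z ω)) ≤ e →
      CH D.p (D.hF D.h₀ kapA) (fun ω => (A (aN + 1) ω, D.z ω)) ≤ e →
      (∀ ω, ∀ x ∈ (kapB ω).vars, a x < aN) → (∀ ω, (kapB ω).totalDegree ≤ K) →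
      (∀ ω α, |coeff α (kapB ω)| ≤ (2 : ℝ) ^ (ι * D.h₀)) →
      CH D.p kapB (fun ω => (B (aN + 1) ω, D.z ω)) ≤ e →
      CH D.p (D.hF D.h₀ kapB) (fun ω => (B aN ω, D.z ω)) ≤ e →
      ∃ (Ω' : Type) (_ : Fintype Ω') (q : Ω' → ℝ) (f : Ω' → D.Ω) (h' : ℕ) (G : Ω' → Pl m),
        SubL D.p c₁ q f ∧ κ' * D.h₀ ≤ h' ∧ h' ≤ D.h₀ ∧
        Claim (D.pull q f) univ h' K' (ε * h') (ε * h') G := by
  obtain ⟨K', hpre⟩ := pre_all H m K c₀ hc₀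
  obtain ⟨C, hC, hful⟩ := Cuts.ful_rk m K
  refine ⟨K', fun ε hε => ?_⟩
  obtain ⟨h₁, κ', κ, π, c₁, ι, hκ', hκ'1, hκ, hπ, hc₁, hι, hmain⟩ := hpre ε hε
  obtain ⟨B₀, hB₀⟩ : ∃ B₀ : ℝ, B₀ = 3 * C + m + 11 := ⟨_, rfl⟩
  have hm0 : (0 : ℝ) ≤ m := Nat.cast_nonneg _
  have hB1 : 0 < B₀ := by rw [hB₀]; positivity
  obtain ⟨ι', hι'⟩ : ∃ ι' : ℝ, ι' = ι / (2 * B₀) := ⟨_, rfl⟩
  have hι'0 : 0 < ι' := by rw [hι']; positivity
  have hι'B : ι' * (2 * B₀) = ι := by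
    rw [hι']
    field_simp
  obtain ⟨N₁, hN₁⟩ := exists_nat_ge (2 * C / ι)
  refine ⟨max h₁ N₁, κ', κ, π, c₁, ι', hκ', hκ'1, hκ, hπ, hc₁, hι'0, ?_⟩
  intro D Γ N A B a aN e kapA kapB hh₁ hX HC he hsd hsc hnr hNF hAv hAd hAc hAk hAF hBv hBd hBc
    hBk hBF
  have hx0 : (0 : ℝ) ≤ D.h₀ := Nat.cast_nonneg _
  have hx1 : (N₁ : ℝ) ≤ D.h₀ := by exact_mod_cast (le_max_right _ _).trans hh₁
  have hx2 : h₁ ≤ D.h₀ := (le_max_left _ _).trans hh₁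
  have he0 := HC.e0
  have g1 : 2 * C ≤ ι * D.h₀ := by
    have : 2 * C / ι ≤ D.h₀ := hN₁.trans hx1
    rw [div_le_iff₀ hι] at this
    linarith
  obtain ⟨β, hβ⟩ : ∃ β : ℝ, β = ι' * D.h₀ := ⟨_, rfl⟩
  have hβ0 : 0 ≤ β := by rw [hβ]; positivity
  have hβB : β * (2 * B₀) = ι * D.h₀ := by
    rw [hβ, ← hι'B]
    ring
  rw [← hβ] at he hsc hnr hAc hBc
  have q1 : 0 ≤ β * C := by positivity
  have q2 : 0 ≤ β * m := by positivity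
  have q3 : β * (2 * B₀) = 6 * (β * C) + 2 * (β * m) + 22 * β := by
    rw [hB₀]
    ring
  have r1 : β ≤ ι * D.h₀ := by linarith
  have r2 : 10 * e ≤ ι * D.h₀ := by linarith
  have r3 : (m + 11) * e ≤ ι * D.h₀ := by
    have : (m + 11) * e ≤ (m + 11) * β := mul_le_mul_of_nonneg_left he (by positivity)
    linarith
  have r4 : C * (e + β + 1) ≤ ι * D.h₀ := by
    have : C * (e + β + 1) ≤ C * (β + β + 1) :=
      mul_le_mul_of_nonneg_left (by linarith) (by linarith)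
    linarith
  have hpw : (2 : ℝ) ^ β ≤ (2 : ℝ) ^ (ι * D.h₀) := Real.rpow_le_rpow_of_exponent_le one_le_two r1
  have hH := HC.hyp hX hsd hsc hnr
  have hs1 : ∀ x, sdc a aN x = true ↔ a x < aN := fun x => by
    unfold sdc
    simp
  have hs0 : ∀ x, sdc a aN x = false ↔ aN < a x := fun x => by
    unfold sdc
    have := HC.hne x
    simp only [decide_eq_false_iff_not, not_lt]
    omega
  obtain ⟨a1, a2⟩ := HC.preA (univ.filter fun x => sdc a aN x = false) (fun x => by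
    rw [mem_filter, hs0]
    simp) kapA D.h₀ hAk hAF
  obtain ⟨b1, b2⟩ := HC.preB (univ.filter fun x => sdc a aN x = true) (fun x => by
    rw [mem_filter, hs1]
    simp) kapB D.h₀ hBk hBF
  refine hmain D (sdc a aN) (rkc a aN) kapB kapA hx2 (fun c c' h1 h2 => Cuts.rkc_inj h1 h2)
    (hH.mono le_rfl r1 r2) hNF ?_ ?_ ?_
  · intro i j c c' h1 h2 h3 h4
    exact (hful D N A B a aN e β HC hβ0 hH i j c c' h1 h2 h3 h4).mono r4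
  · refine ⟨fun ω x hx => ?_, hBd, fun ω α => (hBc ω α).trans hpw, by linarith, by linarith⟩
    rw [mem_filter]
    exact ⟨mem_univ _, (hs1 x).2 (hBv ω x hx)⟩
  · refine ⟨fun ω x hx => ?_, hAd, fun ω α => (hAc ω α).trans hpw, by linarith, by linarith⟩
    rw [mem_filter]
    exact ⟨mem_univ _, (hs0 x).2 (hAv ω x hx)⟩

end Pool.TIE
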