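import Pool.Agent.H20.TIE.CutM
import Pool.Agent.H88.TIE.CoreZ

/-!
# STEP V from nested cuts with matching, unconditional
-/

set_option autoImplicit false

namespace Pool.TIE

open Finset MvPolynomial
open Pool.Agent.H49.Ent Pool.Agent.H32.Dense Pool.STK Pool.BFL
open Pool.GSD (Cuts)

/-- **STEP V from nested cuts, with matching**, a theorem. -/
theorem cuts_match_thm (m K : ℕ) (c₀ : ℝ) (hc₀ : 0 < c₀) :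
    ∃ (K' : ℕ) (σ C : ℝ), 0 < σ ∧ σ ≤ 1 ∧ 1 ≤ C ∧ ∀ ε : ℝ, 0 < ε →
    ∃ (h₁ : ℕ) (κ' κ π c₁ ι : ℝ), 0 < κ' ∧ κ' ≤ 1 ∧ 0 < κ ∧ 0 < π ∧ 0 < c₁ ∧ 0 < ι ∧
    ∀ (D : Dat m) {Γ : Type} (N : ℕ) (A B : ℕ → D.Ω → Γ) (a : Fin m → ℕ) (aN : ℕ) (e : ℝ)
      (kapA kapB : D.Ω → Pl m), h₁ ≤ D.h₀ → 2 * D.h₀ ≤ D.X → Cuts D N A B a aN e →
      e ≤ ι * D.h₀ → (∀ ω c, (D.s ω c).totalDegree ≤ K) →
      (∀ ω c α, |coeff α (D.s ω c)| ≤ (2 : ℝ) ^ (ι * D.h₀)) →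
      (∀ ω, |D.nr ω| ≤ (2 : ℝ) ^ (ι * D.h₀)) → NFd D D.h₀ c₀ κ π →
      (∀ ω, ∀ x ∈ (kapA ω).vars, aN < a x) → (∀ ω, (kapA ω).totalDegree ≤ K) →
      (∀ ω α, |coeff α (kapA ω)| ≤ (2 : ℝ) ^ (ι * D.h₀)) →
      CH D.p kapA (fun ω => (A aN ω, D.z ω)) ≤ e →
      CH D.p (D.hF D.h₀ kapA) (fun ω => (A (aN + 1) ω, D.z ω)) ≤ e →
      (∀ ω, ∀ x ∈ (kapB ω).vars, a x < aN) → (∀ ω, (kapB ω).totalDegree ≤ K) →
      (∀ ω α, |coeff α (kapB ω)| ≤ (2 : ℝ) ^ (ι * D.h₀)) →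
      CH D.p kapB (fun ω => (B (aN + 1) ω, D.z ω)) ≤ e →
      CH D.p (D.hF D.h₀ kapB) (fun ω => (B aN ω, D.z ω)) ≤ e →
      ∃ (Ω' : Type) (_ : Fintype Ω') (q : Ω' → ℝ) (f : Ω' → D.Ω) (h h' : ℕ) (G : Ω' → Pl m),
        SubL D.p c₁ q f ∧ κ' * D.h₀ ≤ h' ∧ h' ≤ h ∧ h ≤ D.h₀ ∧
        Claim (D.pull q f) univ h' K' (ε * h') (ε * h') G ∧
        Claim (D.pull q f) (univ.filter fun x => aN < a x) h' K' (ε * h') (ε * h')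
          (fun ω => Fr (univ.filter fun x => aN < a x) K h (kapA (f ω))) ∧
        Claim (D.pull q f) (univ.filter fun x => a x < aN) h' K' (ε * h') (ε * h')
          (fun ω => Fr (univ.filter fun x => a x < aN) K h (kapB (f ω))) ∧
        ∀ ω, 0 < q ω → Mat (D.pull q f) (univ.filter fun x => aN < a x)
          (univ.filter fun x => a x < aN) ⌊σ * h'⌋₊ (C * (ε * h' + 1)) G
          (fun ω => kapA (f ω)) (fun ω => kapB (f ω)) ω :=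
  cuts_match all_thm m K c₀ hc₀

end Pool.TIE
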