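import Pool.Agent.H20.TIE.OwnA

/-!
# The claim from an own shape

`own`: the own shape `kap` over the coordinates of `M` is almost independent of the height and of
the position, the coordinates of `M` are full given the leaf, the height is not full given the
position. Then on an event the rounded shape satisfies the claim for `M`.
-/

set_option autoImplicit false

namespace Pool.TIE

open Finset Real
open Pool.Agent.H49.Ent Pool.Agent.H32.Dense Pool.STK Pool.BFL Pool.MIC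

section cnt

variable {Ω T : Type} [Fintype Ω] {p : Ω → ℝ}

/-- Counting with a constant bound. -/
theorem cnt_vec (hp : IsLaw p) {d : ℕ} (X : Ω → Fin d → ℤ) (W : Ω → T) (L : ℝ)
    (hX : ∀ ω ω', 0 < p ω → 0 < p ω' → W ω = W ω' → ∀ k, |((X ω k - X ω' k : ℤ) : ℝ)| ≤ L) :
    CH p X W ≤ d * Real.log (2 * L + 1) := by
  have h := CH_le_vec hp.nonneg hp.sum_one X W (fun _ => L) hX
  rwa [Ex_const hp.sum_one] at h

theorem cnt_int (hp : IsLaw p) (X : Ω → ℤ) (W : Ω → T) (L : ℝ)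
    (hX : ∀ ω ω', 0 < p ω → 0 < p ω' → W ω = W ω' → |((X ω - X ω' : ℤ) : ℝ)| ≤ L) :
    CH p X W ≤ Real.log (2 * L + 1) := by
  have h := CH_le_int hp.nonneg hp.sum_one X W (fun _ => L) hX
  rwa [Ex_const hp.sum_one] at h

end cnt

/-- Digits of nearby numbers. -/
theorem dg_nearO {h : ℕ} {x y r : ℝ} (hxy : |(2 : ℝ) ^ h * x - (2 : ℝ) ^ h * y| ≤ r) :
    |((dg h x - dg h y : ℤ) : ℝ)| ≤ r + 1 := by
  unfold dg
  have h1 := Int.floor_le ((2 : ℝ) ^ h * x)
  have h2 := Int.lt_floor_add_one ((2 : ℝ) ^ h * x)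
  have h3 := Int.floor_le ((2 : ℝ) ^ h * y)
  have h4 := Int.lt_floor_add_one ((2 : ℝ) ^ h * y)
  push_cast
  rw [abs_le] at hxy ⊢
  constructor <;> linarith

section main

variable {m : ℕ} (D : Dat m) (M : Finset (Fin m))

/-- The coordinates of `M` as a vector. -/
noncomputable def av (ω : D.Ω) (i : Fin M.card) : ℤ := D.V ω (io M i)

/-- Their first `h` digits. -/
noncomputable def yv (h : ℕ) (ω : D.Ω) (i : Fin M.card) : ℤ := av D M ω i / 2 ^ (D.X - h)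

theorem on_av {ω ω' : D.Ω} : D.on M ω = D.on M ω' ↔ av D M ω = av D M ω' := by
  constructor
  · intro h
    funext i
    exact D.on_mem h (io_mem M i)
  · intro h
    funext c
    unfold Dat.on
    by_cases hc : c ∈ M
    · rw [if_pos hc, if_pos hc]
      have := congrFun h (M.equivFin ⟨c, hc⟩)
      unfold av at this
      rwa [io_eq hc] at this
    · rw [if_neg hc, if_neg hc]

theorem CH_on {T : Type} {q : D.Ω → ℝ} (hq : ∀ ω, 0 ≤ q ω) (W : D.Ω → T) :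
    CH q (D.on M) W = CH q (av D M) W := by
  refine CH_congr hq ?_ ?_ (fun _ _ _ _ h => h) (fun _ _ _ _ h => h)
  · intro ω ω' _ _ h
    exact (on_av D M).1 (Prod.ext_iff.1 h).1
  · intro ω ω' _ _ h
    exact (on_av D M).2 (Prod.ext_iff.1 h).1

variable {D M}

theorem av_le {T : Type} (hV : ∀ ω c, 0 ≤ D.V ω c ∧ D.V ω c < 2 ^ D.X) {q : D.Ω → ℝ}
    (hq : IsLaw q) (W : D.Ω → T) :
    CH q (av D M) W ≤ M.card * (D.X * Real.log 2) + M.card * Real.log 3 := by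
  refine (cnt_vec hq (av D M) W (2 ^ D.X) fun ω ω' _ _ _ k => ?_).trans ?_
  · unfold av
    have h1 := hV ω (io M k)
    have h2 := hV ω' (io M k)
    have h3 : |D.V ω (io M k) - D.V ω' (io M k)| ≤ 2 ^ D.X := by
      rw [abs_le]
      constructor <;> linarith only [h1, h2, h1.1, h1.2, h2.1, h2.2]
    exact_mod_cast h3
  · rw [← mul_add]
    refine mul_le_mul_of_nonneg_left ?_ (Nat.cast_nonneg _)
    have h1 : (2 : ℝ) * 2 ^ D.X + 1 ≤ 2 ^ D.X * 3 := by
      have : (1 : ℝ) ≤ 2 ^ D.X := one_le_pow₀ (by norm_num)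
      linarith
    refine (Real.log_le_log (by positivity) h1).trans (le_of_eq ?_)
    rw [Real.log_mul (by positivity) (by norm_num), Real.log_pow]

theorem yv_le {T : Type} (hV : ∀ ω c, 0 ≤ D.V ω c ∧ D.V ω c < 2 ^ D.X) {h : ℕ} (hh : h ≤ D.X)
    {q : D.Ω → ℝ} (hq : IsLaw q) (W : D.Ω → T) :
    CH q (yv D M h) W ≤ M.card * (h * Real.log 2) + M.card * Real.log 3 := by
  have hy : ∀ ω i, 0 ≤ yv D M h ω i ∧ yv D M h ω i < 2 ^ h := by
    intro ω i
    have h1 := hV ω (io M i)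
    unfold yv av
    constructor
    · exact Int.ediv_nonneg h1.1 (by positivity)
    · rw [Int.ediv_lt_iff_lt_mul (by positivity), ← pow_add, show h + (D.X - h) = D.X by omega]
      exact h1.2
  refine (cnt_vec hq (yv D M h) W (2 ^ h) fun ω ω' _ _ _ k => ?_).trans ?_
  · have h1 := hy ω k
    have h2 := hy ω' k
    have h3 : |yv D M h ω k - yv D M h ω' k| ≤ 2 ^ h := by
      rw [abs_le]
      constructor <;> linarith only [h1, h2, h1.1, h1.2, h2.1, h2.2]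
    exact_mod_cast h3
  · rw [← mul_add]
    refine mul_le_mul_of_nonneg_left ?_ (Nat.cast_nonneg _)
    have h1 : (2 : ℝ) * 2 ^ h + 1 ≤ 2 ^ h * 3 := by
      have : (1 : ℝ) ≤ 2 ^ h := one_le_pow₀ (by norm_num)
      linarith
    refine (Real.log_le_log (by positivity) h1).trans (le_of_eq ?_)
    rw [Real.log_mul (by positivity) (by norm_num), Real.log_pow]

/-- The last digits. -/
theorem av_yv {T : Type} {h : ℕ} {q : D.Ω → ℝ}
    (hq : IsLaw q) (W : D.Ω → T) :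
    CH q (av D M) (fun ω => (yv D M h ω, W ω)) ≤
      M.card * ((D.X - h : ℕ) * Real.log 2) + M.card * Real.log 3 := by
  refine (cnt_vec hq (av D M) _ (2 ^ (D.X - h)) fun ω ω' _ _ hh k => ?_).trans ?_
  · have h1 : av D M ω k / 2 ^ (D.X - h) = av D M ω' k / 2 ^ (D.X - h) :=
      congrFun (Prod.ext_iff.1 hh).1 k
    have h2 := Int.emod_add_mul_ediv (av D M ω k) (2 ^ (D.X - h))
    have h3 := Int.emod_add_mul_ediv (av D M ω' k) (2 ^ (D.X - h))
    have h4 := Int.emod_nonneg (av D M ω k) (show (2 : ℤ) ^ (D.X - h) ≠ 0 by positivity)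
    have h5 := Int.emod_nonneg (av D M ω' k) (show (2 : ℤ) ^ (D.X - h) ≠ 0 by positivity)
    have h6 := Int.emod_lt_of_pos (av D M ω k) (show (0 : ℤ) < 2 ^ (D.X - h) by positivity)
    have h7 := Int.emod_lt_of_pos (av D M ω' k) (show (0 : ℤ) < 2 ^ (D.X - h) by positivity)
    have h8 : |av D M ω k - av D M ω' k| ≤ 2 ^ (D.X - h) := by
      rw [← h2, ← h3, h1, abs_le]
      constructor <;> linarith
    exact_mod_cast h8
  · rw [← mul_add]
    refine mul_le_mul_of_nonneg_left ?_ (Nat.cast_nonneg _)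
    have h1 : (2 : ℝ) * 2 ^ (D.X - h) + 1 ≤ 2 ^ (D.X - h) * 3 := by
      have : (1 : ℝ) ≤ 2 ^ (D.X - h) := one_le_pow₀ (by norm_num)
      linarith
    refine (Real.log_le_log (by positivity) h1).trans (le_of_eq ?_)
    rw [Real.log_mul (by positivity) (by norm_num), Real.log_pow]

/-- The height at the centre. -/
noncomputable def nv (D : Dat m) (M : Finset (Fin m)) (kap : D.Ω → Pl m) (ω : D.Ω) : ℤ :=
  D.nu ω - ⌊(2 : ℝ) ^ D.h₀ * MvPolynomial.eval
    (fun i => ((yv D M D.h₀ ω i : ℤ) : ℝ) / 2 ^ D.h₀) (pj M (kap ω))⌋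

variable {kap : D.Ω → Pl m} {K : ℕ} {b : ℝ}

theorem nv_hF (hV : ∀ ω c, 0 ≤ D.V ω c ∧ D.V ω c < 2 ^ D.X) (hh : D.h₀ ≤ D.X) {ω : D.Ω}
    (hv : (kap ω).vars ⊆ M) (hd : (kap ω).totalDegree ≤ K)
    (hc : ∀ α, |MvPolynomial.coeff α (kap ω)| ≤ (2 : ℝ) ^ b) :
    |((nv D M kap ω - D.hF D.h₀ kap ω : ℤ) : ℝ)| ≤
      K * (Pool.Agent.H36.KBX.bx M.card K).card * (2 : ℝ) ^ b + 2 := by
  have hX : (0 : ℝ) < 2 ^ D.X := by positivity
  have hh0 : (0 : ℝ) < 2 ^ D.h₀ := by positivity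
  have hXh : (0 : ℝ) < 2 ^ (D.X - D.h₀) := by positivity
  have hpow : (2 : ℝ) ^ D.X = 2 ^ D.h₀ * 2 ^ (D.X - D.h₀) := by
    rw [← pow_add]
    congr 1
    omega
  obtain ⟨P, hP⟩ : ∃ P : Pl M.card, P = pj M (kap ω) := ⟨_, rfl⟩
  obtain ⟨t, ht⟩ : ∃ t : Fin M.card → ℝ, t = fun i => D.v ω (io M i) := ⟨_, rfl⟩
  obtain ⟨u, hu⟩ : ∃ u : Fin M.card → ℝ, u = fun i => ((yv D M D.h₀ ω i : ℤ) : ℝ) / 2 ^ D.h₀ :=
    ⟨_, rfl⟩
  have hdiv : ∀ i, (yv D M D.h₀ ω i : ℝ) * 2 ^ (D.X - D.h₀) ≤ D.V ω (io M i) ∧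
      (D.V ω (io M i) : ℝ) ≤ (yv D M D.h₀ ω i + 1) * 2 ^ (D.X - D.h₀) := by
    intro i
    have h2 := Int.emod_add_mul_ediv (av D M ω i) (2 ^ (D.X - D.h₀))
    have h4 := Int.emod_nonneg (av D M ω i) (show (2 : ℤ) ^ (D.X - D.h₀) ≠ 0 by positivity)
    have h6 := Int.emod_lt_of_pos (av D M ω i) (show (0 : ℤ) < 2 ^ (D.X - D.h₀) by positivity)
    have h8 : yv D M D.h₀ ω i * 2 ^ (D.X - D.h₀) ≤ D.V ω (io M i) := by
      unfold yv
      change _ ≤ av D M ω i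
      linarith only [h2, h4]
    have h9 : D.V ω (io M i) ≤ (yv D M D.h₀ ω i + 1) * 2 ^ (D.X - D.h₀) := by
      unfold yv
      change av D M ω i ≤ _
      linarith only [h2, h6]
    exact ⟨by exact_mod_cast h8, by exact_mod_cast h9⟩
  have hy : ∀ i, 0 ≤ yv D M D.h₀ ω i ∧ yv D M D.h₀ ω i < 2 ^ D.h₀ := by
    intro i
    have h1 := hV ω (io M i)
    unfold yv av
    constructor
    · exact Int.ediv_nonneg h1.1 (by positivity)
    · rw [Int.ediv_lt_iff_lt_mul (by positivity), ← pow_add,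
        show D.h₀ + (D.X - D.h₀) = D.X by omega]
      exact h1.2
  have ht1 : ∀ i, |t i| ≤ 1 := by
    intro i
    rw [ht]
    simp only
    unfold Dat.v
    have h1 := hV ω (io M i)
    have h2 : (0 : ℝ) ≤ D.V ω (io M i) := by exact_mod_cast h1.1
    have h3 : (D.V ω (io M i) : ℝ) ≤ 2 ^ D.X := by exact_mod_cast h1.2.le
    rw [abs_of_nonneg (by positivity), div_le_one hX]
    exact h3
  have hu1 : ∀ i, |u i| ≤ 1 := by
    intro i
    rw [hu]
    simp only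
    have h1 := hy i
    have h2 : (0 : ℝ) ≤ yv D M D.h₀ ω i := by exact_mod_cast h1.1
    have h3 : (yv D M D.h₀ ω i : ℝ) ≤ 2 ^ D.h₀ := by exact_mod_cast h1.2.le
    rw [abs_of_nonneg (by positivity), div_le_one hh0]
    exact h3
  have htu : ∀ i, |t i - u i| ≤ 1 / 2 ^ D.h₀ := by
    intro i
    rw [ht, hu]
    simp only
    unfold Dat.v
    have h1 := hdiv i
    have h2 : (D.V ω (io M i) : ℝ) / 2 ^ D.X - (yv D M D.h₀ ω i : ℝ) / 2 ^ D.h₀ =
        (D.V ω (io M i) - yv D M D.h₀ ω i * 2 ^ (D.X - D.h₀)) / 2 ^ D.X := by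
      rw [hpow]
      field_simp
    rw [h2, abs_of_nonneg (div_nonneg (by linarith only [h1, h1.1]) hX.le), div_le_div_iff₀ hX hh0,
      hpow, one_mul]
    have h3 : (D.V ω (io M i) : ℝ) - yv D M D.h₀ ω i * 2 ^ (D.X - D.h₀) ≤ 2 ^ (D.X - D.h₀) := by
      linarith only [h1, h1.2]
    calc _ ≤ 2 ^ (D.X - D.h₀) * (2 : ℝ) ^ D.h₀ := mul_le_mul_of_nonneg_right h3 hh0.le
      _ = _ := mul_comm _ _
  have hPd : P.totalDegree ≤ K := by rw [hP]; exact (deg_pj M _).trans hd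
  have hml : Pool.GLM.ml P ≤ (Pool.Agent.H36.KBX.bx M.card K).card * (2 : ℝ) ^ b := by
    unfold Pool.GLM.ml
    have h1 : ∑ i ∈ P.support, |MvPolynomial.coeff i P| ≤ ∑ i ∈ P.support, (2 : ℝ) ^ b :=
      Finset.sum_le_sum fun i _ => by
        rw [hP, coeff_pj hv]
        exact hc _
    refine h1.trans ?_
    rw [Finset.sum_const, nsmul_eq_mul]
    refine mul_le_mul_of_nonneg_right ?_ (by positivity)
    exact_mod_cast Finset.card_le_card (Pool.Agent.H36.KBX.support_bx P hPd)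
  have hlip := Pool.GLM.lip_ml P ht1 hu1 (r := 1 / 2 ^ D.h₀) (by positivity) htu
  have hlip2 : |(2 : ℝ) ^ D.h₀ * MvPolynomial.eval t P - 2 ^ D.h₀ * MvPolynomial.eval u P| ≤
      K * (Pool.Agent.H36.KBX.bx M.card K).card * (2 : ℝ) ^ b := by
    rw [← mul_sub, abs_mul, abs_of_pos hh0]
    have h1 := mul_le_mul_of_nonneg_left hlip hh0.le
    refine h1.trans ?_
    have h2 : (2 : ℝ) ^ D.h₀ * (P.totalDegree * Pool.GLM.ml P * (1 / 2 ^ D.h₀)) =
        P.totalDegree * Pool.GLM.ml P := by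
      field_simp
    rw [h2, mul_assoc]
    have h3 : (P.totalDegree : ℝ) ≤ K := by exact_mod_cast hPd
    have h4 : 0 ≤ Pool.GLM.ml P := Finset.sum_nonneg fun _ _ => abs_nonneg _
    exact mul_le_mul h3 hml h4 (Nat.cast_nonneg _)
  have hev : MvPolynomial.eval (D.v ω) (kap ω) = MvPolynomial.eval t P := by
    rw [ht, hP]
    exact (eval_pj hv _).symm
  have hF : D.hF D.h₀ kap ω = ⌊(D.nu ω : ℝ) - 2 ^ D.h₀ * MvPolynomial.eval t P⌋ := by
    unfold Dat.hF dg Dat.nr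
    rw [hev]
    congr 1
    field_simp
  have hn : nv D M kap ω = D.nu ω - ⌊(2 : ℝ) ^ D.h₀ * MvPolynomial.eval u P⌋ := by
    unfold nv
    rw [hu, hP]
  rw [hF, hn]
  have a1 := Int.floor_le ((D.nu ω : ℝ) - 2 ^ D.h₀ * MvPolynomial.eval t P)
  have a2 := Int.lt_floor_add_one ((D.nu ω : ℝ) - 2 ^ D.h₀ * MvPolynomial.eval t P)
  have a3 := Int.floor_le ((2 : ℝ) ^ D.h₀ * MvPolynomial.eval u P)
  have a4 := Int.lt_floor_add_one ((2 : ℝ) ^ D.h₀ * MvPolynomial.eval u P)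
  push_cast
  rw [abs_le] at hlip2 ⊢
  constructor <;> linarith [hlip2.1, hlip2.2]

/-- **The inputs of W0.** -/
theorem inputs (hp : IsLaw D.p) (hV : ∀ ω c, 0 ≤ D.V ω c ∧ D.V ω c < 2 ^ D.X)
    (hh' : D.h₀ ≤ D.X) (hs : ∀ ω c, ∀ c' ∈ (D.s ω c).vars, c' < c) (hb : 0 ≤ b)
    (hv : ∀ ω, (kap ω).vars ⊆ M) (hd : ∀ ω, (kap ω).totalDegree ≤ K)
    (hc : ∀ ω α, |MvPolynomial.coeff α (kap ω)| ≤ (2 : ℝ) ^ b) {θ : ℝ}
    (H1 : CH D.p kap (fun ω => (D.out M ω, D.z ω)) ≤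
        CH D.p kap (fun ω => (D.nu ω, (D.on M ω, (D.out M ω, D.z ω)))) + θ)
    (H2 : M.card * (D.X * Real.log 2) - θ ≤
        CH D.p (D.on M) (fun ω => (D.hF D.h₀ kap ω, (kap ω, (D.out M ω, D.z ω))))) :
    CH D.p (fun ω => pj M (kap ω)) (fun ω => (D.out M ω, D.z ω)) ≤
        CH D.p (fun ω => pj M (kap ω)) (fun ω => (D.nu ω, (yv D M D.h₀ ω,
          (D.out M ω, D.z ω)))) + θ ∧
      M.card * (D.h₀ * Real.log 2) - (θ + (b + (4 * (K * (Pool.Agent.H36.KBX.bx M.card K).card)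
          + 9)) + M.card * Real.log 3) ≤
        CH D.p (yv D M D.h₀) (fun ω => (nv D M kap ω, (pj M (kap ω), (D.out M ω, D.z ω)))) ∧
      CH D.p D.nu (fun ω => (yv D M D.h₀ ω, (D.out M ω, D.z ω))) ≤
        CH D.p D.nu (fun ω => (D.V ω, D.z ω)) + (θ + (b + (4 * (K *
          (Pool.Agent.H36.KBX.bx M.card K).card) + 9)) + 2 * (M.card * Real.log 3)) := by
  have hp0 := hp.nonneg
  have hl2 : 0 < Real.log 2 := Real.log_pos (by norm_num)
  have hl21 : Real.log 2 ≤ 1 := by linarith only [Real.log_two_lt_d9]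
  obtain ⟨G, hG⟩ : ∃ G : D.Ω → (Fin m → Option (ℤ × Pl m)) × D.Γ,
    G = fun ω => (D.out M ω, D.z ω) := ⟨_, rfl⟩
  obtain ⟨Q, hQ⟩ : ∃ Q : ℝ, Q = K * (Pool.Agent.H36.KBX.bx M.card K).card := ⟨_, rfl⟩
  have hQ0 : 0 ≤ Q := by rw [hQ]; positivity
  obtain ⟨kp, hkp⟩ : ∃ kp : D.Ω → Pl M.card, kp = fun ω => pj M (kap ω) := ⟨_, rfl⟩
  have kk : ∀ ω ω', kp ω = kp ω' ↔ kap ω = kap ω' := by
    intro ω ω'
    rw [hkp]
    simp only
    constructor
    · intro h
      rw [← ren_pj (hv ω), ← ren_pj (hv ω'), h]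
    · intro h
      rw [h]
  have hGe : ∀ {ω ω' : D.Ω}, G ω = G ω' → D.out M ω = D.out M ω' ∧ D.z ω = D.z ω' := by
    intro ω ω' h
    rw [hG] at h
    exact Prod.ext_iff.1 h
  obtain ⟨y, hy⟩ : ∃ y : D.Ω → Fin M.card → ℤ, y = yv D M D.h₀ := ⟨_, rfl⟩
  obtain ⟨n, hn⟩ : ∃ n : D.Ω → ℤ, n = nv D M kap := ⟨_, rfl⟩
  have hnu : ∀ ω, D.nu ω = n ω + ⌊(2 : ℝ) ^ D.h₀ * MvPolynomial.eval
      (fun i => ((y ω i : ℤ) : ℝ) / 2 ^ D.h₀) (kp ω)⌋ := by
    intro ω
    rw [hn, hy, hkp]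
    unfold nv
    ring
  have hya : ∀ {ω ω' : D.Ω}, av D M ω = av D M ω' → y ω = y ω' := by
    intro ω ω' h
    rw [hy]
    funext i
    unfold yv
    rw [h]
  rw [show (fun ω => (D.out M ω, D.z ω)) = G from hG.symm] at H1 ⊢
  rw [show (fun ω => (D.nu ω, (yv D M D.h₀ ω, (D.out M ω, D.z ω)))) =
    fun ω => (D.nu ω, (y ω, G ω)) by rw [hG, hy]]
  rw [show (fun ω => (nv D M kap ω, (pj M (kap ω), (D.out M ω, D.z ω)))) =
    fun ω => (n ω, (kp ω, G ω)) by rw [hG, hn, hkp]]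
  rw [show (fun ω => (yv D M D.h₀ ω, (D.out M ω, D.z ω))) =
    fun ω => (y ω, G ω) by rw [hG, hy]]
  rw [← hkp, ← hy, ← hQ]
  rw [show (fun ω => (D.nu ω, (D.on M ω, (D.out M ω, D.z ω)))) =
    fun ω => (D.nu ω, (D.on M ω, G ω)) by rw [hG]] at H1
  rw [show (fun ω => (D.hF D.h₀ kap ω, (kap ω, (D.out M ω, D.z ω)))) =
    fun ω => (D.hF D.h₀ kap ω, (kap ω, G ω)) by rw [hG], CH_on D M hp0] at H2
  -- the digits of the height
  have E2 : CH D.p n (fun ω => (D.hF D.h₀ kap ω, (kap ω, G ω))) ≤ b + (4 * Q + 9) := by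
    have h1 := cnt_int hp n (fun ω => (D.hF D.h₀ kap ω, (kap ω, G ω)))
      (2 * (Q * (2 : ℝ) ^ b + 2)) (fun ω ω' _ _ hh => by
        have a1 := nv_hF hV hh' (hv ω) (hd ω) (hc ω)
        have a2 := nv_hF hV hh' (hv ω') (hd ω') (hc ω')
        have a3 : D.hF D.h₀ kap ω = D.hF D.h₀ kap ω' := (Prod.ext_iff.1 hh).1
        rw [← hQ, ← hn] at a1 a2
        rw [← a3] at a2
        push_cast at a1 a2 ⊢
        rw [abs_le] at a1 a2 ⊢
        constructor <;> linarith only [a1, a2, a1.1, a1.2, a2.1, a2.2])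
    refine h1.trans ?_
    have h2 : (1 : ℝ) ≤ 2 ^ b := Real.one_le_rpow (by norm_num) hb
    have h3 : 2 * (2 * (Q * (2 : ℝ) ^ b + 2)) + 1 ≤ 2 ^ b * (4 * Q + 9) := by nlinarith only [h2]
    refine (Real.log_le_log (by positivity) h3).trans ?_
    rw [Real.log_mul (by positivity) (by positivity), Real.log_rpow (by norm_num)]
    have h4 : b * Real.log 2 ≤ b * 1 := mul_le_mul_of_nonneg_left hl21 hb
    have h5 := Real.log_le_sub_one_of_pos (show (0 : ℝ) < 4 * Q + 9 by positivity)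
    linarith only [h4, h5]
  -- the position to all digits
  have E3 : M.card * (D.X * Real.log 2) - (θ + (b + (4 * Q + 9))) ≤
      CH D.p (av D M) (fun ω => (n ω, (kp ω, G ω))) := by
    have h1 := CH_le_add hp0 (av D M) n (fun ω => (D.hF D.h₀ kap ω, (kap ω, G ω)))
    have h2 : CH D.p (av D M) (fun ω => (n ω, (D.hF D.h₀ kap ω, (kap ω, G ω)))) ≤
        CH D.p (av D M) (fun ω => (n ω, (kp ω, G ω))) := by
      refine CH_mono_cond hp0 fun ω ω' _ _ hh => ?_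
      have a1 := Prod.ext_iff.1 hh
      have a2 := Prod.ext_iff.1 (Prod.ext_iff.1 a1.2).2
      exact Prod.ext a1.1 (Prod.ext ((kk ω ω').2 a2.1) a2.2)
    linarith only [H2, E2, h1, h2]
  have E4a := CH_le_add hp0 (av D M) y (fun ω => (n ω, (kp ω, G ω)))
  have E4b : CH D.p (av D M) (fun ω => (y ω, (n ω, (kp ω, G ω)))) ≤
      M.card * ((D.X - D.h₀ : ℕ) * Real.log 2) + M.card * Real.log 3 := by
    rw [hy]
    exact av_yv hp _
  have hXh : ((D.X - D.h₀ : ℕ) : ℝ) = D.X - D.h₀ := by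
    rw [Nat.cast_sub hh']
  refine ⟨?_, ?_, ?_⟩
  · have h1 : CH D.p kp G = CH D.p kap G := by
      refine CH_congr hp0 ?_ ?_ (fun _ _ _ _ h => h) (fun _ _ _ _ h => h)
      · intro ω ω' _ _ hh
        exact (kk ω ω').1 (Prod.ext_iff.1 hh).1
      · intro ω ω' _ _ hh
        exact (kk ω ω').2 (Prod.ext_iff.1 hh).1
    have h2 : CH D.p kap (fun ω => (D.nu ω, (D.on M ω, G ω))) ≤
        CH D.p kp (fun ω => (D.nu ω, (y ω, G ω))) := by
      refine (CH_mono_left hp0 (X' := kp) fun ω ω' _ _ hh => ?_).trans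
        (CH_mono_cond hp0 fun ω ω' _ _ hh => ?_)
      · exact (kk ω ω').1 (Prod.ext_iff.1 hh).1
      · have a1 := Prod.ext_iff.1 hh
        have a2 := Prod.ext_iff.1 a1.2
        exact Prod.ext a1.1 (Prod.ext (hya ((on_av D M).1 a2.1)) a2.2)
    linarith only [H1, h1, h2]
  · rw [hXh] at E4b
    have h1 : (M.card : ℝ) * ((D.X - D.h₀) * Real.log 2) =
        M.card * (D.X * Real.log 2) - M.card * (D.h₀ * Real.log 2) := by ring
    linarith only [E3, E4a, E4b]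
  · have b1 := CH_bayes hp0 D.nu (av D M) (fun ω => (y ω, G ω))
    have b2 : CH D.p D.nu (fun ω => (av D M ω, (y ω, G ω))) ≤
        CH D.p D.nu (fun ω => (D.V ω, D.z ω)) := by
      refine CH_mono_cond hp0 fun ω ω' _ _ hh => ?_
      have a1 := Prod.ext_iff.1 hh
      have a2 := Prod.ext_iff.1 a1.2
      obtain ⟨a3, a4⟩ := hGe a2.2
      exact Prod.ext (D.V_det_out hs a3 ((on_av D M).2 a1.1)) a4
    have b3 : CH D.p (av D M) (fun ω => (y ω, G ω)) ≤
        M.card * ((D.X - D.h₀ : ℕ) * Real.log 2) + M.card * Real.log 3 := by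
      rw [hy]
      exact av_yv hp G
    have b4 : CH D.p (av D M) (fun ω => (y ω, (n ω, (kp ω, G ω)))) ≤
        CH D.p (av D M) (fun ω => (D.nu ω, (y ω, G ω))) := by
      refine CH_mono_cond hp0 fun ω ω' _ _ hh => ?_
      have a1 := Prod.ext_iff.1 hh
      have a2 := Prod.ext_iff.1 a1.2
      have a3 := Prod.ext_iff.1 a2.2
      refine Prod.ext ?_ (Prod.ext a1.1 a3.2)
      have c1 : y ω = y ω' := a1.1
      have c2 : n ω = n ω' := a2.1
      have c3 : kp ω = kp ω' := a3.1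
      change D.nu ω = D.nu ω'
      rw [hnu ω, hnu ω', c1, c2, c3]
    have b5 : CH D.p y (fun ω => (n ω, (kp ω, G ω))) ≤
        M.card * (D.h₀ * Real.log 2) + M.card * Real.log 3 := by
      rw [hy]
      exact yv_le hV hh' hp _
    rw [hXh] at b3
    have h1 : (M.card : ℝ) * ((D.X - D.h₀) * Real.log 2) =
        M.card * (D.X * Real.log 2) - M.card * (D.h₀ * Real.log 2) := by ring
    linarith only [E3, E4a, b1, b2, b3, b4, b5]

end main

/-- **The claim from an own shape.** -/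
theorem own (m K : ℕ) (η : ℝ) (hη : 0 < η) (hη1 : η ≤ 1) :
    ∃ (σ ι C : ℝ) (h₁ : ℕ), 0 < σ ∧ σ ≤ 1 ∧ 0 < ι ∧ 1 ≤ C ∧
    ∀ (D : Dat m) (M : Finset (Fin m)) (kap : D.Ω → Pl m) (b θ : ℝ) (h : ℕ),
      IsLaw D.p → (∀ ω c, 0 ≤ D.V ω c ∧ D.V ω c < 2 ^ D.X) → D.h₀ ≤ D.X → h₁ ≤ D.h₀ →
      (∀ ω c, ∀ c' ∈ (D.s ω c).vars, c' < c) →
      0 ≤ b → b ≤ ι * D.h₀ → 0 ≤ θ → θ ≤ ι * D.h₀ → (h : ℝ) ≤ σ * D.h₀ →
      (∀ ω, (kap ω).vars ⊆ M) → (∀ ω, (kap ω).totalDegree ≤ K) →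
      (∀ ω α, |MvPolynomial.coeff α (kap ω)| ≤ (2 : ℝ) ^ b) →
      CH D.p kap (fun ω => (D.out M ω, D.z ω)) ≤
        CH D.p kap (fun ω => (D.nu ω, (D.on M ω, (D.out M ω, D.z ω)))) + θ →
      M.card * (D.X * Real.log 2) - θ ≤
        CH D.p (D.on M) (fun ω => (D.hF D.h₀ kap ω, (kap ω, (D.out M ω, D.z ω)))) →
      CH D.p D.nu (fun ω => (D.V ω, D.z ω)) ≤ (1 - η) * (D.h₀ * Real.log 2) →
      ∃ E : D.Ω → Prop, η / 8 ≤ Pb D.p E ∧
        Claim (D.pull (cond D.p E True) id) M h K (b + 1) (C * (θ + b + 1))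
          (fun ω => Fr M K h (kap ω)) := by
  classical
  -- constants
  choose σ ι C X₀ hσ hσ1 hι hC hw using fun k : ℕ => w0b k K (η / 2) (by positivity)
    (by linarith only [hη1])
  obtain ⟨C₁, hC₁, hFr⟩ := Fr_eval m K
  have hl2 : 0 < Real.log 2 := Real.log_pos (by norm_num)
  have hl2h : 1 / 2 ≤ Real.log 2 := by linarith only [hl2, Real.log_two_gt_d9]
  have hl21 : Real.log 2 ≤ 1 := by linarith only [Real.log_two_lt_d9]
  have hl3 : 0 < Real.log 3 := Real.log_pos (by norm_num)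
  obtain ⟨k1, -, hk1⟩ := Finset.exists_min_image (range (m + 1)) σ ⟨0, mem_range.2 (by omega)⟩
  obtain ⟨k2, -, hk2⟩ := Finset.exists_min_image (range (m + 1)) ι ⟨0, mem_range.2 (by omega)⟩
  obtain ⟨Cs, hCs⟩ : ∃ Cs : ℝ, Cs = ∑ k ∈ range (m + 1), C k := ⟨_, rfl⟩
  have hCsk : ∀ k ≤ m, C k ≤ Cs := fun k hk => by
    rw [hCs]
    exact Finset.single_le_sum (f := C) (fun i _ => by linarith only [hC, hC i]) (mem_range.2 (by omega))
  have hCs1 : 1 ≤ Cs := (hC 0).trans (hCsk 0 (Nat.zero_le _))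
  obtain ⟨Xs, hXs⟩ : ∃ Xs : ℕ, Xs = ∑ k ∈ range (m + 1), X₀ k := ⟨_, rfl⟩
  have hXsk : ∀ k ≤ m, X₀ k ≤ Xs := fun k hk => by
    rw [hXs]
    exact Finset.single_le_sum (f := X₀) (fun i _ => Nat.zero_le _) (mem_range.2 (by omega))
  obtain ⟨Q, hQ⟩ : ∃ Q : ℝ, Q = ∑ k ∈ range (m + 1),
    (K * (Pool.Agent.H36.KBX.bx k K).card : ℝ) := ⟨_, rfl⟩
  have hQk : ∀ k ≤ m, (K * (Pool.Agent.H36.KBX.bx k K).card : ℝ) ≤ Q := fun k hk => by
    rw [hQ]
    exact Finset.single_le_sum (f := fun k => (K * (Pool.Agent.H36.KBX.bx k K).card : ℝ))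
      (fun i _ => by positivity) (mem_range.2 (by omega))
  have hQ0 : 0 ≤ Q := by rw [hQ]; exact Finset.sum_nonneg fun _ _ => by positivity
  obtain ⟨ι', hι'⟩ : ∃ ι' : ℝ, ι' = min (ι k2) (η / 4) := ⟨_, rfl⟩
  have hι'0 : 0 < ι' := by rw [hι']; exact lt_min (hι k2) (by positivity)
  have hι'k : ∀ k ≤ m, ι' ≤ ι k := fun k hk => by
    rw [hι']
    exact (min_le_left _ _).trans (hk2 k (mem_range.2 (by omega)))
  have hι'η : ι' ≤ η / 4 := by rw [hι']; exact min_le_right _ _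
  obtain ⟨C₄, hC₄⟩ : ∃ C₄ : ℝ, C₄ = 4 * Q + 9 + 2 * (m * Real.log 3) := ⟨_, rfl⟩
  have hm3 : 0 ≤ m * Real.log 3 := by positivity
  have hC₄0 : 0 ≤ C₄ := by rw [hC₄]; positivity
  obtain ⟨C₅, hC₅⟩ : ∃ C₅ : ℝ, C₅ = 8 * (1 + (m * Real.log 3 + 1)) / η + (4 * C₁ + 5) +
    Cs * (1 + C₄ + 1) := ⟨_, rfl⟩
  have hC₅1 : 1 ≤ C₅ := by
    have h1 : 0 ≤ 8 * (1 + (m * Real.log 3 + 1)) / η := by positivity
    have h2 : 0 ≤ Cs * (1 + C₄ + 1) := by positivity
    rw [hC₅]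
    linarith only [hη1, hC₁, hι'0, hι'η, h1, h2]
  obtain ⟨hs1, hhs1⟩ := exists_nat_ge ((C₄ + 2) * (4 / ι'))
  refine ⟨σ k1, ι' / 4, C₅, max Xs hs1, hσ k1, hσ1 k1, by positivity, hC₅1, ?_⟩
  intro D M kap b θ h hp hV hhX hh₁ hs hb hbι hθ hθι hhσ hv hd hc H1 H2 H3
  have hMm : M.card ≤ m := by
    have := Finset.card_le_univ M
    rwa [Fintype.card_fin] at this
  have hMm' : (M.card : ℝ) ≤ m := by exact_mod_cast hMm
  have hM3 : M.card * Real.log 3 ≤ m * Real.log 3 := mul_le_mul_of_nonneg_right hMm' hl3.le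
  have hh0 : (0 : ℝ) ≤ D.h₀ := Nat.cast_nonneg _
  have hsize : C₄ + 2 ≤ ι' / 4 * D.h₀ := by
    have h1 : (hs1 : ℝ) ≤ D.h₀ := by exact_mod_cast (le_max_right _ _).trans hh₁
    have h2 := hhs1.trans h1
    have h3 := mul_le_mul_of_nonneg_left h2 (by positivity : 0 ≤ ι' / 4)
    have h4 : ι' / 4 * ((C₄ + 2) * (4 / ι')) = C₄ + 2 := by field_simp
    linarith only [h3, h4]
  obtain ⟨i1, i2, i3⟩ := inputs (M := M) hp hV hhX hs hb hv hd hc H1 H2
  have hQM := hQk M.card hMm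
  obtain ⟨θ₄, hθ₄⟩ : ∃ θ₄ : ℝ, θ₄ = θ + b + C₄ := ⟨_, rfl⟩
  have hθ₄0 : 0 ≤ θ₄ := by rw [hθ₄]; positivity
  have hιh : 0 ≤ ι' * D.h₀ := by positivity
  have hθ₄ι : θ₄ ≤ ι' * D.h₀ := by
    rw [hθ₄]
    linarith only [hη1, hQ0, hι'0, hι'η, hC₄, hm3, hbι, hθι, hsize]
  obtain ⟨nb, hnb⟩ : ∃ nb : ℕ, nb = ⌈b⌉₊ := ⟨_, rfl⟩
  have hnb1 : b ≤ nb := by rw [hnb]; exact Nat.le_ceil b
  have hnb2 : (nb : ℝ) ≤ b + 1 := by rw [hnb]; exact (Nat.ceil_lt_add_one hb).le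
  have hpow : (2 : ℝ) ^ b ≤ 2 ^ nb := by
    rw [← Real.rpow_natCast]
    exact Real.rpow_le_rpow_of_exponent_le (by norm_num) hnb1
  obtain ⟨E, hE, hEf⟩ := hw M.card D.Ω _ D.p D.h₀ h nb (fun ω => (D.out M ω, D.z ω))
    (yv D M D.h₀) (nv D M kap) D.nu (fun ω => pj M (kap ω)) θ₄ hp
    ((hXsk _ hMm).trans ((le_max_left _ _).trans hh₁)) hθ₄0
    (hθ₄ι.trans (mul_le_mul_of_nonneg_right (hι'k _ hMm) hh0))
    (hhσ.trans (mul_le_mul_of_nonneg_right (hk1 _ (mem_range.2 (by omega))) hh0))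
    (by
      have h1 : (nb : ℝ) ≤ ι' * D.h₀ := by linarith only [hη1, hQ0, hι'0, hι'η, hC₄, hm3, hbι, hsize, hnb2]
      exact h1.trans (mul_le_mul_of_nonneg_right (hι'k _ hMm) hh0))
    (fun ω _ i => by
      have h1 := hV ω (io M i)
      have h2 : 0 ≤ yv D M D.h₀ ω i ∧ yv D M D.h₀ ω i < 2 ^ D.h₀ := by
        unfold yv av
        constructor
        · exact Int.ediv_nonneg h1.1 (by positivity)
        · rw [Int.ediv_lt_iff_lt_mul (by positivity), ← pow_add,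
            show D.h₀ + (D.X - D.h₀) = D.X by omega]
          exact h1.2
      have h3 : (0 : ℝ) ≤ yv D M D.h₀ ω i := by exact_mod_cast h2.1
      have h4 : (yv D M D.h₀ ω i : ℝ) ≤ 2 ^ D.h₀ := by exact_mod_cast h2.2.le
      rw [abs_of_nonneg h3]
      exact h4)
    (fun ω _ => (deg_pj M _).trans (hd ω))
    (fun ω _ α _ => by
      rw [coeff_pj (hv ω)]
      exact (hc ω _).trans hpow)
    (fun ω _ => by
      have a3 := Int.floor_le ((2 : ℝ) ^ D.h₀ * MvPolynomial.eval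
        (fun i => ((yv D M D.h₀ ω i : ℤ) : ℝ) / 2 ^ D.h₀) (pj M (kap ω)))
      have a4 := Int.lt_floor_add_one ((2 : ℝ) ^ D.h₀ * MvPolynomial.eval
        (fun i => ((yv D M D.h₀ ω i : ℤ) : ℝ) / 2 ^ D.h₀) (pj M (kap ω)))
      unfold nv
      push_cast
      rw [abs_le]
      constructor <;> linarith)
    (i1.trans (by
      have : θ ≤ θ₄ := by rw [hθ₄]; linarith only [hη1, hQ0, hι'0, hι'η, hC₄, hm3, hb]
      linarith only [hη1, hQ0, hι'0, hι'η, hC₄, hm3, hb, hθ₄]))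
    (le_trans (by
      rw [hθ₄, hC₄]
      linarith only [hm3, hM3, hQM]) i2)
    (i3.trans (by
      have h1 : θ₄ ≤ η / 4 * D.h₀ := hθ₄ι.trans (mul_le_mul_of_nonneg_right hι'η hh0)
      have h2 : η / 4 * D.h₀ ≤ η / 2 * (D.h₀ * Real.log 2) := by
        have : (D.h₀ : ℝ) * (1 / 2) ≤ D.h₀ * Real.log 2 := mul_le_mul_of_nonneg_left hl2h hh0
        nlinarith only [hη, this]
      have h3 : θ + (b + (4 * (K * (Pool.Agent.H36.KBX.bx M.card K).card) + 9)) +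
          2 * (M.card * Real.log 3) ≤ θ₄ := by
        rw [hθ₄, hC₄]
        linarith only [hM3, hQM]
      have h4 : (1 - η / 2) * ((D.h₀ : ℝ) * Real.log 2) = (1 - η) * (D.h₀ * Real.log 2) +
        η / 2 * (D.h₀ * Real.log 2) := by ring
      linarith only [hC₄, H3, hM3, hQM, hθ₄, h1, h2]))
  have hE8 : η / 8 ≤ Pb D.p E := by
    have : η / 2 / 4 = η / 8 := by ring
    linarith only [hE]
  have hEp : 0 < Pb D.p E := lt_of_lt_of_le (by positivity) hE8
  refine ⟨E, hE8, ?_⟩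
  obtain ⟨q, hq⟩ : ∃ q : D.Ω → ℝ, q = cond D.p E True := ⟨_, rfl⟩
  have hqL : IsLaw q := by rw [hq]; exact isLaw_ev hp E hEp
  rw [← hq] at hEf ⊢
  refine ⟨fun ω => Fr_vars M K h _, fun ω => Fr_deg M K h _,
    fun ω α => Fr_cf hb (hv ω) (hd ω) (hc ω) α, ?_, ?_⟩
  · change CH q (fun ω => Fr M K h (kap ω)) (fun ω => (D.out M ω, D.z ω)) ≤ _
    have h1 : CH q (fun ω => Fr M K h (kap ω)) (fun ω => (D.out M ω, D.z ω)) ≤
        CH q (fun ω => rk h (pj M (kap ω))) (fun ω => (D.out M ω, D.z ω)) :=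
      CH_mono_left hqL.nonneg fun ω ω' _ _ hh => by
        have : rk h (pj M (kap ω)) = rk h (pj M (kap ω')) := (Prod.ext_iff.1 hh).1
        unfold Fr
        rw [this]
    refine h1.trans (hEf.trans ?_)
    have h2 : C M.card * (θ₄ + 1) ≤ Cs * (θ₄ + 1) :=
      mul_le_mul_of_nonneg_right (hCsk _ hMm) (by linarith only [hQ0, hC₄, hm3, hb, hθ, hθ₄])
    refine h2.trans ?_
    have h3 : Cs * (θ₄ + 1) ≤ Cs * ((1 + C₄ + 1) * (θ + b + 1)) := by
      refine mul_le_mul_of_nonneg_left ?_ (by linarith only [hCs1])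
      rw [hθ₄]
      nlinarith only [hb, hθ, hC₄0, mul_nonneg hC₄0 hθ, mul_nonneg hC₄0 hb]
    refine h3.trans ?_
    rw [← mul_assoc]
    refine mul_le_mul_of_nonneg_right ?_ (by linarith only [hb, hθ])
    rw [hC₅]
    have h4 : 0 ≤ 8 * (1 + (m * Real.log 3 + 1)) / η := by positivity
    linarith only [hC₁, h4]
  · change M.card * (D.X * Real.log 2) - _ ≤ CH q (D.on M) (fun ω =>
      (D.hF h (fun ω => Fr M K h (kap ω)) ω, (Fr M K h (kap ω), (D.out M ω, D.z ω))))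
    rw [CH_on D M hqL.nonneg]
    rw [CH_on D M hp.nonneg] at H2
    have e1 := full_ev hp (av D M) (fun ω => (D.hF D.h₀ kap ω, (kap ω, (D.out M ω, D.z ω)))) E hEp
      (N := M.card * (D.X * Real.log 2) + M.card * Real.log 3) (θ := θ + M.card * Real.log 3)
      (fun q hq _ => av_le hV hq _) (by linarith only [H2])
    rw [← hq] at e1
    have e2 : (θ + M.card * Real.log 3 + Real.log 2) / Pb D.p E ≤
        8 * (1 + (m * Real.log 3 + 1)) / η * (θ + b + 1) := by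
      rw [div_le_iff₀ hEp]
      have f1 : 0 ≤ 8 * (1 + (m * Real.log 3 + 1)) / η * (θ + b + 1) := by positivity
      have f2 := mul_le_mul_of_nonneg_left hE8 f1
      have f3 : 8 * (1 + (m * Real.log 3 + 1)) / η * (θ + b + 1) * (η / 8) =
          (1 + (m * Real.log 3 + 1)) * (θ + b + 1) := by
        field_simp
      nlinarith only [hl21, hb, hθ, hM3, f2, f3, hm3, mul_nonneg hm3 hθ, mul_nonneg hm3 hb]
    have e3 := CH_le_add hqL.nonneg (av D M) (D.hF h (fun ω => Fr M K h (kap ω)))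
      (fun ω => (D.hF D.h₀ kap ω, (kap ω, (D.out M ω, D.z ω))))
    have hhh : (h : ℝ) ≤ D.h₀ := by
      have := mul_le_mul_of_nonneg_right (hσ1 k1) hh0
      linarith only [hhσ, this]
    have hhn : h ≤ D.h₀ := by exact_mod_cast hhh
    have e4 : CH q (D.hF h (fun ω => Fr M K h (kap ω)))
        (fun ω => (D.hF D.h₀ kap ω, (kap ω, (D.out M ω, D.z ω)))) ≤ 4 * C₁ + 5 := by
      have f1 := cnt_int hqL (D.hF h (fun ω => Fr M K h (kap ω)))
        (fun ω => (D.hF D.h₀ kap ω, (kap ω, (D.out M ω, D.z ω)))) (2 * C₁ + 2)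
        (fun ω ω' _ _ hh => by
          have a1 : D.hF D.h₀ kap ω = D.hF D.h₀ kap ω' := (Prod.ext_iff.1 hh).1
          have a2 : kap ω = kap ω' := (Prod.ext_iff.1 (Prod.ext_iff.1 hh).2).1
          have hv1 : ∀ ω c, |D.v ω c| ≤ 1 := by
            intro ω c
            unfold Dat.v
            have g1 := hV ω c
            have g2 : (0 : ℝ) ≤ D.V ω c := by exact_mod_cast g1.1
            have g3 : (D.V ω c : ℝ) ≤ 2 ^ D.X := by exact_mod_cast g1.2.le
            rw [abs_of_nonneg (by positivity), div_le_one (by positivity)]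
            exact g3
          have a3 := hFr M h (kap ω) (D.v ω) (hv ω) (hd ω) (hv1 ω)
          have a4 := hFr M h (kap ω') (D.v ω') (hv ω') (hd ω') (hv1 ω')
          rw [← a2] at a4
          have a5 : |(2 : ℝ) ^ D.h₀ * (D.nr ω - MvPolynomial.eval (D.v ω) (kap ω)) -
              2 ^ D.h₀ * (D.nr ω' - MvPolynomial.eval (D.v ω') (kap ω'))| ≤ 1 := by
            unfold Dat.hF dg at a1
            have g1 := Int.floor_le
              ((2 : ℝ) ^ D.h₀ * (D.nr ω - MvPolynomial.eval (D.v ω) (kap ω)))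
            have g2 := Int.lt_floor_add_one
              ((2 : ℝ) ^ D.h₀ * (D.nr ω - MvPolynomial.eval (D.v ω) (kap ω)))
            have g3 := Int.floor_le
              ((2 : ℝ) ^ D.h₀ * (D.nr ω' - MvPolynomial.eval (D.v ω') (kap ω')))
            have g4 := Int.lt_floor_add_one
              ((2 : ℝ) ^ D.h₀ * (D.nr ω' - MvPolynomial.eval (D.v ω') (kap ω')))
            rw [← a1] at g3 g4
            rw [abs_le]
            constructor <;> linarith
          rw [← a2, ← mul_sub, abs_mul, abs_of_pos (by positivity : (0 : ℝ) < 2 ^ D.h₀)] at a5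
          have a6 : |(D.nr ω - MvPolynomial.eval (D.v ω) (kap ω)) -
              (D.nr ω' - MvPolynomial.eval (D.v ω') (kap ω))| ≤ 1 / 2 ^ h := by
            rw [le_div_iff₀ (by positivity)]
            have g1 : (2 : ℝ) ^ h ≤ 2 ^ D.h₀ := pow_le_pow_right₀ (by norm_num) hhn
            have g2 := mul_le_mul_of_nonneg_right g1 (abs_nonneg
              ((D.nr ω - MvPolynomial.eval (D.v ω) (kap ω)) -
                (D.nr ω' - MvPolynomial.eval (D.v ω') (kap ω))))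
            linarith only [a5, g2]
          have a7 : |(D.nr ω - MvPolynomial.eval (D.v ω) (Fr M K h (kap ω))) -
              (D.nr ω' - MvPolynomial.eval (D.v ω') (Fr M K h (kap ω)))| ≤
              (2 * C₁ + 1) / 2 ^ h := by
            have g1 : (2 * C₁ + 1) / (2 : ℝ) ^ h = 1 / 2 ^ h + C₁ / 2 ^ h + C₁ / 2 ^ h := by ring
            rw [g1]
            rw [abs_le] at a3 a4 a6 ⊢
            constructor <;> linarith only [a3, a4, a6, a3.1, a3.2, a4.1, a4.2, a6.1, a6.2]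
          have a8 := dg_nearO (h := h) (x := D.nr ω - MvPolynomial.eval (D.v ω) (Fr M K h (kap ω)))
            (y := D.nr ω' - MvPolynomial.eval (D.v ω') (Fr M K h (kap ω))) (r := 2 * C₁ + 1) (by
              rw [← mul_sub, abs_mul, abs_of_pos (by positivity)]
              rw [le_div_iff₀ (by positivity)] at a7
              linarith only [a7])
          unfold Dat.hF
          simp only
          rw [← a2]
          linarith only [a8])
      refine f1.trans ?_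
      have f2 := Real.log_le_sub_one_of_pos (show (0 : ℝ) < 2 * (2 * C₁ + 2) + 1 by linarith only [hC₁])
      linarith only [f2]
    have e5 : CH q (av D M) (fun ω => (D.hF h (fun ω => Fr M K h (kap ω)) ω,
        (D.hF D.h₀ kap ω, (kap ω, (D.out M ω, D.z ω))))) ≤
        CH q (av D M) (fun ω => (D.hF h (fun ω => Fr M K h (kap ω)) ω,
          (Fr M K h (kap ω), (D.out M ω, D.z ω)))) :=
      CH_mono_cond hqL.nonneg fun ω ω' _ _ hh => by
        have a1 := Prod.ext_iff.1 hh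
        have a2 := Prod.ext_iff.1 (Prod.ext_iff.1 a1.2).2
        have a3 : kap ω = kap ω' := a2.1
        refine Prod.ext a1.1 (Prod.ext ?_ a2.2)
        change Fr M K h (kap ω) = Fr M K h (kap ω')
        rw [a3]
    have e6 : 8 * (1 + (m * Real.log 3 + 1)) / η * (θ + b + 1) + (4 * C₁ + 5) ≤
        C₅ * (θ + b + 1) := by
      have f1 : C₅ * (θ + b + 1) = 8 * (1 + (m * Real.log 3 + 1)) / η * (θ + b + 1) +
          (4 * C₁ + 5) * (θ + b + 1) + Cs * (1 + C₄ + 1) * (θ + b + 1) := by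
        rw [hC₅]
        ring
      have f2 : 0 ≤ Cs * (1 + C₄ + 1) * (θ + b + 1) := by positivity
      have f3 : (4 * C₁ + 5) * 1 ≤ (4 * C₁ + 5) * (θ + b + 1) :=
        mul_le_mul_of_nonneg_left (by linarith only [hb, hθ]) (by linarith only [hC₁])
      linarith only [f1, f2, f3]
    have e7 : 0 ≤ M.card * Real.log 3 := by positivity
    linarith only [e1, e2, e3, e4, e5, e6, e7]

end Pool.TIE
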