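import Pool.Agent.H1.TIE.All
import Pool.Agent.H20.TIE.Own

/-!
# Lower precision of the height, own shapes and sub-laws

`Dat.low h`: the same data with the height of the target to `h` digits. `Pre`: the own shape over
a set of coordinates. Both are compatible with sub-laws, with the hypotheses and with the claims.
-/

set_option autoImplicit false

namespace Pool.TIE

open Finset MvPolynomial
open Pool.Agent.H49.Ent Pool.Agent.H32.Dense Pool.STK Pool.BFL Pool.MIC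

/-- Digits of digits. -/
theorem dg_low {r h : ℕ} (hr : r ≤ h) (x : ℝ) : dg r ((dg h x : ℤ) / (2 : ℝ) ^ h) = dg r x := by
  unfold dg
  have h1 : (2 : ℝ) ^ r * (((⌊(2 : ℝ) ^ h * x⌋ : ℤ) : ℝ) / 2 ^ h) =
      ((⌊(2 : ℝ) ^ h * x⌋ : ℤ) : ℝ) / ((2 ^ (h - r) : ℕ) : ℝ) := by
    have h2 : (2 : ℝ) ^ h = 2 ^ r * 2 ^ (h - r) := by rw [← pow_add]; congr 1; omega
    push_cast
    rw [h2]
    field_simp
  have h3 : (2 : ℝ) ^ r * x = (2 : ℝ) ^ h * x / ((2 ^ (h - r) : ℕ) : ℝ) := by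
    have h2 : (2 : ℝ) ^ h = 2 ^ r * 2 ^ (h - r) := by rw [← pow_add]; congr 1; omega
    push_cast
    rw [h2]
    field_simp
  rw [h1, h3, Int.floor_div_natCast, Int.floor_intCast, ← Int.floor_div_natCast]

theorem dg_err (h : ℕ) (x : ℝ) : 0 ≤ x - (dg h x : ℤ) / (2 : ℝ) ^ h ∧
    x - (dg h x : ℤ) / (2 : ℝ) ^ h ≤ 1 / 2 ^ h := by
  unfold dg
  have h0 : (0 : ℝ) < 2 ^ h := by positivity
  have h1 := Int.floor_le ((2 : ℝ) ^ h * x)
  have h2 := Int.lt_floor_add_one ((2 : ℝ) ^ h * x)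
  constructor
  · rw [sub_nonneg, div_le_iff₀ h0]
    linarith
  · rw [sub_le_iff_le_add, ← add_div, le_div_iff₀ h0]
    linarith

namespace Dat

variable {m : ℕ} (D : Dat m)

/-- The height to `h` digits. -/
noncomputable def low (h : ℕ) : Dat m where
  Ω := D.Ω
  Γ := D.Γ
  fin := D.fin
  p := D.p
  z := D.z
  V := D.V
  nu := fun ω => dg h (D.nr ω)
  s := D.s
  X := D.X
  h₀ := h

variable {D} {h : ℕ}

theorem low_nr (ω : D.Ω) : (D.low h).nr ω = (dg h (D.nr ω) : ℤ) / (2 : ℝ) ^ h := rfl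

theorem dg_nu (ω : D.Ω) : dg D.h₀ (D.nr ω) = D.nu ω := by
  unfold dg nr
  have h1 : (2 : ℝ) ^ D.h₀ * ((D.nu ω : ℝ) / 2 ^ D.h₀) = D.nu ω := by
    field_simp
  rw [h1, Int.floor_intCast]

end Dat

variable {m : ℕ} {D : Dat m} {M : Finset (Fin m)} {K h : ℕ} {b θ : ℝ}

/-- The height is not more dependent if it is less precise. -/
theorem ci_low {Ω S T U V : Type} [Fintype Ω] {p : Ω → ℝ} (hp : ∀ ω, 0 ≤ p ω) (N : Ω → S)
    (N' : Ω → T) (A : Ω → U) (W : Ω → V) (hN : Det p N N') {θ : ℝ}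
    (h : CH p N W ≤ CH p N (fun ω => (A ω, W ω)) + θ) :
    CH p N' W ≤ CH p N' (fun ω => (A ω, W ω)) + θ := by
  have e1 : ∀ {Q : Type} (Y : Ω → Q), CH p N Y = CH p N' Y + CH p N (fun ω => (N' ω, Y ω)) := by
    intro Q Y
    rw [← CH_chain hp]
    refine CH_congr hp ?_ ?_ (fun _ _ _ _ h => h) (fun _ _ _ _ h => h)
    · intro ω ω' a b hh
      have h1 : N ω = N ω' := (Prod.ext_iff.1 hh).1
      exact Prod.ext h1 (hN ω ω' a b h1)
    · intro ω ω' _ _ hh
      exact (Prod.ext_iff.1 (Prod.ext_iff.1 hh).1).1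
  have e2 := e1 W
  have e3 := e1 (fun ω => (A ω, W ω))
  have e4 : CH p N (fun ω => (N' ω, (A ω, W ω))) ≤ CH p N (fun ω => (N' ω, W ω)) :=
    CH_mono_cond hp fun ω ω' _ _ hh => by
      have h1 := Prod.ext_iff.1 hh
      exact Prod.ext h1.1 (Prod.ext_iff.1 h1.2).2
  linarith

theorem Hyp.low (H : Hyp D K b θ) (hb : 0 ≤ b) (hh : h ≤ D.h₀) : Hyp (D.low h) K (b + 1) θ := by
  have h1 : (1 : ℝ) ≤ (2 : ℝ) ^ b := Real.one_le_rpow one_le_two hb
  have h2 : (2 : ℝ) ^ (b + 1) = 2 ^ b * 2 := by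
    rw [Real.rpow_add (by norm_num), Real.rpow_one]
  refine ⟨H.isLaw, H.V_lt, ?_, H.s_deg, fun ω c α => (H.s_cf ω c α).trans ?_, H.s_vars,
    fun ω => ?_, ?_⟩
  · have := H.h_le
    change 2 * h ≤ D.X
    omega
  · rw [h2]
    linarith
  · rw [Dat.low_nr, h2]
    have e1 := H.nr_le ω
    have e2 := dg_err h (D.nr ω)
    have e3 : (1 : ℝ) / 2 ^ h ≤ 1 := by
      rw [div_le_one (by positivity)]
      exact one_le_pow₀ (by norm_num)
    rw [abs_le] at e1 ⊢
    constructor <;> linarith [e1.1, e1.2, e2.1, e2.2]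
  · refine ci_low H.isLaw.nonneg D.nu (fun ω => dg h (D.nr ω)) D.s (fun ω => (D.V ω, D.z ω)) ?_
      H.nu_s
    intro ω ω' _ _ e
    simp only [Dat.nr]
    rw [e]

theorem NFd.low {c κ π : ℝ} (H : NFd D h c κ π) : NFd (D.low h) h c κ π := by
  intro Ω' _ q f hS r r' h1 h2 h3
  have h4 := H Ω' q f hS r r' h1 h2 h3
  have e1 : ∀ ω : Ω', dg r' ((D.low h).nr (f ω)) = dg r' (D.nr (f ω)) := fun ω => by
    rw [Dat.low_nr]
    exact dg_low h2 _
  have e2 : ∀ ω : Ω', dg r ((D.low h).nr (f ω)) = dg r (D.nr (f ω)) := fun ω => by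
    rw [Dat.low_nr]
    exact dg_low (h1.trans h2) _
  simp only [e1, e2]
  exact h4

theorem FulM.low {c c' : Fin m} (H : FulM D M c c' θ) : FulM (D.low h) M c c' θ := H

/-- The heights over `F` with the full and with the lower precision. -/
theorem hF_low {F : D.Ω → Pl m} {h' : ℕ} (hh : h' ≤ h) (ω : D.Ω) :
    |(((D.low h).hF h' F ω - D.hF h' F ω : ℤ) : ℝ)| ≤ 2 := by
  have h1 : (2 : ℝ) ^ h' ≤ 2 ^ h := pow_le_pow_right₀ (by norm_num) hh
  have e2 := dg_err h (D.nr ω)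
  have key : |((dg h' ((dg h (D.nr ω) : ℤ) / (2 : ℝ) ^ h - eval (D.v ω) (F ω)) -
      dg h' (D.nr ω - eval (D.v ω) (F ω)) : ℤ) : ℝ)| ≤ 1 + 1 := by
    refine dg_nearO ?_
    rw [← mul_sub, abs_mul, abs_of_pos (by positivity)]
    have h2 : ((dg h (D.nr ω) : ℤ) : ℝ) / (2 : ℝ) ^ h - eval (D.v ω) (F ω) -
        (D.nr ω - eval (D.v ω) (F ω)) = -(D.nr ω - (dg h (D.nr ω) : ℤ) / (2 : ℝ) ^ h) := by ring
    rw [h2, abs_neg, abs_of_nonneg e2.1]
    calc (2 : ℝ) ^ h' * _ ≤ 2 ^ h' * (1 / 2 ^ h) :=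
          mul_le_mul_of_nonneg_left e2.2 (by positivity)
      _ ≤ 1 := by
          rw [mul_one_div, div_le_one (by positivity)]
          exact h1
  have h3 : (1 : ℝ) + 1 = 2 := by norm_num
  rw [h3] at key
  exact key

/-- One height in the place of a nearby one. -/
theorem swap_ht {Ω S T : Type} [Fintype Ω] {p : Ω → ℝ} (hp : IsLaw p) (A : Ω → S) (W : Ω → T)
    (n n' : Ω → ℤ) (h : ∀ ω, |((n ω - n' ω : ℤ) : ℝ)| ≤ 2) :
    CH p A (fun ω => (n ω, W ω)) ≤ CH p A (fun ω => (n' ω, W ω)) + 3 := by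
  have h1 := CH_le_add hp.nonneg A n' (fun ω => (n ω, W ω))
  have h2 : CH p A (fun ω => (n' ω, (n ω, W ω))) ≤ CH p A (fun ω => (n' ω, W ω)) :=
    CH_mono_cond hp.nonneg fun ω ω' _ _ hh => by
      have h1 := Prod.ext_iff.1 hh
      exact Prod.ext h1.1 (Prod.ext_iff.1 h1.2).2
  have h3 := cnt_int hp n' (fun ω => (n ω, W ω)) 4 (fun ω ω' _ _ hh => by
    have a1 := h ω
    have a2 := h ω'
    have a3 : n ω = n ω' := (Prod.ext_iff.1 hh).1
    rw [← a3] at a2
    push_cast at a1 a2 ⊢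
    rw [abs_le] at a1 a2 ⊢
    constructor <;> linarith [a1.1, a1.2, a2.1, a2.2])
  have h4 : Real.log (2 * 4 + 1) ≤ 3 := by
    have e1 : (2 : ℝ) * 4 + 1 = 3 ^ 2 := by norm_num
    have e2 : Real.log 3 ≤ 3 / 2 := by
      have : Real.log 3 ≤ Real.log (Real.exp (3 / 2)) :=
        Real.log_le_log (by norm_num) (by
          have := Real.add_one_le_exp (3 / 2 : ℝ)
          have h5 := Real.quadratic_le_exp_of_nonneg (show (0 : ℝ) ≤ 3 / 2 by norm_num)
          norm_num at h5 ⊢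
          linarith)
      rwa [Real.log_exp] at this
    rw [e1, Real.log_pow]
    push_cast
    linarith
  linarith

theorem Claim.low {F : D.Ω → Pl m} {h' : ℕ} (hp : IsLaw D.p) (H : Claim D M h' K b θ F)
    (hh : h' ≤ h) : Claim (D.low h) M h' K b (θ + 3) F := by
  refine ⟨H.vars, H.deg, H.cf, ?_, ?_⟩
  · have := H.few
    change CH D.p F (fun ω => (D.out M ω, D.z ω)) ≤ _
    linarith
  · have h1 := H.full
    have h2 := swap_ht hp (D.on M) (fun ω => (F ω, (D.out M ω, D.z ω))) (D.hF h' F)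
      ((D.low h).hF h' F) (fun ω => by
        have := hF_low (F := F) hh ω
        rw [abs_le] at this ⊢
        push_cast at this ⊢
        constructor <;> linarith [this.1, this.2])
    change M.card * (D.X * Real.log 2) - (θ + 3) ≤ CH D.p (D.on M) (fun ω =>
      ((D.low h).hF h' F ω, (F ω, (D.out M ω, D.z ω))))
    linarith

/-- Back to the full precision, on sub-laws. -/
theorem Claim.high {Ω' : Type} [Fintype Ω'] {q : Ω' → ℝ} {f : Ω' → D.Ω} {G : Ω' → Pl m} {h' : ℕ}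
    (hq : IsLaw q) (H : Claim ((D.low h).pull q f) M h' K b θ G) (hh : h' ≤ h) :
    Claim (D.pull q f) M h' K b (θ + 3) G := by
  refine ⟨H.vars, H.deg, H.cf, ?_, ?_⟩
  · have := H.few
    change CH q G (fun ω => (D.out M (f ω), D.z (f ω))) ≤ _
    change CH q G (fun ω => (D.out M (f ω), D.z (f ω))) ≤ _ at this
    linarith
  · have h1 := H.full
    have h2 := swap_ht hq (fun ω => D.on M (f ω)) (fun ω => (G ω, (D.out M (f ω), D.z (f ω))))
      (((D.low h).pull q f).hF h' G) ((D.pull q f).hF h' G) (fun ω => ?_)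
    · change M.card * (D.X * Real.log 2) - (θ + 3) ≤ CH q (fun ω => D.on M (f ω)) (fun ω =>
        ((D.pull q f).hF h' G ω, (G ω, (D.out M (f ω), D.z (f ω)))))
      change M.card * (D.X * Real.log 2) - θ ≤ CH q (fun ω => D.on M (f ω)) (fun ω =>
        (((D.low h).pull q f).hF h' G ω, (G ω, (D.out M (f ω), D.z (f ω))))) at h1
      linarith
    · have e1 := hF_low (D := D) (F := fun _ => G ω) hh (f ω)
      exact e1

end Pool.TIE
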