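import Pool.Agent.H41.GSD.Defs
import Pool.Agent.H20.TIE.Low

/-!
# The own leaf

`own_stmt`: `OwnStmt` of `H41/GSD/Defs`.
-/

set_option autoImplicit false

namespace Pool.TIE

open Finset MvPolynomial
open Pool.Agent.H49.Ent Pool.Agent.H32.Dense Pool.STK Pool.BFL Pool.MIC

variable {m : ℕ}

theorem coeff0_Fr (M : Finset (Fin m)) (K s : ℕ) (F : Pl m) :
    MvPolynomial.coeff 0 (Fr M K s F) = 0 := by
  unfold Fr
  have h := MvPolynomial.coeff_rename_mapDomain (R := ℝ) (io M) (io_inj M)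
    (Sp K s (rk s (pj M F))) 0
  rw [Finsupp.mapDomain_zero] at h
  rw [h, coeff_Sp']
  have h3 : ((rk s (pj M F) 0 : ℤ) : ℝ) = 0 := by
    unfold rk
    rw [if_pos rfl]
    simp
  rw [h3, zero_div, ite_self]

/-- The rounded shape is near in the coefficients. -/
theorem Fr_near {M : Finset (Fin m)} {K s : ℕ} {F : Pl m} (hF : F.vars ⊆ M)
    (hd : F.totalDegree ≤ K) (h0 : MvPolynomial.coeff 0 F = 0) (α : Fin m →₀ ℕ) :
    |MvPolynomial.coeff α (Fr M K s F) - MvPolynomial.coeff α F| ≤ 1 / 2 ^ s ∧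
      (MvPolynomial.coeff α F = 0 → MvPolynomial.coeff α (Fr M K s F) = 0) := by
  by_cases hα0 : α = 0
  · subst hα0
    rw [coeff0_Fr, h0, sub_zero, abs_zero]
    exact ⟨by positivity, fun _ => rfl⟩
  by_cases hα : ∃ β : Fin M.card →₀ ℕ, β.mapDomain (io M) = α
  · obtain ⟨β, rfl⟩ := hα
    have hβ : β ≠ 0 := fun h => hα0 (by rw [h, Finsupp.mapDomain_zero])
    have e1 : MvPolynomial.coeff (β.mapDomain (io M)) (Fr M K s F) =
        MvPolynomial.coeff β (Sp K s (rk s (pj M F))) := by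
      unfold Fr
      rw [MvPolynomial.coeff_rename_mapDomain _ (io_inj M)]
    rw [e1, ← coeff_pj hF]
    constructor
    · rw [abs_sub_comm]
      exact coeff_sub_Sp ((deg_pj M F).trans hd) β hβ
    · intro h
      rw [coeff_Sp']
      have h3 : ((rk s (pj M F) β : ℤ) : ℝ) = 0 := by
        unfold rk
        rw [if_neg hβ, h]
        simp
      rw [h3, zero_div, ite_self]
  · push Not at hα
    have e1 : MvPolynomial.coeff α (Fr M K s F) = 0 := by
      unfold Fr
      exact MvPolynomial.coeff_rename_eq_zero _ _ _ fun u hu => absurd hu (hα u)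
    have e2 : MvPolynomial.coeff α F = 0 := by
      rw [← ren_pj hF]
      exact MvPolynomial.coeff_rename_eq_zero _ _ _ fun u hu => absurd hu (hα u)
    rw [e1, e2, sub_zero, abs_zero]
    exact ⟨by positivity, fun _ => rfl⟩

/-- The height over a shape to `h` digits, exact or cut. -/
theorem hF_low' {D : Dat m} {h : ℕ} (F : D.Ω → Pl m) (ω : D.Ω) :
    |((D.hF h F ω - (D.low h).hF h F ω : ℤ) : ℝ)| ≤ 2 := by
  have := hF_low (F := F) (le_refl h) ω
  rw [abs_le] at this ⊢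
  push_cast at this ⊢
  constructor <;> linarith [this.1, this.2]

/-- **The own leaf.** -/
theorem own_stmt : Pool.GSD.OwnStmt := by
  intro m K c₀ hc₀
  obtain ⟨η, hη⟩ : ∃ η : ℝ, η = min c₀ 1 := ⟨_, rfl⟩
  have hη0 : 0 < η := by rw [hη]; exact lt_min hc₀ one_pos
  have hη1 : η ≤ 1 := by rw [hη]; exact min_le_right _ _
  have hηc : η ≤ c₀ := by rw [hη]; exact min_le_left _ _
  obtain ⟨σ, ι, C, h₁, hσ, hσ1, hι, hC, hmain⟩ := own m K η hη0 hη1
  refine ⟨σ / 2, η / 8, by positivity, by linarith, by positivity, ?_⟩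
  intro ε hε
  obtain ⟨ι', hι'⟩ : ∃ ι' : ℝ, ι' = min (ι / 2) (min ε 1 * σ / (32 * C)) := ⟨_, rfl⟩
  have hι'0 : 0 < ι' := by
    rw [hι']
    exact lt_min (by positivity) (by positivity)
  have hι'1 : ι' ≤ ι / 2 := by rw [hι']; exact min_le_left _ _
  have hι'2 : ι' * (32 * C) ≤ min ε 1 * σ := by
    have : ι' ≤ min ε 1 * σ / (32 * C) := by rw [hι']; exact min_le_right _ _
    rwa [le_div_iff₀ (by positivity)] at this
  have hε' : min ε 1 ≤ ε := min_le_left _ _
  obtain ⟨N₁, hN₁⟩ := exists_nat_ge (32 * (C * 8) / (min ε 1 * σ) + 6 / ι + 2 / σ)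
  have hm0 : 0 < min ε 1 := lt_min hε one_pos
  refine ⟨max h₁ N₁, ι', hι'0, ?_⟩
  intro D M kap h hh1 hh0 hH h3 hvars hdeg hcf0 hcf hind hful
  have hhN : (N₁ : ℝ) ≤ h := by exact_mod_cast (le_max_right _ _).trans hh1
  have hhh : h₁ ≤ h := (le_max_left _ _).trans hh1
  have hp := hH.isLaw
  have hC0 : 0 < C := by linarith
  have hb1 : 32 * (C * 8) / (min ε 1 * σ) ≤ h := by
    have : 0 ≤ 6 / ι + 2 / σ := by positivity
    linarith
  have hb2 : 6 / ι ≤ (h : ℝ) := by
    have : 0 ≤ 32 * (C * 8) / (min ε 1 * σ) + 2 / σ := by positivity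
    linarith
  have hb3 : 2 / σ ≤ (h : ℝ) := by
    have : 0 ≤ 32 * (C * 8) / (min ε 1 * σ) + 6 / ι := by positivity
    linarith
  rw [div_le_iff₀ (by positivity)] at hb1 hb2 hb3
  have hh0r : (0 : ℝ) ≤ h := Nat.cast_nonneg _
  obtain ⟨θ, hθ⟩ : ∃ θ : ℝ, θ = ι' * h + 3 := ⟨_, rfl⟩
  have hb0 : 0 ≤ ι' * h := by positivity
  obtain ⟨h', hh'⟩ : ∃ h' : ℕ, h' = ⌊σ * h⌋₊ := ⟨_, rfl⟩
  have hf1 : (h' : ℝ) ≤ σ * h := by
    rw [hh']
    exact Nat.floor_le (by positivity)
  have hf2 : σ * h < h' + 1 := by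
    rw [hh']
    exact Nat.lt_floor_add_one _
  have hf3 : h' ≤ h := by
    have : (h' : ℝ) ≤ h := hf1.trans (by nlinarith)
    exact_mod_cast this
  have hf4 : σ / 2 * h ≤ h' := by
    linarith
  have hι3 : 3 ≤ ι / 2 * h := by linarith
  have hι4 : ι' * h ≤ ι / 2 * h := mul_le_mul_of_nonneg_right hι'1 hh0r
  -- the claim over the cut height
  obtain ⟨E, hE, hcl⟩ := hmain (D.low h) M kap (ι' * h) θ h' hp hH.V_lt
    (by
      have := hH.h_le
      change h ≤ D.X
      omega)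
    hhh hH.s_vars hb0
    (by
      change ι' * h ≤ ι * h
      exact mul_le_mul_of_nonneg_right (by linarith) hh0r)
    (by rw [hθ]; positivity)
    (by
      change θ ≤ ι * h
      rw [hθ]
      linarith)
    hf1 hvars hdeg hcf
    (by
      have h5 : CH D.p kap (fun ω => (D.nu ω, (D.on M ω, (D.out M ω, D.z ω)))) ≤
          CH D.p kap (fun ω => (dg h (D.nr ω), (D.on M ω, (D.out M ω, D.z ω)))) := by
        refine CH_mono_cond hp.nonneg fun ω ω' _ _ hh => ?_
        have h6 := Prod.ext_iff.1 hh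
        refine Prod.ext ?_ h6.2
        have h7 : D.nu ω = D.nu ω' := h6.1
        have h8 : D.nr ω = D.nr ω' := by
          unfold Dat.nr
          rw [h7]
        change dg h (D.nr ω) = dg h (D.nr ω')
        rw [h8]
      change CH D.p kap (fun ω => (D.out M ω, D.z ω)) ≤
        CH D.p kap (fun ω => (dg h (D.nr ω), (D.on M ω, (D.out M ω, D.z ω)))) + θ
      rw [hθ]
      linarith)
    (by
      have h5 := swap_ht hp (D.on M) (fun ω => (kap ω, (D.out M ω, D.z ω))) (D.hF h kap)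
        ((D.low h).hF h kap) (hF_low' kap)
      change M.card * (D.X * Real.log 2) - θ ≤ CH D.p (D.on M) (fun ω =>
        ((D.low h).hF h kap ω, (kap ω, (D.out M ω, D.z ω))))
      rw [hθ]
      linarith)
    (by
      have hl2 : 0 < Real.log 2 := Real.log_pos (by norm_num)
      refine h3.trans (mul_le_mul_of_nonneg_right (by linarith) (by positivity)))
  have hE0 : 0 < Pb D.p E := lt_of_lt_of_le (by positivity) hE
  have hq : IsLaw (cond D.p E True) := isLaw_ev hp E hE0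
  have hcl' : Claim (D.pull (cond D.p E True) id) M h' K (ι' * h + 1)
      (C * (θ + ι' * h + 1) + 3) (fun ω => Fr M K h' (kap ω)) :=
    Claim.high (D := D) (h := h) hq hcl hf3
  refine ⟨E, h', fun ω => Fr M K h' (kap ω), hE, hf4, hf3, ?_, fun ω α =>
    (Fr_near (hvars ω) (hdeg ω) (hcf0 ω) α).1, fun ω α => (Fr_near (hvars ω) (hdeg ω) (hcf0 ω) α).2⟩
  have e1 : min ε 1 * σ * h ≤ 2 * (ε * h') := by
    have h8 : min ε 1 * (σ * h) ≤ ε * (2 * h') := by
      refine mul_le_mul hε' (by linarith) (by positivity) hε.le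
    linarith
  have e2 : ι' * h * (32 * C) ≤ 2 * (ε * h') := by
    have h8 := mul_le_mul_of_nonneg_right hι'2 hh0r
    linarith
  have e3 : ι' * h ≤ ι' * h * C := le_mul_of_one_le_right hb0 hC
  have e4 : 32 * (C * 8) ≤ 2 * (ε * h') := by linarith
  refine hcl'.mono hq.nonneg le_rfl le_rfl ?_ ?_
  · linarith
  · rw [hθ]
    have e5 : C * (ι' * h + 3 + ι' * h + 1) + 3 = 2 * (ι' * h * C) + 4 * C + 3 := by ring
    rw [e5]
    linarith

end Pool.TIE
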