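import Pool.Agent.H20.TIE.Match
import Pool.Agent.H20.TIE.OwnS

/-!
# STEP V from two own leaves, with matching

`pre_match`: the conclusion of `pre_all` together with the claims of the two own leaves and the
matching of the shape with the own shapes, at a precision fixed before the errors.
-/

set_option autoImplicit false

namespace Pool.TIE

open Finset MvPolynomial
open Pool.Agent.H49.Ent Pool.Agent.H32.Dense Pool.STK Pool.BFL Pool.MIC

variable {m : ℕ}

/-- Support of a conditioned law. -/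
theorem cond_supp {Ω : Type} [Fintype Ω] {p : Ω → ℝ} {E : Ω → Prop} {ω : Ω}
    (h : 0 < cond p E True ω) : E ω := by
  classical
  by_contra h1
  have : cond p E True ω = 0 := by
    unfold Pool.Agent.H49.Ent.cond
    rw [if_neg (by simpa using h1)]
  rw [this] at h
  exact lt_irrefl _ h

/-- The rounded shape is near in the nonconstant coefficients. -/
theorem Fr_nearC {M : Finset (Fin m)} {K s : ℕ} {F : Pl m} (hF : F.vars ⊆ M)
    (hd : F.totalDegree ≤ K) {α : Fin m →₀ ℕ} (hα0 : α ≠ 0) :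
    |coeff α (Fr M K s F) - coeff α F| ≤ 1 / 2 ^ s := by
  by_cases hα : ∃ β : Fin M.card →₀ ℕ, β.mapDomain (io M) = α
  · obtain ⟨β, rfl⟩ := hα
    have hβ : β ≠ 0 := fun h => hα0 (by rw [h, Finsupp.mapDomain_zero])
    have e1 : MvPolynomial.coeff (β.mapDomain (io M)) (Fr M K s F) =
        MvPolynomial.coeff β (Sp K s (Pool.MIC.rk s (pj M F))) := by
      unfold Fr
      rw [MvPolynomial.coeff_rename_mapDomain _ (io_inj M)]
    rw [e1, ← coeff_pj hF, abs_sub_comm]
    exact coeff_sub_Sp ((deg_pj M F).trans hd) β hβ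
  · push Not at hα
    have e1 : MvPolynomial.coeff α (Fr M K s F) = 0 := by
      unfold Fr
      exact MvPolynomial.coeff_rename_eq_zero _ _ _ fun u hu => absurd hu (hα u)
    have e2 : MvPolynomial.coeff α F = 0 := by
      rw [← ren_pj hF]
      exact MvPolynomial.coeff_rename_eq_zero _ _ _ fun u hu => absurd hu (hα u)
    rw [e1, e2, sub_zero, abs_zero]
    positivity

/-- **The shape `G` of the data `D` matches the own leaves** `kap₁`, `kap₂` over `M₁`, `M₂`: its
restrictions to the composite sheets are the own shapes, and its gradient at the own point is every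
vector which restricts to the own gradients. -/
def Mat (D : Dat m) (M₁ M₂ : Finset (Fin m)) (s : ℕ) (B : ℝ) (G kap₁ kap₂ : D.Ω → Pl m)
    (ω : D.Ω) : Prop :=
  D.mtd M₁ s G kap₁ ω ∧ D.mtd M₂ s G kap₂ ω ∧
    ∀ (p : Fin m → ℝ) (ρ : ℝ), 0 ≤ ρ →
      (∀ c ∈ M₁, |(∑ l, D.slp M₁ ω c l * p l) - eval (D.v ω) (pderiv c (kap₁ ω))| ≤ ρ) →
      (∀ c ∈ M₂, |(∑ l, D.slp M₂ ω c l * p l) - eval (D.v ω) (pderiv c (kap₂ ω))| ≤ ρ) →
      ∀ c, |eval (D.v ω) (pderiv c (G ω)) - p c| ≤ (2 : ℝ) ^ B * (1 / 2 ^ s + ρ)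

/-- **Two own leaves and STEP V, with matching.** -/
theorem pre_match (H : AllS) (m K : ℕ) (c₀ : ℝ) (hc₀ : 0 < c₀) :
    ∃ (K' : ℕ) (σ C : ℝ), 0 < σ ∧ σ ≤ 1 ∧ 1 ≤ C ∧ ∀ ε : ℝ, 0 < ε →
    ∃ (h₁ : ℕ) (κ' κ π c₁ ι : ℝ), 0 < κ' ∧ κ' ≤ 1 ∧ 0 < κ ∧ 0 < π ∧ 0 < c₁ ∧ 0 < ι ∧
    ∀ (D : Dat m) (sd : Fin m → Bool) (rk : Fin m → ℕ) (kap₁ kap₂ : D.Ω → Pl m), h₁ ≤ D.h₀ →
      (∀ c c', rk c = rk c' → sd c = sd c' → c = c') →
      Hyp D K (ι * D.h₀) (ι * D.h₀) → NFd D D.h₀ c₀ κ π →
      (∀ i j, ∀ c c', sd c = true → sd c' = false → rk c = i → rk c' = j →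
        FulM D (univ.filter fun a => (sd a = true ∧ rk a ≤ i) ∨ (sd a = false ∧ rk a ≤ j)) c c'
          (ι * D.h₀)) →
      Pre D (univ.filter fun a => sd a = true) K (ι * D.h₀) (ι * D.h₀) kap₁ →
      Pre D (univ.filter fun a => sd a = false) K (ι * D.h₀) (ι * D.h₀) kap₂ →
      ∃ (Ω' : Type) (_ : Fintype Ω') (q : Ω' → ℝ) (f : Ω' → D.Ω) (h h' : ℕ) (G : Ω' → Pl m),
        SubL D.p c₁ q f ∧ κ' * D.h₀ ≤ h' ∧ h' ≤ h ∧ h ≤ D.h₀ ∧
        Claim (D.pull q f) univ h' K' (ε * h') (ε * h') G ∧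
        Claim (D.pull q f) (univ.filter fun a => sd a = true) h' K' (ε * h') (ε * h')
          (fun ω => Fr (univ.filter fun a => sd a = true) K h (kap₁ (f ω))) ∧
        Claim (D.pull q f) (univ.filter fun a => sd a = false) h' K' (ε * h') (ε * h')
          (fun ω => Fr (univ.filter fun a => sd a = false) K h (kap₂ (f ω))) ∧
        ∀ ω, 0 < q ω → Mat (D.pull q f) (univ.filter fun a => sd a = true)
          (univ.filter fun a => sd a = false) ⌊σ * h'⌋₊ (C * (ε * h' + 1)) G
          (fun ω => kap₁ (f ω)) (fun ω => kap₂ (f ω)) ω := by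
  obtain ⟨K₁, hall⟩ := H m K c₀ hc₀
  obtain ⟨σ₀, ι₁, C₀, c, π₁, h₁, hσ₀, hσ₀1, hι₁, hC₀, hc, hπ₁, htwo⟩ := two m K c₀ hc₀
  obtain ⟨Cs, hCs, hsub⟩ := sub_stmt m K c hc
  obtain ⟨K', hK'⟩ : ∃ K' : ℕ, K' = max K K₁ := ⟨_, rfl⟩
  have hKK : K ≤ K' := by rw [hK']; exact le_max_left _ _
  have hK1K : K₁ ≤ K' := by rw [hK']; exact le_max_right _ _
  obtain ⟨σm, ιm, cm, πm, hm, hσm, hσm1, hιm, hcm, hπm, hmat⟩ := match_ev m K' c₀ hc₀
  obtain ⟨Cg, hCg, hgr⟩ := grad_match m K'
  obtain ⟨Cm, hCm, hsubm⟩ := sub_stmt m K' cm hcm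
  refine ⟨K', σm / 2, Cg, by positivity, by linarith only [hσm1], hCg, fun ε hε => ?_⟩
  -- the error before the matching
  obtain ⟨ε', hε'⟩ : ∃ ε' : ℝ, ε' = min (min ιm (ε / (2 * Cm))) (1 / (4 * Cg)) := ⟨_, rfl⟩
  have hε'0 : 0 < ε' := by
    rw [hε']
    exact lt_min (lt_min hιm (by positivity)) (by positivity)
  have hε'a : ε' ≤ ιm := by rw [hε']; exact (min_le_left _ _).trans (min_le_left _ _)
  have hε'b : ε' * (2 * Cm) ≤ ε := by
    have : ε' ≤ ε / (2 * Cm) := by rw [hε']; exact (min_le_left _ _).trans (min_le_right _ _)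
    rwa [le_div_iff₀ (by positivity)] at this
  have hε'c : ε' * (4 * Cg) ≤ 1 := by
    have : ε' ≤ 1 / (4 * Cg) := by rw [hε']; exact min_le_right _ _
    rwa [le_div_iff₀ (by positivity)] at this
  have hε'd : ε' ≤ ε := by
    have : ε' * 2 ≤ ε' * (2 * Cm) := mul_le_mul_of_nonneg_left (by linarith only [hCm]) hε'0.le
    linarith only [hε'0, hε'b, this]
  obtain ⟨h₂, κ₂', κ₂, π₂, c₂, ι₂, hκ₂', hκ₂'1, hκ₂, hπ₂, hc₂, hι₂, hmain⟩ := hall (ε' / 2)
    (by positivity)
  obtain ⟨C₂, hC₂, hsub₂⟩ := sub_stmt m K c₂ hc₂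
  obtain ⟨C₃, hC₃, hsub₃⟩ := sub_stmt m K (c * c₂) (by positivity)
  -- constants
  exact by
   obtain ⟨B, hB⟩ : ∃ B : ℝ, B = 3 * C₀ + 2 * Cs + 1 := ⟨_, rfl⟩
   have hB1 : 1 ≤ B := by rw [hB]; linarith only [hC₀, hCs]
   have hB3 : 3 * C₀ ≤ B := by rw [hB]; linarith only [hCs]
   obtain ⟨A, hA⟩ : ∃ A : ℝ, A = C₂ * (B * 1 + 1) + C₃ + 1 := ⟨_, rfl⟩
   have hA1 : 1 ≤ A := by
     rw [hA]
     have : 0 ≤ C₂ * (B * 1 + 1) := by positivity
     linarith only [hC₃, this]
   obtain ⟨ι, hι⟩ : ∃ ι : ℝ, ι = min (min ι₁ (ι₂ * σ₀ / (8 * B)))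
     (ε' * (κ₂' * (σ₀ / 2)) / (4 * (A * B))) := ⟨_, rfl⟩
   have hAB : 0 < A * B := by positivity
   have hι0 : 0 < ι := by rw [hι]; exact lt_min (lt_min hι₁ (by positivity)) (by positivity)
   have hιa : ι ≤ ι₁ := by rw [hι]; exact (min_le_left _ _).trans (min_le_left _ _)
   have hιb : ι * (8 * B) ≤ ι₂ * σ₀ := by
     have : ι ≤ ι₂ * σ₀ / (8 * B) := by rw [hι]; exact (min_le_left _ _).trans (min_le_right _ _)
     rwa [le_div_iff₀ (by positivity)] at this
   have hιc : ι * (4 * (A * B)) ≤ ε' * (κ₂' * (σ₀ / 2)) := by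
     have : ι ≤ ε' * (κ₂' * (σ₀ / 2)) / (4 * (A * B)) := by rw [hι]; exact min_le_right _ _
     rwa [le_div_iff₀ (by positivity)] at this
   obtain ⟨N, hN⟩ := exists_nat_ge (2 * (h₂ + 1) / σ₀ + 8 * (B + 3) / (ι₂ * σ₀) + 2 / σ₀ +
     12 / (ε' * κ₂' * σ₀) + (hm + 2 / σm + 2 * (Cm + 1) / ε + 4 * (A * B) / ε' + 4 * Cg) /
       (κ₂' * (σ₀ / 2)))
   refine ⟨max h₁ N, κ₂' * (σ₀ / 2), min (κ₂' * (σ₀ / 2)) (κ₂ * (σ₀ / 2)),
     min (min π₁ (min 1 (π₂ * c))) (πm * (c * c₂)), c * c₂ * cm, ι,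
     by positivity, ?_, lt_min (by positivity) (by positivity),
     lt_min (lt_min hπ₁ (lt_min one_pos (by positivity))) (by positivity), by positivity, hι0, ?_⟩
   · exact mul_le_one₀ hκ₂'1 (by positivity) (by linarith only [hσ₀1])
   intro D sd rk kap₁ kap₂ hh₁ hrk hH hNF hFul hP₁ hP₂
   have hx0 : (0 : ℝ) ≤ D.h₀ := Nat.cast_nonneg _
   have hx1 : (N : ℝ) ≤ D.h₀ := by exact_mod_cast (le_max_right _ _).trans hh₁
   exact by
    have hx2 : h₁ ≤ D.h₀ := (le_max_left _ _).trans hh₁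
    have p1 : 0 ≤ 2 * ((h₂ : ℝ) + 1) / σ₀ := by positivity
    have p2 : 0 ≤ 8 * (B + 3) / (ι₂ * σ₀) := by positivity
    have p3 : 0 ≤ 2 / σ₀ := by positivity
    have p4 : 0 ≤ 12 / (ε' * κ₂' * σ₀) := by positivity
    have p5 : 0 ≤ ((hm : ℝ) + 2 / σm + 2 * (Cm + 1) / ε + 4 * (A * B) / ε' + 4 * Cg) /
        (κ₂' * (σ₀ / 2)) := by positivity
    have g1 : 2 * ((h₂ : ℝ) + 1) / σ₀ ≤ D.h₀ := by linarith only [hN, hx1, p2, p3, p4, p5]
    have g2 : 8 * (B + 3) / (ι₂ * σ₀) ≤ D.h₀ := by linarith only [hN, hx1, p1, p3, p4, p5]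
    have g3 : 2 / σ₀ ≤ D.h₀ := by linarith only [hN, hx1, p1, p2, p4, p5]
    have g4 : 12 / (ε' * κ₂' * σ₀) ≤ D.h₀ := by linarith only [hN, hx1, p1, p2, p3, p5]
    have g5 : ((hm : ℝ) + 2 / σm + 2 * (Cm + 1) / ε + 4 * (A * B) / ε' + 4 * Cg) /
        (κ₂' * (σ₀ / 2)) ≤ D.h₀ := by linarith only [hN, hx1, p1, p2, p3, p4]
    rw [div_le_iff₀ (by positivity)] at g1 g2 g3 g4 g5
    obtain ⟨h, hh⟩ : ∃ h : ℕ, h = ⌊σ₀ * D.h₀⌋₊ := ⟨_, rfl⟩
    have hf1 : (h : ℝ) ≤ σ₀ * D.h₀ := by
      rw [hh]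
      exact Nat.floor_le (by positivity)
    have hf2 : σ₀ * D.h₀ < h + 1 := by
      rw [hh]
      exact Nat.lt_floor_add_one _
    have hf3 : h ≤ D.h₀ := by
      have : (h : ℝ) ≤ D.h₀ := hf1.trans (mul_le_of_le_one_left hx0 hσ₀1)
      exact_mod_cast this
    have hf4 : σ₀ / 2 * D.h₀ ≤ h := by linarith only [g1, hf2]
    have hh₂ : h₂ ≤ h := by
      have : (h₂ : ℝ) ≤ h := by linarith only [g1, hf2]
      exact_mod_cast this
    obtain ⟨β, hβ⟩ : ∃ β : ℝ, β = ι * D.h₀ := ⟨_, rfl⟩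
    have hβ0 : 0 ≤ β := by rw [hβ]; positivity
    exact by
     have hβ1 : β ≤ ι₁ * D.h₀ := by
       rw [hβ]
       exact mul_le_mul_of_nonneg_right hιa hx0
     rw [← hβ] at hH hFul hP₁ hP₂
     have hβ2 : β * (8 * B) ≤ ι₂ * (2 * h) := by
       rw [hβ]
       have e1 : ι * D.h₀ * (8 * B) = ι * (8 * B) * D.h₀ := by ring
       have e2 : ι₂ * σ₀ * D.h₀ = ι₂ * (2 * (σ₀ / 2 * D.h₀)) := by ring
       rw [e1]
       refine (mul_le_mul_of_nonneg_right hιb hx0).trans ?_
       rw [e2]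
       exact mul_le_mul_of_nonneg_left (by linarith only [g1, hf2]) hι₂.le
     have hβ3 : 8 * (B + 3) ≤ ι₂ * (2 * h) := by
       refine g2.trans ?_
       have e2 : D.h₀ * (ι₂ * σ₀) = ι₂ * (2 * (σ₀ / 2 * D.h₀)) := by ring
       rw [e2]
       exact mul_le_mul_of_nonneg_left (by linarith only [g1, hf2]) hι₂.le
     have hβB : β ≤ β * B := le_mul_of_one_le_right hβ0 hB1
     have hβa : β + 1 ≤ ι₂ * h := by
       have : (0 : ℝ) ≤ β * B := by positivity
       linarith only [hC₀, hCs, hB, hβ2, hβ3, hβB]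
     have hβb : Cs * (β + 1) ≤ ι₂ * h := by
       have e1 : 2 * Cs * β ≤ B * β := mul_le_mul_of_nonneg_right (by rw [hB]; linarith only [hC₀]) hβ0
       have e2 : 2 * Cs ≤ B := by rw [hB]; linarith only [hC₀]
       linarith only [hC₀, hCs, hB, hβ2, hβ3, e1]
     have hβc : C₀ * (β + β + 1) + 3 ≤ ι₂ * h := by
       have e1 : 3 * C₀ * β ≤ B * β := mul_le_mul_of_nonneg_right hB3 hβ0
       have e3 : 0 ≤ C₀ * β := by positivity
       linarith only [hC₀, hCs, hB, hβ2, hβ3, e1]
     -- the two claims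
     exact by
      have hπa : min (min π₁ (min 1 (π₂ * c))) (πm * (c * c₂)) ≤ π₁ :=
        (min_le_left _ _).trans (min_le_left _ _)
      have hπb : min (min π₁ (min 1 (π₂ * c))) (πm * (c * c₂)) ≤ π₂ * c :=
        (min_le_left _ _).trans ((min_le_right _ _).trans (min_le_right _ _))
      have hπc : min (min π₁ (min 1 (π₂ * c))) (πm * (c * c₂)) ≤ πm * (c * c₂) := min_le_right _ _
      obtain ⟨κ, hκ⟩ : ∃ κ : ℝ, κ = min (κ₂' * (σ₀ / 2)) (κ₂ * (σ₀ / 2)) := ⟨_, rfl⟩
      rw [← hκ] at hNF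
      have hκ1 : κ ≤ 1 := by
        rw [hκ]
        exact (min_le_left _ _).trans (mul_le_one₀ hκ₂'1 (by positivity) (by linarith only [hσ₀1]))
      have hκa : κ * D.h₀ ≤ κ₂ * h := by
        have e1 : κ * D.h₀ ≤ κ₂ * (σ₀ / 2) * D.h₀ := by
          rw [hκ]
          exact mul_le_mul_of_nonneg_right (min_le_right _ _) hx0
        have e2 : κ₂ * (σ₀ / 2 * D.h₀) ≤ κ₂ * h := mul_le_mul_of_nonneg_left hf4 hκ₂.le
        linarith only [e1, e2]
      have hκb : κ * D.h₀ ≤ κ₂' * (σ₀ / 2) * D.h₀ := by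
        rw [hκ]
        exact mul_le_mul_of_nonneg_right (min_le_left _ _) hx0
      obtain ⟨q, hS, hc1, hc2⟩ := htwo D _ _ kap₁ kap₂ β β κ h hx2 hβ0 hβ1 hβ0 hβ1
        hf1 hκ1 hH (hNF.mono le_rfl le_rfl hπa) hP₁ hP₂
      have hNF' : NFd D h c₀ κ₂ (π₂ * c) := hNF.mono hf3 hκa hπb
      obtain ⟨hH₂, hN₂, hF₂, -⟩ := hsub D D.Ω q id β β hβ0 hH hS
      have hN₂' := hN₂ h c₀ κ₂ (π₂ * c) (by positivity) hNF'
      rw [mul_div_cancel_right₀ _ hc.ne'] at hN₂'
      have hq := hS.isLaw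
      obtain ⟨Ω', inst, q', f', h', G, hS', hl1, hl2, hcl⟩ := hmain ((D.pull q id).low h) sd rk _ _ hh₂
        hrk ((hH₂.low hβ0 hf3).mono le_rfl hβa hβb) hN₂'.low
        (fun i j a a' h1 h2 h3 h4 => (hF₂ _ a a' (hFul i j a a' h1 h2 h3 h4)).mono hβb)
        ((hc1.low hq le_rfl).mono hq.nonneg le_rfl le_rfl hβa hβc)
        ((hc2.low hq le_rfl).mono hq.nonneg le_rfl le_rfl hβa hβc)
      exact by
       have hcl' : Claim ((D.pull q id).pull q' f') univ h' K₁ (ε' / 2 * h') (ε' / 2 * h' + 3) G :=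
         Claim.high (D := D.pull q id) (h := h) hS'.isLaw hcl hl2
       have hl1' : κ₂' * (h : ℝ) ≤ h' := hl1
       have hl2' : h' ≤ h := hl2
       have hy0 : (0 : ℝ) ≤ h' := Nat.cast_nonneg _
       have r1 : κ₂' * (σ₀ / 2) * D.h₀ ≤ h' := by
         have e1 : κ₂' * (σ₀ / 2 * D.h₀) ≤ κ₂' * h := mul_le_mul_of_nonneg_left hf4 hκ₂'.le
         linarith only [hl1', e1]
       have r2 : ε' * (κ₂' * (σ₀ / 2) * D.h₀) ≤ ε' * h' := mul_le_mul_of_nonneg_left r1 hε'0.le
       have r3 : (0 : ℝ) ≤ ε' * h' := by positivity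
       have r4 : D.h₀ * (ε' * κ₂' * σ₀) = 2 * (ε' * (κ₂' * (σ₀ / 2) * D.h₀)) := by ring
       rw [r4] at g4
       -- the size of `h'`
       have r5 : (hm : ℝ) + 2 / σm + 2 * (Cm + 1) / ε + 4 * (A * B) / ε' + 4 * Cg ≤ h' := by
         refine g5.trans (le_trans (le_of_eq ?_) r1)
         ring
       have p6 : 0 ≤ 2 / σm := by positivity
       have p7 : 0 ≤ 2 * (Cm + 1) / ε := by positivity
       have p8 : 0 ≤ 4 * (A * B) / ε' := by positivity
       have p9 : (0 : ℝ) ≤ hm := Nat.cast_nonneg _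
       have s1 : hm ≤ h' := by
         have : (hm : ℝ) ≤ h' := by linarith only [hCg, g5, r1, p6, p7, p8]
         exact_mod_cast this
       have s2 : 2 / σm ≤ h' := by linarith only [hCg, g5, r1, p7, p8]
       have s3 : 2 * (Cm + 1) / ε ≤ h' := by linarith only [hCg, g5, r1, p6, p8]
       have s4 : 4 * (A * B) / ε' ≤ h' := by linarith only [hCg, g5, r1, p6, p7]
       have s5 : 4 * Cg ≤ h' := by linarith only [g5, r1, p6, p7, p8]
       rw [div_le_iff₀ (by positivity)] at s2 s3 s4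
       -- the errors of the own claims
       have t0 : β * (4 * (A * B)) ≤ ε' * h' := by
         have e1 : β * (4 * (A * B)) = ι * (4 * (A * B)) * D.h₀ := by rw [hβ]; ring
         rw [e1]
         refine (mul_le_mul_of_nonneg_right hιc hx0).trans ?_
         have e2 : ε' * (κ₂' * (σ₀ / 2)) * D.h₀ = ε' * (κ₂' * (σ₀ / 2) * D.h₀) := by ring
         rw [e2]
         exact r2
       exact by
        have t1 : A * (B * (β + 1) + 1) ≤ ε' * h' := by
          have e1 : A ≤ A * B := le_mul_of_one_le_right (by linarith only [hA1]) hB1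
          have e2 : A * (B * (β + 1) + 1) = β * (A * B) + A * B + A := by ring
          have e3 : 0 ≤ β * (A * B) := by positivity
          rw [e2]
          linarith only [g4, r2, s4, t0, e1]
        obtain ⟨hH₃, hN₃, -, -⟩ := hsub₃ D Ω' q' (fun ω => id (f' ω)) β β hβ0 hH (hS.trans hc.le hS')
        have hSS := hS.trans hc.le hS'
        have hN₃' : NFd (D.pull q' fun ω => id (f' ω)) h' c₀ 1 πm := by
          have e0 : NFd D h' c₀ 1 (πm * (c * c₂)) := hNF.mono (hl2'.trans hf3) (by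
            rw [one_mul]
            exact hκb.trans r1) hπc
          have e1 := hN₃ h' c₀ 1 (πm * (c * c₂)) (by positivity) e0
          rwa [mul_div_cancel_right₀ _ (by positivity)] at e1
        have hθ₀ : 0 ≤ C₀ * (β + β + 1) := by positivity
        have u1 : C₀ * (β + β + 1) ≤ B * (β + 1) := by
          have : C₀ * (β + β + 1) ≤ C₀ * (3 * (β + 1)) :=
            mul_le_mul_of_nonneg_left (by linarith only [hβ0]) (by linarith only [hC₀])
          have e2 : 3 * C₀ * (β + 1) ≤ B * (β + 1) := mul_le_mul_of_nonneg_right hB3 (by linarith only [hβ0])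
          linarith only [hC₀, hCs, hB, hβ0, hβB, e2]
        have u2 : Cs * (β + 1) ≤ B * (β + 1) :=
          mul_le_mul_of_nonneg_right (by rw [hB]; linarith only [hC₀, hCs]) (by linarith only [hβ0])
        have hBβ : 0 ≤ B * (β + 1) := by positivity
        obtain ⟨-, -, -, hCl₂⟩ := hsub₂ (D.pull q id) Ω' q' f' (β + 1) (B * (β + 1)) hBβ
          (hH₂.mono le_rfl (by linarith only) u2) hS'
        have v1 : C₂ * (B * (β + 1) + 1) ≤ ε' * h' := by
          refine le_trans ?_ t1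
          refine mul_le_mul_of_nonneg_right ?_ (by linarith only [hC₀, hCs, hB, hβ0, hβB])
          rw [hA]
          have : C₂ * 1 ≤ C₂ * (B * 1 + 1) := mul_le_mul_of_nonneg_left (by linarith only [hC₀, hCs, hB]) (by linarith only [hC₂])
          linarith only [hC₃, this]
        exact by
         have v2 : β + 1 ≤ ε' * h' := by
           refine le_trans ?_ t1
           have e1 : β + 1 ≤ B * (β + 1) := le_mul_of_one_le_left (by linarith only [hβ0]) hB1
           have e2 : B * (β + 1) + 1 ≤ A * (B * (β + 1) + 1) := le_mul_of_one_le_left (by linarith only [hC₀, hCs, hB, hβ0, hβB]) hA1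
           linarith only [hC₀, hCs, hB, hβB, e2]
         have v3 : C₃ * (β + 1) ≤ ε' * h' := by
           refine le_trans ?_ t1
           have e1 : C₃ * (β + 1) ≤ A * (β + 1) := by
             refine mul_le_mul_of_nonneg_right ?_ (by linarith only [hβ0])
             rw [hA]
             have : 0 ≤ C₂ * (B * 1 + 1) := by positivity
             linarith only [this]
           refine e1.trans (mul_le_mul_of_nonneg_left ?_ (by linarith only [hA1]))
           have : β + 1 ≤ B * (β + 1) := le_mul_of_one_le_left (by linarith only [hβ0]) hB1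
           linarith only [hC₀, hCs, hB, hβB]
         -- the three claims before the matching
         obtain ⟨D', hD'⟩ : ∃ D' : Dat m, D' = D.pull q' fun ω => id (f' ω) := ⟨_, rfl⟩
         have k0 : Claim (D.pull q' fun ω => id (f' ω)) univ h' K' (ε' * h') (ε' * h') G := by
           refine Claim.mono (D := D.pull q' fun ω => id (f' ω)) hSS.isLaw.nonneg hcl' le_rfl hK1K ?_ ?_
           · linarith only [g4, r2]
           · linarith only [g4, r2]
         have k1 : Claim (D.pull q' fun ω => id (f' ω)) (univ.filter fun a => sd a = true) h' K'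
             (ε' * h') (ε' * h') (fun ω => Fr (univ.filter fun a => sd a = true) K h
               (kap₁ (id (f' ω)))) := by
           refine Claim.mono (D := D.pull q' fun ω => id (f' ω)) hSS.isLaw.nonneg
             (hCl₂ _ h _ (hc1.mono hq.nonneg le_rfl le_rfl le_rfl u1)) hl2' hKK v2 v1
         have k2 : Claim (D.pull q' fun ω => id (f' ω)) (univ.filter fun a => sd a = false) h' K'
             (ε' * h') (ε' * h') (fun ω => Fr (univ.filter fun a => sd a = false) K h
               (kap₂ (id (f' ω)))) := by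
           refine Claim.mono (D := D.pull q' fun ω => id (f' ω)) hSS.isLaw.nonneg
             (hCl₂ _ h _ (hc2.mono hq.nonneg le_rfl le_rfl le_rfl u1)) hl2' hKK v2 v1
         exact by
          have kH : Hyp (D.pull q' fun ω => id (f' ω)) K' (ε' * h') (ε' * h') :=
            hH₃.mono hKK (by linarith only [v2]) v3
          clear hD' D'
          -- the matching
          obtain ⟨s, hs⟩ : ∃ s : ℕ, s = ⌊σm / 2 * h'⌋₊ := ⟨_, rfl⟩
          have hs1 : (s : ℝ) ≤ σm / 2 * h' := by
            rw [hs]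
            exact Nat.floor_le (by positivity)
          have hs2 : ((s + 1 : ℕ) : ℝ) ≤ σm * h' := by
            push_cast
            linarith only [s2, hs1]
          have hs3 : s + 1 ≤ h' := by
            have : ((s + 1 : ℕ) : ℝ) ≤ h' := hs2.trans (mul_le_of_le_one_left hy0 hσm1)
            exact_mod_cast this
          have hιmh : ε' * h' ≤ ιm * h' := mul_le_mul_of_nonneg_right hε'a hy0
          obtain ⟨E, hE, hEm⟩ := hmat (D.pull q' fun ω => id (f' ω)) univ
            (univ.filter fun a => sd a = true) (univ.filter fun a => sd a = false) G _ _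
            (ε' * h') (ε' * h') 1 h' (s + 1) (Finset.subset_univ _) (Finset.subset_univ _) s1
            (hl2'.trans hf3) r3 hιmh r3 hιmh hs2 le_rfl kH hN₃' k0 k1 k2
          obtain ⟨q'', hq''⟩ : ∃ q'' : Ω' → ℝ, q'' = cond q' E True := ⟨_, rfl⟩
          have hS'' : SubL q' cm q'' id := by
            rw [hq'']
            exact subL_ev hS'.isLaw E hcm hE
          obtain ⟨-, -, -, hClm⟩ := hsubm (D.pull q' fun ω => id (f' ω)) Ω' q'' id (ε' * h') (ε' * h') r3
            kH hS''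
          have w1 : Cm * (ε' * h' + 1) ≤ ε * h' := by
            have e1 : ε' * (2 * Cm) * h' ≤ ε * h' := mul_le_mul_of_nonneg_right hε'b hy0
            have e2 : Cm * (ε' * h') = ε' * (2 * Cm) * h' / 2 := by ring
            have e3 : Cm * (ε' * h' + 1) = Cm * (ε' * h') + Cm := by ring
            linarith only [s3, e1]
          exact by
           have w2 : ε' * h' ≤ ε * h' := mul_le_mul_of_nonneg_right hε'd hy0
           have hqq := hS''.isLaw.nonneg
           refine ⟨Ω', inst, q'', fun ω => id (f' (id ω)), h, h', G, hSS.trans (by positivity) hS'', r1,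
             hl2', hf3,
             Claim.mono (D := D.pull q'' fun ω => id (f' (id ω))) hqq (hClm _ h' _ k0) le_rfl le_rfl w2 w1,
             Claim.mono (D := D.pull q'' fun ω => id (f' (id ω))) hqq (hClm _ h' _ k1) le_rfl le_rfl w2 w1,
             Claim.mono (D := D.pull q'' fun ω => id (f' (id ω))) hqq (hClm _ h' _ k2) le_rfl le_rfl w2 w1,
             fun ω hω => ?_⟩
           rw [← hs]
           rw [hq''] at hω
           obtain ⟨m1, m2⟩ := hEm ω (cond_supp hω)
           -- from the rounded shapes to the shapes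
           have fr : ∀ (M : Finset (Fin m)) (kap : D.Ω → Pl m), Pre D M K β β kap →
               (D.pull q' fun ω => id (f' ω)).mtd M (s + 1) G (fun ω => Fr M K h (kap (id (f' ω)))) ω →
               (D.pull q' fun ω => id (f' ω)).mtd M s G (fun ω => kap (id (f' ω))) ω := by
             intro M kap hP hM α hα
             have e1 := hM α hα
             have e2 : |coeff α (Fr M K h (kap (id (f' ω)))) - coeff α (kap (id (f' ω)))| ≤
                 1 / 2 ^ h := Fr_nearC (hP.vars _) (hP.deg _) hα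
             have e5 : (1 : ℝ) / 2 ^ h ≤ 1 / 2 ^ (s + 1) :=
               one_div_le_one_div_of_le (by positivity) (pow_le_pow_right₀ one_le_two
                 (hs3.trans hl2'))
             have e6 : (1 : ℝ) / 2 ^ (s + 1) + 1 / 2 ^ (s + 1) = 1 / 2 ^ s := by
               rw [pow_succ]
               field_simp
               norm_num
             rw [← e6]
             rw [abs_le] at e1 e2 ⊢
             constructor <;> linarith only [e1, e2, e5, e1.1, e1.2, e2.1, e2.2]
           have n1 := fr _ kap₁ hP₁ m1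
           exact by
            have n2 := fr _ kap₂ hP₂ m2
            refine ⟨n1, n2, fun p ρ hρ o1 o2 c => ?_⟩
            have hX' : Cg * (ε' * h' + 1) ≤ D.X := by
              have e1 : ε' * (4 * Cg) * h' ≤ 1 * h' := mul_le_mul_of_nonneg_right hε'c hy0
              have e2 : Cg * (ε' * h' + 1) = ε' * (4 * Cg) * h' / 4 + Cg := by ring
              have e3 : (h' : ℝ) ≤ D.X := by
                have := hH.h_le
                have : h' ≤ D.X := by
                  have := hl2'.trans hf3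
                  omega
                exact_mod_cast this
              rw [e2]
              linarith only [hCg, g5, r1, p6, p7, p8, e1, e3]
            have hsX : s ≤ D.X := by
              have := hH.h_le
              have := hl2'.trans hf3
              omega
            have fin := hgr (D.pull q' fun ω => id (f' ω)) (univ.filter fun a => sd a = true)
              (univ.filter fun a => sd a = false) G (fun ω => kap₁ (id (f' ω))) (fun ω => kap₂ (id (f' ω)))
              (ε' * h') (ε' * h') ρ s (by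
                ext x
                simp only [mem_union, mem_filter, mem_univ, true_and, iff_true]
                cases sd x <;> simp) r3 hρ kH hX' hsX k0.deg k0.cf
              (fun ω => (hP₁.deg _).trans hKK) (fun ω => (hP₂.deg _).trans hKK) ω p n1 n2 o1 o2 c
            refine fin.trans (mul_le_mul_of_nonneg_right ?_ (by positivity))
            exact Real.rpow_le_rpow_of_exponent_le (by norm_num)
              (mul_le_mul_of_nonneg_left (by linarith only [w2]) (by linarith only [hCg]))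

end Pool.TIE
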