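import Pool.Agent.H20.TIE.Nfs
import Pool.Agent.H20.TIE.CutF
import Pool.Agent.H20.TIE.DmW
import Pool.Agent.H24.GSD.ClsS

/-!
# STEP V with matching in a cell

`gds_all`: from the nested cuts of a cell (`ClsStmt`) to the shapes of the target on the whole base,
matched with the own shapes.
-/

set_option autoImplicit false

namespace Pool.GSD.Cls

open Finset Real MvPolynomial
open Pool.Agent.H49.Ent Pool.Agent.H32.Dense Pool.STK Pool.STAT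
open Pool.BFL (Pb Pl)
open Pool.TIE
open Pool.GSD.Row

/-- The law on the good event. -/
noncomputable def qG (D : NDat2) (n z a₀ B M : ℕ) (q : D.Ω → ℝ) : D.Ω → ℝ :=
  cond q (GA D n z a₀ B 1 M) True

/-- The coordinates which are wide on the right side. -/
def mR (n : ℕ) (a : ℕ → ℕ) : Finset (Fin (n - 1)) := univ.filter fun c => a n < a (c + 1)

/-- The coordinates which are wide on the left side. -/
def mL (n : ℕ) (a : ℕ → ℕ) : Finset (Fin (n - 1)) := univ.filter fun c => a (c + 1) < a n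

/-- **The output of STEP V with matching** at `(i, j)`. -/
structure Vg (D : NDat2) (n z N v : ℕ) (x : ℕ → ℤ) (a : ℕ → ℕ) (l u i j bb h₀ K K' : ℕ)
    (q : D.Ω → ℝ) (σ C ε : ℝ) (h h' : ℕ) {Ω' : Type} [Fintype Ω'] (q' : Ω' → ℝ) (f : Ω' → D.Ω)
    (G : Ω' → Pl (n - 1)) : Prop where
  cl : Claim ((cD D n z v x a l i j bb h₀ q).pull q' f) univ h' K' (ε * h') (ε * h') G
  clR : Claim ((cD D n z v x a l i j bb h₀ q).pull q' f) (mR n a) h' K' (ε * h') (ε * h')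
    (fun w => Fr (mR n a) K h (kR D n z v x a l u i j bb (f w)))
  clL : Claim ((cD D n z v x a l i j bb h₀ q).pull q' f) (mL n a) h' K' (ε * h') (ε * h')
    (fun w => Fr (mL n a) K h (kL D n z v x a l u i j bb (f w)))
  mat : ∀ w, 0 < q' w → Mat ((cD D n z v x a l i j bb h₀ q).pull q' f) (mR n a) (mL n a)
    ⌊σ * h'⌋₊ (C * (ε * h' + 1)) G (fun w => kR D n z v x a l u i j bb (f w))
    (fun w => kL D n z v x a l u i j bb (f w)) w

/-- `2 ^ (l - u) = 2 ^ l / 2 ^ u`. -/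
theorem two_sub {l u : ℕ} (h : u ≤ l) : (2 : ℝ) ^ l = 2 ^ u * 2 ^ (l - u) := by
  rw [← pow_add]
  congr 1
  omega

/-- **STEP V with matching in a cell.** -/
theorem gds_all (HC : ClsStmt) (n K B' : ℕ) (lam gam : ℕ → ℝ) (C₁ h : ℝ) (hn : 1 ≤ n)
    (hB' : 1 ≤ B') (hC₁ : 1 ≤ C₁) (hlam : ∀ l, 1 ≤ lam l) (hgam : ∀ l, 0 ≤ gam l)
    (hgn : 0 < gam n) (hno : ∀ l, 1 ≤ l → l < n → gam l * lam n ≠ gam n * lam l) (hh : 0 < h)
    (hh1 : h ≤ 1) :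
    ∃ (K' : ℕ) (σ C Λ : ℝ), 0 < σ ∧ σ ≤ 1 ∧ 1 ≤ C ∧ (∀ l, 1 ≤ l → l ≤ n → lam l ≤ Λ) ∧
    ∀ ε : ℝ, 0 < ε → ∃ (c₁ : ℝ) (u u' N v Wd : ℕ) (x : ℕ → ℤ) (a : ℕ → ℕ) (B : ℕ), 0 < c₁ ∧
      Dirs n lam gam (2 ^ u + 2 * Λ + 8) N v x a ∧ (∀ k ≤ N, |x k| ≤ Wd) ∧ v ≤ Wd ∧ 2 ≤ u' ∧
      u' ≤ u ∧ ∀ (m₀ b₀ : ℕ) (Rf : ℕ → ℕ) (η : ℝ), 0 < η →
    ∃ (N₀ M : ℕ) (κ₀ ϖ : ℝ) (z₀ : ℕ), 0 < κ₀ ∧ 0 < ϖ ∧
    ∀ (J a₀ w₀ z : ℕ) (κ κ' : ℝ) (D : NDat2) (q : D.Ω → ℝ), z₀ ≤ z → κ ≤ κ₀ → κ' ≤ κ₀ →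
      D.Ok2 n K J a₀ w₀ z M lam gam κ C₁ q → D.NF n z M B' gam h C₁ ϖ q → D.TmU J w₀ z κ' q →
      Pb q (fun ω => ¬ GA D n z a₀ B 1 M ω) ≤ η ∧
      ∃ (l i j bb h h' : ℕ), u + 1 ≤ l ∧ m₀ ≤ 2 ^ (l - u) ∧ 2 ^ l ≤ N₀ ∧
        (Rf N₀ + Wd) * 2 ^ l ≤ i ∧ i + (Rf N₀ + Wd) * 2 ^ l ≤ M ∧ (Rf N₀ + Wd) * 2 ^ l ≤ j ∧
        j + (Rf N₀ + Wd) * 2 ^ l ≤ M ∧ b₀ * z ≤ bb ∧ (bb : ℝ) + 1 ≤ ε * h' ∧ m₀ * z ≤ h' ∧
        h' ≤ h ∧ h ≤ 2 ^ (l - u') * z ∧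
      ∃ (Ω' : Type) (_ : Fintype Ω') (q' : Ω' → ℝ) (f : Ω' → D.Ω) (G : Ω' → Pl (n - 1)),
        SubL q c₁ q' f ∧ (∀ w, 0 < q' w → 0 < q (f w) ∧ GA D n z a₀ B 1 M (f w)) ∧
        Vg D n z N v x a l u i j bb (2 ^ (l - u') * z) (dK n K) K' (qG D n z a₀ B M q) σ C ε h h'
          q' f G := by
  obtain ⟨K', σ, C, hσ, hσ1, hC, hcm⟩ := cuts_match_thm (n - 1) (dK n K) (h / 2) (by positivity)
  obtain ⟨C₀, hC₀, hcls⟩ := HC n K lam gam C₁ hn hC₁ hlam hgam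
  -- the bound for the slopes
  obtain ⟨Λ, hΛ, hΛ1⟩ : ∃ Λ : ℝ, (∀ l, 1 ≤ l → l ≤ n → lam l ≤ Λ) ∧ 1 ≤ Λ := by
    refine ⟨∑ l ∈ Icc 1 n, lam l, fun l l1 l2 => ?_, ?_⟩
    · exact Finset.single_le_sum (f := lam) (fun k _ => by linarith [hlam k])
        (Finset.mem_Icc.2 ⟨l1, l2⟩)
    · exact (hlam 1).trans (Finset.single_le_sum (f := lam) (fun k _ => by linarith [hlam k])
        (Finset.mem_Icc.2 ⟨le_rfl, hn⟩))
  refine ⟨K', σ, C, Λ, hσ, hσ1, hC, hΛ, ?_⟩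
  intro ε hε
  obtain ⟨h₁, κm, κr, πr, c₁, ι, hκm, hκm1, hκr, hπr, hc₁, hι, hcut⟩ := hcm ε hε
  -- the depth of the base
  obtain ⟨u', hu', hu'2⟩ : ∃ u' : ℕ, 4 * B' ≤ 2 ^ u' ∧ 2 ≤ u' := by
    refine ⟨4 * B', (Nat.lt_two_pow_self).le, by omega⟩
  obtain ⟨u, huu, hu⟩ : ∃ u : ℕ, u' ≤ u ∧ 4 * C₀ * (1 + Λ) * 2 ^ u' ≤ ι * 2 ^ u := by
    obtain ⟨k, hk⟩ := pow_unbounded_of_one_lt (4 * C₀ * (1 + Λ) * 2 ^ u' / ι) (one_lt_two)
    refine ⟨max u' k, le_max_left _ _, ?_⟩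
    have h1 : 4 * C₀ * (1 + Λ) * 2 ^ u' / ι ≤ 2 ^ max u' k :=
      hk.le.trans (pow_le_pow_right₀ one_le_two (le_max_right _ _))
    rw [div_le_iff₀ hι] at h1
    linarith
  obtain ⟨N, v, x, a, hdirs⟩ := Pool.GSD.dirs n lam gam (2 ^ u + 2 * Λ + 8) hn hlam hno
  obtain ⟨Wd, hWd, hvW⟩ : ∃ Wd : ℕ, (∀ k ≤ N, |x k| ≤ Wd) ∧ v ≤ Wd := by
    refine ⟨(∑ k ∈ range (N + 1), (x k).natAbs) + v, fun k hk => ?_, Nat.le_add_left _ _⟩
    have h1 : (x k).natAbs ≤ ∑ k ∈ range (N + 1), (x k).natAbs :=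
      Finset.single_le_sum (f := fun k => (x k).natAbs) (fun _ _ => Nat.zero_le _)
        (Finset.mem_range.2 (by omega))
    rw [Int.abs_eq_natAbs]
    exact_mod_cast h1.trans (Nat.le_add_right _ _)
  obtain ⟨Cc, B, E, hCc, hcl⟩ := hcls Λ u N v Wd x a hΛ hdirs hWd hvW
  refine ⟨c₁ / 2, u, u', N, v, Wd, x, a, B, by positivity, hdirs, hWd, hvW, hu'2, huu, ?_⟩
  intro R b₀ Rf η hη
  -- the rows
  obtain ⟨H₀, z₁, ϖ, hϖ, hnfd⟩ := nfd_vis n B' C₁ h κr πr (1 / 2) hn hB' hh hh1 hκr hπr (by norm_num)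
  obtain ⟨b, hb1, hb2⟩ : ∃ b : ℕ, Cc ≤ b ∧ b₀ ≤ b :=
    ⟨max ⌈Cc⌉₊ b₀, (Nat.le_ceil Cc).trans (by exact_mod_cast le_max_left _ _), le_max_right _ _⟩
  obtain ⟨εd, hεd⟩ : ∃ εd : ℝ, εd = ι / (4 * 2 ^ u') := ⟨_, rfl⟩
  have hεd0 : 0 < εd := by rw [hεd]; positivity
  obtain ⟨η₁, hη₁, hη₁0, hη₁1, hη₁2⟩ : ∃ η₁ : ℝ, η₁ ≤ η ∧ 0 < η₁ ∧ η₁ ≤ 1 / 2 ∧
      Cc * η₁ ≤ εd := by
    refine ⟨min (min η (1 / 2)) (εd / Cc), (min_le_left _ _).trans (min_le_left _ _), ?_,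
      (min_le_left _ _).trans (min_le_right _ _), ?_⟩
    · exact lt_min (lt_min hη (by norm_num)) (by positivity)
    · have h1 : Cc * min (min η (1 / 2)) (εd / Cc) ≤ Cc * (εd / Cc) :=
        mul_le_mul_of_nonneg_left (min_le_right _ _) (by linarith)
      refine h1.trans (le_of_eq ?_)
      field_simp
  -- the number of scales
  obtain ⟨Q, hQ⟩ : ∃ Q : ℕ, Cc + R + (b + 1) / ι + (b + 1) / (ε * κm) + 4 * Cc / ι + h₁ + H₀ +
      R / κm + B' + b + 1 / ι ≤ Q := exists_nat_ge _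
  have q1 : 0 ≤ Cc := by linarith
  have q2 : (0 : ℝ) ≤ R := Nat.cast_nonneg _
  have q3 : 0 ≤ ((b : ℝ) + 1) / ι := by positivity
  have q4 : 0 ≤ ((b : ℝ) + 1) / (ε * κm) := by positivity
  have q5 : 0 ≤ 4 * Cc / ι := by positivity
  have q6 : (0 : ℝ) ≤ h₁ := Nat.cast_nonneg _
  have q7 : (0 : ℝ) ≤ H₀ := Nat.cast_nonneg _
  have q8 : (0 : ℝ) ≤ R / κm := by positivity
  have q9 : (0 : ℝ) ≤ B' := Nat.cast_nonneg _
  have q10 : (0 : ℝ) ≤ b := Nat.cast_nonneg _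
  have q11 : 0 ≤ 1 / ι := by positivity
  obtain ⟨m₂, hdm⟩ := Pool.GSD.dm_fewW ((range (N + 1)).image fun k => dk x v k)
    (u + 1 + Q)
    Cc εd hεd0
  obtain ⟨N₀, hN₀⟩ : ∃ N₀ : ℕ, N₀ = 2 ^ (u + 1 + Q + m₂) := ⟨_, rfl⟩
  obtain ⟨W, hW, hW2, hW0⟩ : ∃ W : ℕ, Rf N₀ + Wd ≤ W ∧ 2 ≤ gam n * W ∧ 1 ≤ W := by
    obtain ⟨k, hk⟩ := exists_nat_ge (2 / gam n)
    refine ⟨Rf N₀ + Wd + (k + 1), Nat.le_add_right _ _, ?_, by omega⟩
    rw [div_le_iff₀ hgn] at hk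
    push_cast
    have : 0 ≤ gam n * ((Rf N₀ : ℝ) + Wd + 1) := by positivity
    linarith
  obtain ⟨M', hdm⟩ := hdm W
  obtain ⟨κ₀, z₂, hκ₀, hin⟩ := hcl (M' + E) M' η₁ hη₁0 hη₁1 le_rfl
  refine ⟨N₀, M' + E, κ₀, ϖ, max (max z₁ z₂) 1, hκ₀, hϖ, ?_⟩
  intro J a₀ w₀ z κ κ' D q hz hκ hκ' hO hN hT
  have hz1 : 1 ≤ z := (le_max_right _ _).trans hz
  have hzR : (1 : ℝ) ≤ z := by exact_mod_cast hz1
  obtain ⟨hPb, hfew, hmain⟩ := hin J a₀ w₀ z κ κ' D q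
    ((le_max_right _ _).trans ((le_max_left _ _).trans hz)) hκ hκ' hO hT
  refine ⟨hPb.trans hη₁, ?_⟩
  have hPG : 1 / 2 ≤ Pb q (GA D n z a₀ B 1 (M' + E)) := by
    have := Pool.MIC.Pb_not hO.isLaw.sum_one (GA D n z a₀ B 1 (M' + E))
    linarith
  obtain ⟨qg, hqg⟩ : ∃ qg : D.Ω → ℝ, qg = qG D n z a₀ B (M' + E) q := ⟨_, rfl⟩
  have hqL : IsLaw qg := by
    rw [hqg]
    exact Pool.MIC.isLaw_ev hO.isLaw _ (by linarith)
  have hqe : cond q (GA D n z a₀ B 1 (M' + E)) True = qg := hqg.symm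
  rw [hqe] at hfew hmain
  rw [← hqg]
  obtain ⟨l, i, j, hl1, hl2, hi1, hi2, hj1, hj2, hmi⟩ := hdm D.Ω (D.S × D.S) ℕ qg D.T (rc D) z
    hqL.nonneg (by
      intro d hd p p1 p2 p3 p4 p5 p6 p7 p8
      obtain ⟨k, hk, rfl⟩ := Finset.mem_image.1 hd
      refine hfew p _ ?_ ?_ p1 p2 p3 p4 p5 p6 p7 p8
      · show |-x k| ≤ Wd
        rw [abs_neg]
        exact hWd k (by have := Finset.mem_range.1 hk; omega)
      · show |(v : ℤ)| ≤ Wd
        rw [abs_of_nonneg (Int.natCast_nonneg v)]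
        exact_mod_cast hvW)
  have hul : u ≤ l := by omega
  have hu'l : u' ≤ l := by omega
  obtain ⟨t, ht⟩ : ∃ t : ℝ, t = 2 ^ (l - u) := ⟨_, rfl⟩
  have hQt : (Q : ℝ) ≤ t := by
    have h1 : Q ≤ 2 ^ (l - u) := (Nat.lt_two_pow_self).le.trans
      (Nat.pow_le_pow_right (by norm_num) (by omega))
    rw [ht]
    exact_mod_cast h1
  obtain ⟨t', ht'⟩ : ∃ t' : ℝ, t' = 2 ^ (l - u') := ⟨_, rfl⟩
  have htt' : t ≤ t' := by
    rw [ht, ht']
    exact pow_le_pow_right₀ one_le_two (by omega)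
  have hlt : (2 : ℝ) ^ l = 2 ^ u * t := by rw [ht]; exact two_sub hul
  have hlt' : (2 : ℝ) ^ l = 2 ^ u' * t' := by rw [ht']; exact two_sub hu'l
  have ht0 : 0 < t := by rw [ht]; positivity
  have ht'0 : 0 < t' := by rw [ht']; positivity
  have hz0 : (0 : ℝ) < z := by linarith
  have ht1 : Q ≤ t' := hQt.trans htt'
  -- the numbers
  have n1 : (b : ℝ) + 1 ≤ ι * t' := by
    have h1 : ((b : ℝ) + 1) / ι ≤ t' := by linarith
    rw [div_le_iff₀ hι] at h1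
    linarith
  have n2 : (b : ℝ) + 1 ≤ ε * (κm * t') := by
    have h1 : ((b : ℝ) + 1) / (ε * κm) ≤ t' := by linarith
    rw [div_le_iff₀ (by positivity)] at h1
    linarith
  have n3 : 4 * Cc ≤ ι * t' := by
    have h1 : 4 * Cc / ι ≤ t' := by linarith
    rw [div_le_iff₀ hι] at h1
    linarith
  have n4 : (R : ℝ) ≤ κm * t' := by
    have h1 : (R : ℝ) / κm ≤ t' := by linarith
    rw [div_le_iff₀ hκm] at h1
    linarith
  have n5 : 1 ≤ ι * t' := by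
    have h1 : 1 / ι ≤ t' := by linarith
    rw [div_le_iff₀ hι] at h1
    linarith
  have n6 : Cc ≤ t := by linarith
  have n7 : R ≤ 2 ^ (l - u) := by
    have h1 : (R : ℝ) ≤ t := by linarith
    rw [ht] at h1
    exact_mod_cast h1
  have n8 : B' ≤ 2 ^ (l - u') := by
    have h1 : (B' : ℝ) ≤ t' := by linarith
    rw [ht'] at h1
    exact_mod_cast h1
  have n9 : H₀ ≤ 2 ^ (l - u') := by
    have h1 : (H₀ : ℝ) ≤ t' := by linarith
    rw [ht'] at h1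
    exact_mod_cast h1
  have n10 : h₁ ≤ 2 ^ (l - u') := by
    have h1 : (h₁ : ℝ) ≤ t' := by linarith
    rw [ht'] at h1
    exact_mod_cast h1
  have n11 : b ≤ 2 ^ (l - u') := by
    have h1 : (b : ℝ) ≤ t' := by linarith
    rw [ht'] at h1
    exact_mod_cast h1
  have n12 : 2 * 2 ^ (l - u') ≤ 2 ^ (l - 1) := by
    rw [← pow_succ']
    exact Nat.pow_le_pow_right (by norm_num) (by omega)
  have n13 : 4 * B' * 2 ^ (l - u') ≤ 2 ^ l := by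
    have h1 : 2 ^ l = 2 ^ u' * 2 ^ (l - u') := by
      rw [← pow_add]
      congr 1
      omega
    rw [h1]
    exact Nat.mul_le_mul_right _ hu'
  have n14 : 2 ^ l = 2 * 2 ^ (l - 1) := by
    rw [← pow_succ']
    congr 1
    omega
  obtain ⟨T', hT'⟩ : ∃ T' : ℕ, T' = 2 ^ (l - u') := ⟨_, rfl⟩
  obtain ⟨L', hL'⟩ : ∃ L' : ℕ, L' = 2 ^ (l - 1) := ⟨_, rfl⟩
  have hT'1 : 1 ≤ T' := by rw [hT']; exact Nat.one_le_two_pow
  rw [← hT'] at n8 n9 n10 n11 n12 n13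
  rw [← hL'] at n12 n14
  have ht'T : t' = T' := by rw [ht', hT']; push_cast; rfl
  have hW1 : Wd * 2 ^ l ≤ W * 2 ^ l := Nat.mul_le_mul_right _ (by omega)
  have hW3 : (Rf N₀ + Wd) * 2 ^ l ≤ W * 2 ^ l := Nat.mul_le_mul_right _ hW
  -- the cuts
  have hout := hmain l i j (T' * z) (b * z) (2 ^ l * (εd * z)) (by omega) (by rw [← ht]; exact n6)
    (hW1.trans hi1) (by omega) (hW1.trans hj1) (by omega)
    (Nat.mul_le_mul_right z (by rw [← hL']; omega))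
    (by push_cast; exact mul_le_mul_of_nonneg_right hb1 hz0.le)
    (Nat.mul_le_mul_right z (by rw [n14]; omega))
    (fun k hk => hmi _ (Finset.mem_image.2 ⟨k, Finset.mem_range.2 (by omega), rfl⟩))
  obtain ⟨e, he⟩ : ∃ e : ℝ, e = 2 ^ l * (εd * z) + Cc * z + C₀ * (1 + Λ) * (2 ^ (l - u) * z) +
      Cc * η₁ * (2 ^ l * z) := ⟨_, rfl⟩
  rw [← he] at hout
  have e1 : e ≤ ι * ((T' * z : ℕ) : ℝ) := by
    rw [he, ← ht, hlt', ht'T]
    rw [ht'T] at n3 hlt'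
    push_cast
    have k1 : (2 : ℝ) ^ u' * εd = ι / 4 := by rw [hεd]; field_simp
    have k2 : (2 : ℝ) ^ u' * T' * (εd * z) = ι / 4 * (T' * z) := by
      rw [← k1]; ring
    have k3 : Cc * z ≤ ι / 4 * (T' * z) := by
      have := mul_le_mul_of_nonneg_right n3 hz0.le
      linarith
    have k4 : C₀ * (1 + Λ) * (t * z) ≤ ι / 4 * (T' * z) := by
      have k5 : (2 : ℝ) ^ u * t = 2 ^ u' * T' := by rw [← hlt, hlt']
      have k6 := mul_le_mul_of_nonneg_right hu (show 0 ≤ t * z by positivity)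
      have k7 : 4 * C₀ * (1 + Λ) * 2 ^ u' * (t * z) = 2 ^ u' * (4 * (C₀ * (1 + Λ) * (t * z))) := by
        ring
      have k8 : ι * 2 ^ u * (t * z) = 2 ^ u' * (ι * (T' * z)) := by
        calc ι * 2 ^ u * (t * z) = ι * (2 ^ u * t) * z := by ring
          _ = 2 ^ u' * (ι * (T' * z)) := by rw [k5]; ring
      rw [k7, k8] at k6
      have k9 := le_of_mul_le_mul_left k6 (by positivity : (0 : ℝ) < 2 ^ u')
      linarith
    have k10 : Cc * η₁ * (2 ^ u' * T' * z) ≤ ι / 4 * (T' * z) := by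
      have k11 := mul_le_mul_of_nonneg_right hη₁2 (show 0 ≤ (2 : ℝ) ^ u' * T' * z by positivity)
      have k12 : εd * (2 ^ u' * T' * z) = ι / 4 * (T' * z) := by rw [← k1]; ring
      linarith
    linarith
  have hiM : i ≤ M' + E := by omega
  have hjM : j ≤ M' + E := by omega
  have hTz : T' * z / z = T' := Nat.mul_div_cancel _ (by omega)
  have hl2' : T' + 1 ≤ 2 ^ l := by omega
  have hl3' : 2 ^ l ≤ W * 2 ^ l := Nat.le_mul_of_pos_left _ hW0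
  have hsub : SubL q (1 / 2) (fun w : Sp qg => qg w.1) (fun w : Sp qg => w.1) := by
    have s1 := Pool.TIE.subL_ev hO.isLaw (GA D n z a₀ B 1 (M' + E)) (c := 1 / 2) (by norm_num) hPG
    rw [hqe] at s1
    have s2 := Pool.TIE.subL_inj hqL (W := Sp qg) (fun w => w.1) Subtype.val_injective
      (fun ω hω => ⟨⟨ω, hω⟩, rfl⟩)
    have s3 := s1.trans (by norm_num) s2
    rw [mul_one] at s3
    exact s3
  have hnf : NFd (cD1 D n z v x a l i j (b * z) (T' * z) qg) (T' * z) (h / 2) κr πr := by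
    refine hnfd D z (M' + E) gam q hO.isLaw hN ((le_max_left _ _).trans ((le_max_left _ _).trans hz))
      i j (T' * z) (cX z l) (fun ω hω k k1 k2 => Pool.MicA.zs_le hO hiM hjM hω k1 k2.le)
      (by rw [hTz]; omega) hjM ?_ (Nat.mul_le_mul_right z n9) ?_ _ ?_ (Sp qg) _ _ hsub qg _
    · rw [hTz]
      have h1 : (W : ℝ) * 2 ^ l ≤ ((M' + E : ℕ) : ℝ) - j := by
        have h2 : j + W * 2 ^ l ≤ M' + E := by omega
        have h3 : ((j + W * 2 ^ l : ℕ) : ℝ) ≤ ((M' + E : ℕ) : ℝ) := by exact_mod_cast h2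
        push_cast at h3 ⊢
        linarith
      have h2 := mul_le_mul_of_nonneg_left h1 hgn.le
      have h3 := mul_le_mul_of_nonneg_right hW2 (show (0 : ℝ) ≤ 2 ^ l by positivity)
      have h4 : ((T' : ℝ) + 1) ≤ 2 ^ l := by exact_mod_cast hl2'
      have h5 : (0 : ℝ) ≤ 2 ^ l := by positivity
      linarith
    · unfold cX
      rw [← hL']
      have h1 : B' * (T' * z + z) ≤ (L' + 1) * z := by
        have h2 : B' * (T' * z + z) = (B' * T' + B') * z := by ring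
        rw [h2]
        refine Nat.mul_le_mul_right z ?_
        have h3 : 4 * (B' * T') ≤ 2 ^ l := by rw [← mul_assoc]; exact n13
        have h4 : B' ≤ B' * T' := Nat.le_mul_of_pos_right _ hT'1
        omega
      omega
    · intro ω ω' _ _ e
      have h1 := Prod.ext_iff.1 e
      have h2 := Prod.ext_iff.1 h1.1
      exact Prod.ext h2.1 h1.2
  have hle : ∀ {m : ℕ}, ((m : ℝ)) ≤ ι * ((T' * z : ℕ) : ℝ) →
      (2 : ℝ) ^ m ≤ (2 : ℝ) ^ (ι * ((T' * z : ℕ) : ℝ)) := by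
    intro m hm
    rw [← Real.rpow_natCast]
    exact Real.rpow_le_rpow_of_exponent_le (by norm_num) hm
  have hbz : ((b * z + 1 : ℕ) : ℝ) ≤ ι * ((T' * z : ℕ) : ℝ) := by
    rw [ht'T] at n1
    push_cast
    have := mul_le_mul_of_nonneg_right n1 hz0.le
    linarith
  have h1z : ((1 : ℕ) : ℝ) ≤ ι * ((T' * z : ℕ) : ℝ) := by
    rw [ht'T] at n5
    push_cast
    have := mul_le_mul_of_nonneg_right n5 hz0.le
    linarith
  -- the cuts and matching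
  obtain ⟨Ω', fin', q', f', g, g', G, c2, c3, c4, c5, c6, c7, c8, c9⟩ := hcut
    (cD1 D n z v x a l i j (b * z) (T' * z) qg) N (fun k w => AA D N v x l u i j k w.1)
    (fun k w => BB D N v x l u i j k w.1) (fun c => a (c + 1)) (a n) e
    (fun w => kR D n z v x a l u i j (b * z) w.1) (fun w => kL D n z v x a l u i j (b * z) w.1)
    (n10.trans (Nat.le_mul_of_pos_right _ (by omega)))
    (by
      show 2 * (T' * z) ≤ cX z l
      unfold cX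
      rw [← hL']
      have h1 : 2 * (T' * z) = 2 * T' * z := by ring
      have h2 : 2 * T' * z ≤ (L' + 1) * z := Nat.mul_le_mul_right z (by omega)
      omega)
    hout.cuts e1 (fun w c => hout.s_deg w.1 c) (fun w c α => (hout.s_cf w.1 c α).trans (hle hbz))
    (fun w => (hout.nr_le w).trans (by
      have := hle h1z
      rw [pow_one] at this
      exact this))
    hnf (fun w => hout.R_vars w.1) (fun w => hout.R_deg w.1)
    (fun w α => (hout.R_cf w.1 α).trans (hle (by push_cast at hbz ⊢; linarith)))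
    hout.R_few hout.R_hF (fun w => hout.L_vars w.1) (fun w => hout.L_deg w.1)
    (fun w α => (hout.L_cf w.1 α).trans (hle (by push_cast at hbz ⊢; linarith)))
    hout.L_few hout.L_hF
  have hκ2 : κm * ((T' * z : ℕ) : ℝ) ≤ g' := c3
  refine ⟨l, i, j, b * z, g, g', by omega, n7,
    hN₀ ▸ Nat.pow_le_pow_right (by norm_num) (by omega),
    hW3.trans hi1, by omega, hW3.trans hj1, by omega, Nat.mul_le_mul_right z hb2, ?_, ?_, c4,
    by rw [← hT']; exact c5, Ω', fin', q', fun w => (f' w).1, G, ?_, ?_, ?_⟩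
  · rw [ht'T] at n2
    have h1 := mul_le_mul_of_nonneg_right n2 hz0.le
    have h2 := mul_le_mul_of_nonneg_left hκ2 hε.le
    push_cast at h2 ⊢
    linarith
  · rw [ht'T] at n4
    have h1 := mul_le_mul_of_nonneg_right n4 hz0.le
    push_cast at hκ2
    have h2 : ((R * z : ℕ) : ℝ) ≤ g' := by push_cast; linarith
    exact_mod_cast h2
  · have h1 := hsub.trans (by norm_num) c2
    refine h1.mono (le_of_eq ?_)
    ring
  · intro w _
    refine Pool.MIC.ev_pos hO.isLaw.nonneg (GA D n z a₀ B 1 (M' + E)) ?_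
    rw [hqe]
    exact (f' w).2
  · rw [← hT']
    exact ⟨c6, c7, c8, c9⟩

end Pool.GSD.Cls
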