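import Pool.Agent.H46.MIC.Cpn
import Pool.Agent.H65.TIE.Vdet
import Pool.Agent.H50.LBL.Ml1

/-!
# The own shape over a part of the base: tools

`w0b`: W0 with one height coordinate, with simple constants, for shapes with coefficients at most
`2 ^ b`.  `pj`: polynomials in the coordinates of a set `M` as polynomials in `#M` variables.
`Fr`: the rounded shape.  `full_ev`: fullness on an event.
-/

set_option autoImplicit false

namespace Pool.TIE

open Finset Real
open Pool.Agent.H49.Ent Pool.Agent.H32.Dense Pool.STK Pool.BFL Pool.MIC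

theorem w0b (m K : ℕ) (η : ℝ) (hη : 0 < η) (hη1 : η ≤ 1) :
    ∃ (σ ι C : ℝ) (X₀ : ℕ), 0 < σ ∧ σ ≤ 1 ∧ 0 < ι ∧ 1 ≤ C ∧
    ∀ (Ω Γ : Type) [Fintype Ω] (p : Ω → ℝ) (X s b : ℕ) (G : Ω → Γ) (Y : Ω → Fin m → ℤ)
      (n nu : Ω → ℤ) (kap : Ω → Pl m) (θ : ℝ), IsLaw p → X₀ ≤ X → 0 ≤ θ → θ ≤ ι * X →
      (s : ℝ) ≤ σ * X → (b : ℝ) ≤ ι * X →
      (∀ ω, 0 < p ω → ∀ i, |((Y ω i : ℤ) : ℝ)| ≤ 2 ^ X) →
      (∀ ω, 0 < p ω → (kap ω).totalDegree ≤ K) →
      (∀ ω, 0 < p ω → ∀ k, k ≠ 0 → |MvPolynomial.coeff k (kap ω)| ≤ 2 ^ b) →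
      (∀ ω, 0 < p ω → |((nu ω : ℤ) : ℝ) - (n ω : ℤ) - 2 ^ X *
        MvPolynomial.eval (fun i => ((Y ω i : ℤ) : ℝ) / 2 ^ X) (kap ω)| ≤ 1) →
      CH p kap G ≤ CH p kap (fun ω => (nu ω, (Y ω, G ω))) + θ →
      m * (X * Real.log 2) - θ ≤ CH p Y (fun ω => (n ω, (kap ω, G ω))) →
      CH p nu (fun ω => (Y ω, G ω)) ≤ (1 - η) * (X * Real.log 2) →
      ∃ E : Ω → Prop, η / 4 ≤ Pb p E ∧
        CH (cond p E True) (fun ω => rk s (kap ω)) G ≤ C * (θ + 1) := by
  obtain ⟨C, hC1, hw⟩ := w0s m K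
  have hC0 : 0 < C := by linarith
  obtain ⟨a, ha⟩ : ∃ a : ℝ, a = 4 * C / η := ⟨_, rfl⟩
  have ha1 : 4 ≤ a := by
    rw [ha, le_div_iff₀ hη]
    nlinarith only [hη1, hC1]
  have ha0 : 0 < a := by linarith
  obtain ⟨ι, hι⟩ : ∃ ι : ℝ, ι = η / (8 * C * (a + 1)) := ⟨_, rfl⟩
  have hι0 : 0 < ι := by rw [hι]; positivity
  obtain ⟨X₀, hX₀⟩ : ∃ X₀ : ℕ, X₀ = ⌈8 * C * (a + 3) / η⌉₊ + 1 := ⟨_, rfl⟩
  refine ⟨η / (8 * C), ι, C + Real.log (1 / η) + 4 / η, X₀, by positivity, ?_, hι0, ?_, ?_⟩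
  · rw [div_le_one (by positivity)]
    linarith only [hη1, hC1]
  · have h1 : 0 ≤ Real.log (1 / η) := Real.log_nonneg (by
      rw [le_div_iff₀ hη]
      linarith only [hη1])
    have h2 : 0 < 4 / η := by positivity
    linarith only [hC1, h1, h2]
  intro Ω Γ _ p X s b G Y n nu kap θ hp hX hθ hθX hs hb hY hdeg hcf hnu H1 H2 H3
  have hXr : 8 * C * (a + 3) / η ≤ X := by
    have h1 := Nat.le_ceil (8 * C * (a + 3) / η)
    have h2 : ((⌈8 * C * (a + 3) / η⌉₊ : ℕ) : ℝ) ≤ X := by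
      exact_mod_cast (by omega : ⌈8 * C * (a + 3) / η⌉₊ ≤ X)
    linarith only [h1, h2]
  have hXr' : 8 * C * (a + 3) ≤ η * X := by
    rw [div_le_iff₀ hη] at hXr
    linarith only [hXr]
  have hX0 : 0 < X := by omega
  have hXp : (0 : ℝ) < X := by exact_mod_cast hX0
  obtain ⟨u, hu⟩ : ∃ u : ℕ, u = ⌈a * (θ + 1)⌉₊ := ⟨_, rfl⟩
  have hu1 : a * (θ + 1) ≤ u := by rw [hu]; exact Nat.le_ceil _
  have hu2 : (u : ℝ) < a * (θ + 1) + 1 := by
    rw [hu]
    exact Nat.ceil_lt_add_one (by positivity)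
  have hu0 : (0 : ℝ) < u := lt_of_lt_of_le (by positivity) hu1
  have hu1' : 1 ≤ u := by
    have : 0 < u := by exact_mod_cast hu0
    omega
  have hια : 8 * C * (a + 1) * (ι * X) = η * X := by
    rw [hι]
    field_simp
  have hθ' : 8 * C * (a + 1) * θ ≤ η * X := by
    have h1 := mul_le_mul_of_nonneg_left hθX (by positivity : 0 ≤ 8 * C * (a + 1))
    linarith only [hια, h1]
  have hb' : 8 * C * b ≤ η * X := by
    have h1 := mul_le_mul_of_nonneg_left hb (by positivity : 0 ≤ 8 * C * (a + 1))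
    have h2 : 8 * C * b ≤ 8 * C * (a + 1) * b := by
      have h3 : 0 ≤ 8 * C * a * b := by positivity
      nlinarith only [h3]
    linarith only [hια, h1, h2]
  have hs' : 8 * C * s ≤ η * X := by
    have h1 := mul_le_mul_of_nonneg_left hs (by positivity : 0 ≤ 8 * C)
    have h2 : 8 * C * (η / (8 * C) * X) = η * X := by
      field_simp
    linarith only [h1, h2]
  have hlast : C * (X * (θ + (0 : ℕ) + 1) / u) ≤ η * X / 4 := by
    have h1 : X * (θ + (0 : ℕ) + 1) / u ≤ X / a := by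
      rw [div_le_div_iff₀ hu0 ha0]
      push_cast
      have h2 := mul_le_mul_of_nonneg_left hu1 hXp.le
      nlinarith only [h2]
    have h2 := mul_le_mul_of_nonneg_left h1 hC0.le
    have h3 : C * (X / a) = η * X / 4 := by
      rw [ha]
      field_simp
    linarith only [h2, h3]
  have hfirst : C * (s + b + u + (0 : ℕ) + 1 + θ + 1) ≤ η * X * (3 / 4) := by
    push_cast
    have h1 : C * u ≤ C * (a * (θ + 1) + 1) := mul_le_mul_of_nonneg_left hu2.le hC0.le
    have h2 : 0 ≤ C * (a * θ) := by positivity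
    have h3 : 0 ≤ C * θ := by positivity
    have h4 : 0 ≤ η * X := by positivity
    nlinarith only [hXr', hθ', hb', hs', h1, h2, h3]
  obtain ⟨E, hE, hE2⟩ := hw Ω Γ p X 0 b s u G Y n nu kap θ 1 η hp hu1' hθ zero_le_one hη hη1 hX0
    (fun ω hω i => by
      rw [pow_zero, one_mul]
      exact hY ω hω i) hdeg hcf hnu H1 H2 H3 (by linarith only [hlast, hfirst])
  refine ⟨E, hE, hE2.trans ?_⟩
  have h1 : 0 ≤ Real.log (1 / η) := Real.log_nonneg (by
    rw [le_div_iff₀ hη]
    linarith only [hη1])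
  have h2 : 4 * (θ + 1) / η = 4 / η * (θ + 1) := by ring
  rw [h2, add_mul, add_mul]
  have h3 : C * 1 ≤ C * (θ + 1) := mul_le_mul_of_nonneg_left (by linarith only [hθ]) hC0.le
  have h4 : Real.log (1 / η) * 1 ≤ Real.log (1 / η) * (θ + 1) :=
    mul_le_mul_of_nonneg_left (by linarith only [hθ]) h1
  linarith only [h3, h4]

/-! ### Polynomials in the coordinates of a set -/

section Rx

variable {m : ℕ}

/-- The coordinates of `M`. -/
noncomputable def io (M : Finset (Fin m)) (i : Fin M.card) : Fin m := (M.equivFin.symm i : Fin m)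

theorem io_inj (M : Finset (Fin m)) : Function.Injective (io M) := fun i j h =>
  M.equivFin.symm.injective (Subtype.ext h)

theorem io_mem (M : Finset (Fin m)) (i : Fin M.card) : io M i ∈ M := (M.equivFin.symm i).2

theorem io_eq {M : Finset (Fin m)} {c : Fin m} (h : c ∈ M) : io M (M.equivFin ⟨c, h⟩) = c := by
  unfold io
  rw [Equiv.symm_apply_apply]

open Classical in
/-- A polynomial in the coordinates of `M` in `#M` variables. -/
noncomputable def pj (M : Finset (Fin m)) : Pl m →ₐ[ℝ] Pl M.card :=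
  MvPolynomial.aeval fun c => if h : c ∈ M then MvPolynomial.X (M.equivFin ⟨c, h⟩) else 0

theorem ren_pj {M : Finset (Fin m)} {F : Pl m} (hF : F.vars ⊆ M) :
    MvPolynomial.rename (io M) (pj M F) = F := by
  have h : (((MvPolynomial.rename (io M)).comp (pj M) : Pl m →ₐ[ℝ] Pl m) : Pl m →+* Pl m) F =
      (RingHom.id (Pl m)) F := by
    refine MvPolynomial.hom_congr_vars ?_ ?_ rfl
    · ext r
      simp
    · intro c hc _
      have hcM : c ∈ M := hF hc
      simp only [AlgHom.coe_toRingHom, AlgHom.comp_apply, RingHom.id_apply]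
      unfold pj
      rw [MvPolynomial.aeval_X, dif_pos hcM, MvPolynomial.rename_X, io_eq]
  simpa using h

theorem eval_pj {M : Finset (Fin m)} {F : Pl m} (hF : F.vars ⊆ M) (v : Fin m → ℝ) :
    MvPolynomial.eval (fun i => v (io M i)) (pj M F) = MvPolynomial.eval v F := by
  conv_rhs => rw [← ren_pj hF]
  rw [MvPolynomial.eval_rename]
  rfl

theorem coeff_pj {M : Finset (Fin m)} {F : Pl m} (hF : F.vars ⊆ M) (α : Fin M.card →₀ ℕ) :
    MvPolynomial.coeff α (pj M F) = MvPolynomial.coeff (α.mapDomain (io M)) F := by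
  conv_rhs => rw [← ren_pj hF]
  rw [MvPolynomial.coeff_rename_mapDomain _ (io_inj M)]

theorem deg_pj (M : Finset (Fin m)) (F : Pl m) : (pj M F).totalDegree ≤ F.totalDegree := by
  classical
  unfold pj
  rw [MvPolynomial.aeval_def, MvPolynomial.eval₂_eq]
  refine MvPolynomial.totalDegree_finsetSum_le fun d hd => ?_
  refine (MvPolynomial.totalDegree_mul _ _).trans ?_
  have h0 : (algebraMap ℝ (Pl M.card) (MvPolynomial.coeff d F)).totalDegree = 0 := by
    rw [MvPolynomial.algebraMap_eq, MvPolynomial.totalDegree_C]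
  rw [h0, zero_add]
  refine (MvPolynomial.totalDegree_finsetProd _ _).trans ?_
  refine (Finset.sum_le_sum (g := fun j => d j) fun j _ => ?_).trans
    (MvPolynomial.le_totalDegree hd)
  refine (MvPolynomial.totalDegree_pow _ _).trans ?_
  calc d j * _ ≤ d j * 1 := by
        refine Nat.mul_le_mul_left _ ?_
        split_ifs
        · exact (MvPolynomial.totalDegree_X _).le
        · rw [MvPolynomial.totalDegree_zero]
          exact Nat.zero_le _
    _ = d j := Nat.mul_one _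

theorem vars_ren (M : Finset (Fin m)) (F : Pl M.card) :
    (MvPolynomial.rename (io M) F).vars ⊆ M := by
  classical
  refine (MvPolynomial.vars_rename _ _).trans ?_
  intro c hc
  obtain ⟨i, _, rfl⟩ := Finset.mem_image.1 hc
  exact io_mem M i

/-- The rounded shape. -/
noncomputable def Fr (M : Finset (Fin m)) (K s : ℕ) (F : Pl m) : Pl m :=
  MvPolynomial.rename (io M) (Sp K s (rk s (pj M F)))

theorem Fr_vars (M : Finset (Fin m)) (K s : ℕ) (F : Pl m) : (Fr M K s F).vars ⊆ M := vars_ren M _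

theorem Fr_deg (M : Finset (Fin m)) (K s : ℕ) (F : Pl m) : (Fr M K s F).totalDegree ≤ K :=
  (MvPolynomial.totalDegree_rename_le _ _).trans (Sp_deg K s _)

theorem Fr_cf {M : Finset (Fin m)} {K s : ℕ} {F : Pl m} {b : ℝ} (hb : 0 ≤ b) (hF : F.vars ⊆ M)
    (hd : F.totalDegree ≤ K) (hc : ∀ α, |MvPolynomial.coeff α F| ≤ (2 : ℝ) ^ b)
    (α : Fin m →₀ ℕ) : |MvPolynomial.coeff α (Fr M K s F)| ≤ (2 : ℝ) ^ (b + 1) := by
  have h1 : (1 : ℝ) ≤ 2 ^ b := Real.one_le_rpow (by norm_num) hb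
  have h2 : (2 : ℝ) ^ (b + 1) = 2 ^ b * 2 := by
    rw [Real.rpow_add (by norm_num), Real.rpow_one]
  by_cases hα : ∃ β : Fin M.card →₀ ℕ, β.mapDomain (io M) = α
  · obtain ⟨β, rfl⟩ := hα
    unfold Fr
    rw [MvPolynomial.coeff_rename_mapDomain _ (io_inj M)]
    by_cases hβ : β = 0
    · subst hβ
      rw [coeff_Sp']
      have h3 : ((rk s (pj M F) 0 : ℤ) : ℝ) = 0 := by
        unfold rk
        rw [if_pos rfl]
        simp
      rw [h3, zero_div, ite_self, abs_zero]
      positivity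
    · have h3 := coeff_sub_Sp (s := s) ((deg_pj M F).trans hd) β hβ
      have h4 := hc (β.mapDomain (io M))
      rw [← coeff_pj hF] at h4
      have h5 : (1 : ℝ) / 2 ^ s ≤ 1 := by
        rw [div_le_one (by positivity)]
        exact one_le_pow₀ (by norm_num)
      rw [abs_le] at h3 h4 ⊢
      rw [h2]
      constructor <;> linarith only [h1, h3, h4, h5]
  · push Not at hα
    unfold Fr
    rw [MvPolynomial.coeff_rename_eq_zero _ _ _ fun u hu => absurd hu (hα u), abs_zero]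
    positivity

/-- The rounded shape is near the shape up to the constant term. -/
theorem Fr_eval (m K : ℕ) : ∃ C : ℝ, 1 ≤ C ∧ ∀ (M : Finset (Fin m)) (s : ℕ) (F : Pl m)
    (v : Fin m → ℝ), F.vars ⊆ M → F.totalDegree ≤ K → (∀ c, |v c| ≤ 1) →
    |MvPolynomial.eval v F - MvPolynomial.eval v (Fr M K s F) - MvPolynomial.coeff 0 F| ≤
      C / 2 ^ s := by
  classical
  obtain ⟨C, hC⟩ : ∃ C : ℝ, C = ∑ k ∈ range (m + 1), ((Pool.Agent.H36.KBX.bx k K).card : ℝ) + 1 :=
    ⟨_, rfl⟩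
  have hC1 : 1 ≤ C := by
    have : (0 : ℝ) ≤ ∑ k ∈ range (m + 1), ((Pool.Agent.H36.KBX.bx k K).card : ℝ) :=
      Finset.sum_nonneg fun _ _ => Nat.cast_nonneg _
    rw [hC]
    linarith
  refine ⟨C, hC1, ?_⟩
  intro M s F v hF hd hv
  have hMm : M.card < m + 1 := by
    have := Finset.card_le_univ M
    rw [Fintype.card_fin] at this
    omega
  have hcard : ((Pool.Agent.H36.KBX.bx M.card K).card : ℝ) ≤ C := by
    rw [hC]
    have := Finset.single_le_sum (f := fun k => ((Pool.Agent.H36.KBX.bx k K).card : ℝ))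
      (fun k _ => Nat.cast_nonneg _) (mem_range.2 hMm)
    linarith only [this]
  obtain ⟨P, hP⟩ : ∃ P : Pl M.card, P = pj M F := ⟨_, rfl⟩
  have hPd : P.totalDegree ≤ K := by rw [hP]; exact (deg_pj M F).trans hd
  obtain ⟨Q, hQ⟩ : ∃ Q : Pl M.card, Q = P - Sp K s (rk s P) -
    MvPolynomial.C (MvPolynomial.coeff 0 (P - Sp K s (rk s P))) := ⟨_, rfl⟩
  have hQd : Q.totalDegree ≤ K := by
    rw [hQ]
    refine (MvPolynomial.totalDegree_sub _ _).trans ?_
    rw [MvPolynomial.totalDegree_C]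
    refine max_le ?_ (Nat.zero_le _)
    exact (MvPolynomial.totalDegree_sub _ _).trans (max_le hPd (Sp_deg K s _))
  have hQc : ∀ α, |MvPolynomial.coeff α Q| ≤ 1 / 2 ^ s := by
    intro α
    rw [hQ, MvPolynomial.coeff_sub, MvPolynomial.coeff_C]
    by_cases hα : α = 0
    · subst hα
      simp only [if_true, sub_self, abs_zero]
      positivity
    · rw [if_neg (Ne.symm hα), sub_zero, MvPolynomial.coeff_sub]
      exact coeff_sub_Sp hPd α hα
  have hS0 : MvPolynomial.coeff 0 (Sp K s (rk s P)) = 0 := by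
    rw [coeff_Sp']
    have h3 : ((rk s P 0 : ℤ) : ℝ) = 0 := by
      unfold rk
      rw [if_pos rfl]
      simp
    rw [h3, zero_div, ite_self]
  have h1 := Pool.Agent.H36.KBX.eval_bound Q hQd (1 / 2 ^ s) 1 le_rfl hQc (fun i => v (io M i))
    (fun i => hv _)
  rw [one_pow, mul_one] at h1
  have h2 : MvPolynomial.eval (fun i => v (io M i)) Q = MvPolynomial.eval v F -
      MvPolynomial.eval v (Fr M K s F) - MvPolynomial.coeff 0 F := by
    rw [hQ, map_sub, map_sub, MvPolynomial.eval_C, MvPolynomial.coeff_sub, hS0, sub_zero]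
    have e1 : MvPolynomial.coeff 0 P = MvPolynomial.coeff 0 F := by
      rw [hP, coeff_pj hF, Finsupp.mapDomain_zero]
    have e2 : MvPolynomial.eval (fun i => v (io M i)) P = MvPolynomial.eval v F := by
      rw [hP]
      exact eval_pj hF v
    have e3 : MvPolynomial.eval v (Fr M K s F) =
        MvPolynomial.eval (fun i => v (io M i)) (Sp K s (rk s P)) := by
      unfold Fr
      rw [MvPolynomial.eval_rename, hP]
      rfl
    rw [e1, e2, e3]
  rw [h2] at h1
  refine h1.trans ?_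
  rw [mul_one_div]
  exact div_le_div_of_nonneg_right hcard (by positivity)

end Rx

/-- **Fullness on an event.** -/
theorem full_ev {Ω S T : Type} [Fintype Ω] {p : Ω → ℝ} (hp : IsLaw p) (A : Ω → S) (W : Ω → T)
    (E : Ω → Prop) (hE : 0 < Pb p E) {N θ : ℝ}
    (hN : ∀ q : Ω → ℝ, IsLaw q → (∀ ω, 0 < q ω → 0 < p ω) → CH q A W ≤ N)
    (h : N - θ ≤ CH p A W) : N - (θ + Real.log 2) / Pb p E ≤ CH (cond p E True) A W := by
  have hp0 := hp.nonneg
  have h1 := CH_two hp0 A W E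
  have h2 : CH p A W ≤ CH p E W + CH p A (fun ω => (E ω, W ω)) := CH_le_add hp0 A E W
  have h3 := CH_prop_le hp0 hp.sum_one E W
  have h4 : CH p A (fun ω => (E ω, W ω)) = CH p A (fun ω => (W ω, E ω)) := CH_swc hp0 A E W
  have h5 := Pb_not hp.sum_one E
  have h6 : Pb p (fun ω => ¬ E ω) * CH (cond p E False) A W ≤ Pb p (fun ω => ¬ E ω) * N := by
    rcases (Pb_nonneg hp0 (fun ω => ¬ E ω)).eq_or_lt with h0 | h0
    · rw [← h0, zero_mul, zero_mul]
    · refine mul_le_mul_of_nonneg_left ?_ h0.le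
      refine hN _ ⟨cond_nonneg hp0 E False, sum_cond p E (by rw [law_False]; exact h0.ne')⟩
        fun ω hω => ((cond_pos_iff hp0 E False ω).1 hω).1
  have h7 : Pb p E * N - (θ + Real.log 2) ≤ Pb p E * CH (cond p E True) A W := by
    have h8 : Pb p (fun ω => ¬ E ω) = 1 - Pb p E := by linarith only [h5]
    rw [h8] at h6 h1
    nlinarith only [h, h1, h2, h3, h4, h6]
  rw [sub_le_iff_le_add, ← sub_le_iff_le_add', le_div_iff₀ hE]
  nlinarith only [h7]

end Pool.TIE
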