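import Pool.Agent.H65.TIE.Restr

/-!
# The restriction of a claim, explicitly, and its gradient

`slp`: the slopes of the eliminated coordinates. `restr_rst`: the restriction of a claim is the
claim of the eliminated polynomial. `rst_pd`: the gradient of the eliminated polynomial at the own
point is the gradient of the polynomial along the sheet of the eliminated coordinates.
-/

set_option autoImplicit false

namespace Pool.TIE

open Finset MvPolynomial
open Pool.Agent.H49.Ent Pool.Agent.H32.Dense Pool.STK Pool.BFL Pool.MIC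
open Pool.GLM (ml ml_nn)

variable {m : ℕ}

namespace Dat

/-- The slope in the direction `c` of the coordinate `l` as a function of the coordinates of `M`,
at the own point. -/
noncomputable def slp (D : Dat m) (M : Finset (Fin m)) (ω : D.Ω) (c l : Fin m) : ℝ :=
  eval (D.v ω) (pderiv c (elim M (fun c => (D.ht c ω : ℝ) / 2 ^ D.X) (D.s ω) m l))

end Dat

/-! ### The eliminated coordinates -/

theorem elim_vars_le {M' : Finset (Fin m)} {n : Fin m → ℝ} {s : Fin m → Pl m}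
    (hs : ∀ c, ∀ c' ∈ (s c).vars, c' < c) (k : ℕ) (c : Fin m) :
    (∀ x ∈ (elim M' n s k c).vars, x ≤ c) ∧ (c ∉ M' → ∀ x ∈ (elim M' n s k c).vars, x < c) := by
  classical
  induction k generalizing c with
  | zero =>
    constructor
    · intro x hx
      unfold elim at hx
      simp at hx
    · intro _ x hx
      unfold elim at hx
      simp at hx
  | succ k ih =>
    have key : c ∉ M' → ∀ x ∈ (elim M' n s (k + 1) c).vars, x < c := by
      intro hc x hx
      unfold elim at hx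
      rw [if_neg hc] at hx
      have h1 := vars_add_subset _ _ hx
      rw [Finset.mem_union] at h1
      rcases h1 with h1 | h1
      · rw [vars_C] at h1
        exact absurd h1 (Finset.notMem_empty _)
      · have h2 := vars_bind₁ _ _ h1
        rw [Finset.mem_biUnion] at h2
        obtain ⟨i, hi, hxi⟩ := h2
        exact ((ih i).1 x hxi).trans_lt (hs c i hi)
    refine ⟨fun x hx => ?_, key⟩
    by_cases hc : c ∈ M'
    · unfold elim at hx
      rw [if_pos hc, vars_X, Finset.mem_singleton] at hx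
      exact hx.le
    · exact (key hc x hx).le

namespace Dat

variable (D : Dat m) (M : Finset (Fin m)) (ω : D.Ω)

theorem slp_mem {c l : Fin m} (hl : l ∈ M) : D.slp M ω c l = if l = c then 1 else 0 := by
  unfold slp
  obtain ⟨k, hk⟩ : ∃ k, m = k + 1 := ⟨m - 1, by have := l.isLt; omega⟩
  have h1 : elim M (fun c => (D.ht c ω : ℝ) / 2 ^ D.X) (D.s ω) m l = MvPolynomial.X l := by
    have : ∀ j, j = k + 1 →
        elim M (fun c => (D.ht c ω : ℝ) / 2 ^ D.X) (D.s ω) j l = MvPolynomial.X l := by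
      rintro j rfl
      unfold elim
      rw [if_pos hl]
    exact this m hk
  rw [h1]
  by_cases h : l = c
  · rw [h, pderiv_X_self, if_pos rfl, map_one]
  · rw [pderiv_X_of_ne h, if_neg h, map_zero]

theorem slp_zero {c l : Fin m} (hs : ∀ c, ∀ c' ∈ (D.s ω c).vars, c' < c) (hl : l ∉ M)
    (h : l ≤ c) : D.slp M ω c l = 0 := by
  unfold slp
  rw [pderiv_eq_zero_of_notMem_vars, map_zero]
  intro h1
  exact absurd ((elim_vars_le hs m l).2 hl c h1) (not_lt.2 h)

/-- The gradient of a function along the sheet. -/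
theorem slp_sum {c : Fin m} (hc : c ∈ M) (p : Fin m → ℝ) :
    ∑ l, D.slp M ω c l * p l = p c + ∑ l ∈ univ.filter (fun l => l ∉ M), D.slp M ω c l * p l := by
  classical
  rw [← Finset.sum_filter_add_sum_filter_not univ (fun l => l ∈ M)]
  congr 1
  rw [Finset.sum_eq_single c]
  · rw [D.slp_mem M ω hc, if_pos rfl, one_mul]
  · intro l hl hlc
    rw [mem_filter] at hl
    rw [D.slp_mem M ω hl.2, if_neg hlc, zero_mul]
  · intro h
    exact absurd (mem_filter.2 ⟨mem_univ _, hc⟩) h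

end Dat

/-! ### Coefficient norms -/

theorem ml_pd {P : Pl m} {K : ℕ} (hP : P.totalDegree ≤ K) (i : Fin m) :
    ml (pderiv i P) ≤ K * ml P := by
  classical
  have e : pderiv i P = ∑ α ∈ P.support, monomial (α - Finsupp.single i 1)
      (coeff α P * (α i : ℝ)) := by
    conv_lhs => rw [← P.support_sum_monomial_coeff]
    rw [map_sum]
    exact Finset.sum_congr rfl fun α _ => pderiv_monomial
  rw [e]
  refine (Pool.GLM.ml_sum _ _).trans ?_
  unfold Pool.GLM.ml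
  rw [Finset.mul_sum]
  refine Finset.sum_le_sum fun α hα => ?_
  have h1 : ml (monomial (α - Finsupp.single i 1) (coeff α P * (α i : ℝ)) : Pl m) =
      |coeff α P * (α i : ℝ)| := Pool.GLM.ml_monomial _ _
  change ml (monomial (α - Finsupp.single i 1) (coeff α P * (α i : ℝ)) : Pl m) ≤ _
  rw [h1, abs_mul, mul_comm]
  refine mul_le_mul_of_nonneg_right ?_ (abs_nonneg _)
  rw [abs_of_nonneg (Nat.cast_nonneg _)]
  have h2 := sum_le_deg hP hα
  have h3 : α i ≤ ∑ j, α j := Finset.single_le_sum (fun _ _ => Nat.zero_le _) (Finset.mem_univ i)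
  exact_mod_cast h3.trans h2

theorem td_pdR {P : Pl m} {K : ℕ} (hP : P.totalDegree ≤ K) (i : Fin m) :
    (pderiv i P).totalDegree ≤ K := by
  classical
  rw [totalDegree]
  refine Finset.sup_le fun k hk => ?_
  have h1 : coeff k (pderiv i P) ≠ 0 := mem_support_iff.1 hk
  rw [coeff_pderiv] at h1
  have h2 : (k + Finsupp.single i 1) ∈ P.support := mem_support_iff.2 (left_ne_zero_of_mul h1)
  have h3 : ((k + Finsupp.single i 1).sum fun _ x => x) ≤ P.totalDegree := le_totalDegree h2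
  have h4 : ((k + Finsupp.single i 1).sum fun _ x => x) = (k.sum fun _ x => x) + 1 := by
    rw [Finsupp.sum_add_index' (fun _ => rfl) (fun _ _ _ => rfl), Finsupp.sum_single_index rfl]
  omega

theorem pd_bind (f : Fin m → Pl m) (P : Pl m) (a : Fin m) :
    pderiv a (bind₁ f P) = ∑ k, bind₁ f (pderiv k P) * pderiv a (f k) := by
  classical
  induction P using MvPolynomial.induction_on with
  | C r =>
    rw [bind₁_C_right, pderiv_C]
    symm
    refine Finset.sum_eq_zero fun k _ => ?_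
    rw [pderiv_C, map_zero, zero_mul]
  | add P Q hP hQ =>
    rw [map_add, map_add, hP, hQ, ← Finset.sum_add_distrib]
    exact Finset.sum_congr rfl fun k _ => by rw [map_add, map_add, add_mul]
  | mul_X P i hP =>
    rw [map_mul, bind₁_X_right, pderiv_mul, hP]
    have h1 : ∀ k, bind₁ f (pderiv k (P * X i)) * pderiv a (f k) =
        (bind₁ f (pderiv k P) * pderiv a (f k)) * f i +
          (if i = k then bind₁ f P * pderiv a (f i) else 0) := by
      intro k
      rw [pderiv_mul, map_add, map_mul, map_mul, bind₁_X_right]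
      by_cases h : i = k
      · subst h
        rw [pderiv_X_self, map_one, if_pos rfl]
        ring
      · rw [pderiv_X_of_ne h, map_zero, if_neg h]
        ring
    simp_rw [h1]
    rw [Finset.sum_add_distrib, Finset.sum_mul, Finset.sum_ite_eq, if_pos (Finset.mem_univ _)]

/-- **The gradient of the eliminated polynomial.** -/
theorem rst_pd (m K : ℕ) : ∃ C : ℝ, 1 ≤ C ∧ ∀ (D : Dat m) (M' : Finset (Fin m)) (b θ : ℝ)
    (F : D.Ω → Pl m), 0 ≤ b → Hyp D K b θ → C * (b + 1) ≤ D.X →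
    (∀ ω, (F ω).totalDegree ≤ K) → (∀ ω α, |coeff α (F ω)| ≤ (2 : ℝ) ^ b) → ∀ ω c,
      (∀ l, |D.slp M' ω c l| ≤ (2 : ℝ) ^ (C * (b + 1))) ∧
      |eval (D.v ω) (pderiv c (D.rst M' F ω)) -
        ∑ l, D.slp M' ω c l * eval (D.v ω) (pderiv l (F ω))| ≤
        (2 : ℝ) ^ (C * (b + 1)) * ((2 : ℝ) ^ D.X)⁻¹ := by
  obtain ⟨N₀, hN₀⟩ : ∃ N₀ : ℕ, (4 + K * 2 ^ K) * (K + 1) ^ m ≤ 2 ^ N₀ :=
    ⟨(4 + K * 2 ^ K) * (K + 1) ^ m, (Nat.lt_two_pow_self).le⟩
  obtain ⟨N₁, hN₁⟩ : ∃ N₁ : ℕ, (m + 1) * (K + 1) * (K + 1) ^ m ≤ 2 ^ N₁ :=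
    ⟨(m + 1) * (K + 1) * (K + 1) ^ m, (Nat.lt_two_pow_self).le⟩
  obtain ⟨C, hC⟩ : ∃ C : ℝ, C = N₁ + ((N₀ : ℝ) + 1) * (m + 1 + ce K m) + 1 := ⟨_, rfl⟩
  have hC1 : 1 ≤ C := by
    rw [hC]
    have : (0 : ℝ) ≤ N₁ + ((N₀ : ℝ) + 1) * (m + 1 + ce K m) := by positivity
    linarith only [this]
  refine ⟨C, hC1, ?_⟩
  intro D M' b θ F hb hH hX hFd hFc ω c
  obtain ⟨S, hS⟩ : ∃ S : ℝ, S = ((K : ℝ) + 1) ^ m * 2 ^ b := ⟨_, rfl⟩
  obtain ⟨T, hT⟩ : ∃ T : ℝ, T = (4 + K * 2 ^ K) * S := ⟨_, rfl⟩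
  have h2b : (1 : ℝ) ≤ 2 ^ b := Real.one_le_rpow (by norm_num) hb
  have hK1 : (1 : ℝ) ≤ ((K : ℝ) + 1) ^ m := one_le_pow₀ (by
    have := Nat.cast_nonneg (α := ℝ) K; linarith only)
  have hS1 : 1 ≤ S := by
    rw [hS]; nlinarith only [h2b, hK1]
  have hKK : (0 : ℝ) ≤ K * 2 ^ K := by positivity
  have hT4 : 4 * S ≤ T := by rw [hT]; nlinarith only [hKK, hS1]
  have hT1 : 1 ≤ T := by linarith only [hS1, hT4]
  have hTK : (1 + K * 2 ^ K) * S ≤ T := by rw [hT]; nlinarith only [hS1]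
  have hTK' : S * (K * 2 ^ K) ≤ T := by rw [hT]; nlinarith only [hS1]
  have hTp : T ≤ (2 : ℝ) ^ (((N₀ : ℝ) + 1) * (b + 1)) := by
    have e1 : T = ((4 + K * 2 ^ K) * ((K : ℝ) + 1) ^ m) * 2 ^ b := by rw [hT, hS]; ring
    have e2 : ((4 + K * 2 ^ K) * ((K : ℝ) + 1) ^ m) ≤ (2 : ℝ) ^ (N₀ : ℝ) := by
      rw [Real.rpow_natCast]; exact_mod_cast hN₀
    rw [e1]
    calc ((4 + K * 2 ^ K) * ((K : ℝ) + 1) ^ m) * (2 : ℝ) ^ b ≤ 2 ^ (N₀ : ℝ) * 2 ^ b :=
          mul_le_mul_of_nonneg_right e2 (by positivity)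
      _ = 2 ^ ((N₀ : ℝ) + b) := by rw [← Real.rpow_add (by norm_num)]
      _ ≤ _ := Real.rpow_le_rpow_of_exponent_le (by norm_num) (by
          have := Nat.cast_nonneg (α := ℝ) N₀; nlinarith only [hb])
  -- powers of `T` times the constant
  obtain ⟨Q, hQ⟩ : ∃ Q : ℝ, Q = ((m : ℝ) + 1) * (K + 1) * (K + 1) ^ m := ⟨_, rfl⟩
  have hQ1 : 1 ≤ Q := by
    rw [hQ]
    have h1 : (1 : ℝ) ≤ (m : ℝ) + 1 := by linarith only [Nat.cast_nonneg (α := ℝ) m]
    have h2 : (1 : ℝ) ≤ (K : ℝ) + 1 := by linarith only [Nat.cast_nonneg (α := ℝ) K]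
    exact one_le_mul_of_one_le_of_one_le (one_le_mul_of_one_le_of_one_le h1 h2) hK1
  have hQp : Q ≤ (2 : ℝ) ^ (N₁ : ℝ) := by
    rw [hQ, Real.rpow_natCast]
    exact_mod_cast hN₁
  have hTpow : ∀ j : ℕ, (j : ℝ) ≤ m + 1 + ce K m → Q * T ^ j ≤ (2 : ℝ) ^ (C * (b + 1)) := by
    intro j hj
    have h1 : T ^ j ≤ (2 : ℝ) ^ (((N₀ : ℝ) + 1) * (b + 1) * j) := by
      calc T ^ j ≤ ((2 : ℝ) ^ (((N₀ : ℝ) + 1) * (b + 1))) ^ j :=
            pow_le_pow_left₀ (by linarith only [hS1, hT4]) hTp j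
        _ = (2 : ℝ) ^ (((N₀ : ℝ) + 1) * (b + 1) * j) := by
            rw [← Real.rpow_natCast, ← Real.rpow_mul (by norm_num)]
    calc Q * T ^ j ≤ (2 : ℝ) ^ (N₁ : ℝ) * (2 : ℝ) ^ (((N₀ : ℝ) + 1) * (b + 1) * j) :=
          mul_le_mul hQp h1 (by positivity) (by positivity)
      _ = (2 : ℝ) ^ ((N₁ : ℝ) + ((N₀ : ℝ) + 1) * (b + 1) * j) := by
          rw [← Real.rpow_add (by norm_num)]
      _ ≤ _ := by
          refine Real.rpow_le_rpow_of_exponent_le (by norm_num) ?_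
          have h3 : 0 ≤ ((N₀ : ℝ) + 1) * (b + 1) := by positivity
          have h4 := mul_le_mul_of_nonneg_left hj h3
          have h5 : (0 : ℝ) ≤ N₁ * b := by positivity
          rw [hC]
          nlinarith only [hb, h4, h5]
  have hTpow' : ∀ j : ℕ, (j : ℝ) ≤ m + 1 + ce K m → T ^ j ≤ (2 : ℝ) ^ (C * (b + 1)) :=
    fun j hj => (le_mul_of_one_le_left (by positivity) hQ1).trans (hTpow j hj)
  have h2X : (2 : ℝ) ^ (C * (b + 1)) * ((2 : ℝ) ^ D.X)⁻¹ ≤ 1 := by
    rw [← div_eq_mul_inv, div_le_one (by positivity), ← Real.rpow_natCast]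
    exact Real.rpow_le_rpow_of_exponent_le (by norm_num) hX
  have hms : ∀ c, ml (D.s ω c) ≤ S := fun c => by
    rw [hS]
    exact ml_le_of_cb (hH.s_deg ω c) (by positivity) (hH.s_cf ω c)
  have hmF : ml (F ω) ≤ S := by
    rw [hS]
    exact ml_le_of_cb (hFd ω) (by positivity) (hFc ω)
  have hv := D.v_le hH.V_lt ω
  have hn : ∀ c, |(D.ht c ω : ℝ) / 2 ^ D.X| ≤ 2 + S := by
    intro c
    have h1 := D.ht_near c ω
    have h2 := hv c
    have h3 : |eval (D.v ω) (D.s ω c)| ≤ S := (eval_ml2 hv).trans (hms c)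
    have h4 : ((2 : ℝ) ^ D.X)⁻¹ ≤ 1 := inv_le_one_of_one_le₀ (one_le_pow₀ (by norm_num))
    rw [abs_le] at h1 h2 h3 ⊢
    constructor <;> linarith only [h1, h2, h3, h4, h1.1, h1.2, h2.1, h2.2, h3.1, h3.2]
  have hD0 : (0 : ℝ) ≤ ((2 : ℝ) ^ D.X)⁻¹ := by positivity
  have hmul : ∀ j : ℕ, (j : ℝ) ≤ m + 1 + ce K m → ((2 : ℝ) ^ D.X)⁻¹ * T ^ j ≤ 1 := by
    intro j hj
    refine le_trans ?_ h2X
    rw [mul_comm]
    exact mul_le_mul_of_nonneg_right (hTpow' j hj) hD0
  have hce : (0 : ℝ) ≤ ce K m := Nat.cast_nonneg _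
  -- the slopes
  have hslp : ∀ l, |D.slp M' ω c l| ≤ ((K : ℝ) + 1) ^ m * T ^ ce K m := by
    intro l
    unfold Dat.slp
    refine (eval_ml2 hv).trans ?_
    have h1 := ml_pd (elim_deg (M' := M') (n := fun c => (D.ht c ω : ℝ) / 2 ^ D.X)
      (fun c => hH.s_deg ω c) m l) c
    have h2 := elim_ml (M' := M') (n := fun c => (D.ht c ω : ℝ) / 2 ^ D.X)
      (fun c => hH.s_deg ω c) hS1 hms (fun c _ => hn c) hT4 m l
    refine h1.trans ?_
    push_cast
    exact mul_le_mul_of_nonneg_left h2 (by positivity)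
  have hKm : ((K : ℝ) + 1) ^ m ≤ Q := by
    rw [hQ]
    have h1 : (1 : ℝ) ≤ (m : ℝ) + 1 := by linarith only [Nat.cast_nonneg (α := ℝ) m]
    have h2 : (1 : ℝ) ≤ (K : ℝ) + 1 := by linarith only [Nat.cast_nonneg (α := ℝ) K]
    exact le_mul_of_one_le_left (by positivity) (one_le_mul_of_one_le_of_one_le h1 h2)
  refine ⟨fun l => (hslp l).trans ?_, ?_⟩
  · refine le_trans ?_ (hTpow (ce K m) (by
      have := Nat.cast_nonneg (α := ℝ) m
      linarith only))
    exact mul_le_mul_of_nonneg_right hKm (by positivity)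
  · unfold Dat.rst
    rw [pd_bind, map_sum, ← Finset.sum_sub_distrib]
    obtain ⟨w, hw⟩ : ∃ w : Fin m → ℝ, w = fun l => eval (D.v ω)
      (elim M' (fun c => (D.ht c ω : ℝ) / 2 ^ D.X) (D.s ω) m l) := ⟨_, rfl⟩
    have hval : ∀ c : Fin m, |w c - D.v ω c| ≤ ((2 : ℝ) ^ D.X)⁻¹ * T ^ m := fun c => by
      rw [hw]
      exact elim_val (fun c => hH.s_deg ω c) hS1 hms hv (hH.s_vars ω) hD0
        (fun c _ => D.ht_near c ω) hTK m (fun j hj => hmul j (by
          have : (j : ℝ) ≤ m := by exact_mod_cast hj.le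
          linarith only [this])) c c.isLt
    have hm1 : ((2 : ℝ) ^ D.X)⁻¹ * T ^ m ≤ 1 := hmul m (by linarith only)
    have hw2 : ∀ c : Fin m, |w c| ≤ 2 := fun c => by
      have h1 := hval c
      have h2 := hv c
      rw [abs_le] at h1 h2 ⊢
      constructor <;> linarith only [hm1, h1, h2, h1.1, h1.2, h2.1, h2.2]
    have hterm : ∀ l, |eval (D.v ω) (bind₁ (elim M' (fun c => (D.ht c ω : ℝ) / 2 ^ D.X)
        (D.s ω) m) (pderiv l (F ω)) * pderiv c (elim M' (fun c => (D.ht c ω : ℝ) / 2 ^ D.X)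
        (D.s ω) m l)) - D.slp M' ω c l * eval (D.v ω) (pderiv l (F ω))| ≤
        (K * T * (((2 : ℝ) ^ D.X)⁻¹ * T ^ m)) * (((K : ℝ) + 1) ^ m * T ^ ce K m) := by
      intro l
      have e1 : eval (D.v ω) (bind₁ (elim M' (fun c => (D.ht c ω : ℝ) / 2 ^ D.X)
          (D.s ω) m) (pderiv l (F ω)) * pderiv c (elim M' (fun c => (D.ht c ω : ℝ) / 2 ^ D.X)
          (D.s ω) m l)) - D.slp M' ω c l * eval (D.v ω) (pderiv l (F ω)) =
          (eval w (pderiv l (F ω)) - eval (D.v ω) (pderiv l (F ω))) * D.slp M' ω c l := by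
        rw [map_mul, eval_bind, ← hw]
        unfold Dat.slp
        ring
      rw [e1, abs_mul]
      have h1 := lip2 (R := 2) (by norm_num) (td_pdR (hFd ω) l) hw2
        (fun i => (hv i).trans (by norm_num)) (by positivity) hval
      have h2 : ml (pderiv l (F ω)) ≤ K * S :=
        (ml_pd (hFd ω) l).trans (mul_le_mul_of_nonneg_left hmF (Nat.cast_nonneg _))
      have h3 : |eval w (pderiv l (F ω)) - eval (D.v ω) (pderiv l (F ω))| ≤
          K * T * (((2 : ℝ) ^ D.X)⁻¹ * T ^ m) := by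
        refine h1.trans ?_
        have h4 : ml (pderiv l (F ω)) * (K * 2 ^ K * (((2 : ℝ) ^ D.X)⁻¹ * T ^ m)) ≤
            (K * S) * (K * 2 ^ K * (((2 : ℝ) ^ D.X)⁻¹ * T ^ m)) :=
          mul_le_mul_of_nonneg_right h2 (by positivity)
        refine h4.trans ?_
        have h5 : (K * S) * (K * 2 ^ K * (((2 : ℝ) ^ D.X)⁻¹ * T ^ m)) =
            K * (S * (K * 2 ^ K)) * (((2 : ℝ) ^ D.X)⁻¹ * T ^ m) := by ring
        rw [h5]
        exact mul_le_mul_of_nonneg_right (mul_le_mul_of_nonneg_left hTK' (Nat.cast_nonneg _))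
          (by positivity)
      exact mul_le_mul h3 (hslp l) (abs_nonneg _) (by positivity)
    refine (Finset.abs_sum_le_sum_abs _ _).trans ((Finset.sum_le_sum fun l _ => hterm l).trans ?_)
    rw [Finset.sum_const, Finset.card_univ, Fintype.card_fin, nsmul_eq_mul]
    have e2 : (m : ℝ) * ((K * T * (((2 : ℝ) ^ D.X)⁻¹ * T ^ m)) *
        (((K : ℝ) + 1) ^ m * T ^ ce K m)) =
        (m * K * ((K : ℝ) + 1) ^ m) * T ^ (m + 1 + ce K m) * ((2 : ℝ) ^ D.X)⁻¹ := by
      rw [pow_add, pow_add, pow_one]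
      ring
    rw [e2]
    refine mul_le_mul_of_nonneg_right ?_ hD0
    refine le_trans (mul_le_mul_of_nonneg_right ?_ (by positivity)) (hTpow (m + 1 + ce K m) (by
      push_cast
      linarith only))
    rw [hQ]
    have h0 : (0 : ℝ) ≤ m := Nat.cast_nonneg m
    have h0' : (0 : ℝ) ≤ K := Nat.cast_nonneg K
    have h1 : (m : ℝ) * K ≤ (m + 1) * (K + 1) := by nlinarith only
    exact mul_le_mul_of_nonneg_right h1 (by positivity)

end Pool.TIE
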