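import Pool.Agent.H19.TIE.Unq
import Pool.Agent.H20.TIE.Low

/-!
# Uniqueness of the shape of a claim
-/

set_option autoImplicit false

namespace Pool.TIE

open Finset Real
open Pool.Agent.H49.Ent Pool.Agent.H32.Dense Pool.STK Pool.BFL Pool.MIC

theorem Pb_impD {Ω : Type} [Fintype Ω] {p : Ω → ℝ} (hp : ∀ ω, 0 ≤ p ω) {A B : Ω → Prop}
    (h : ∀ ω, 0 < p ω → A ω → B ω) : Pb p A ≤ Pb p B := by
  classical
  unfold Pb
  refine Finset.sum_le_sum fun ω _ => ?_
  rcases (hp ω).eq_or_lt with h0 | h0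
  · rw [← h0]
    simp
  · by_cases hA : A ω
    · rw [if_pos hA, if_pos (h ω h0 hA)]
    · rw [if_neg hA]
      split_ifs
      · exact hp ω
      · exact le_rfl

/-- **Two claims for the same set** have the same shape up to constants, with positive
probability. -/
theorem unqD (m K : ℕ) (η : ℝ) (hη : 0 < η) : ∃ (σ ι : ℝ) (h₁ : ℕ), 0 < σ ∧ σ ≤ 1 ∧ 0 < ι ∧
    ∀ (D : Dat m) (M : Finset (Fin m)) (F F' : D.Ω → Pl m) (b θ : ℝ) (h s : ℕ),
      IsLaw D.p → (∀ ω c, 0 ≤ D.V ω c ∧ D.V ω c < 2 ^ D.X) → h ≤ D.X → h₁ ≤ h →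
      (∀ ω c, ∀ c' ∈ (D.s ω c).vars, c' < c) → 0 ≤ b → b ≤ ι * h → 0 ≤ θ → θ ≤ ι * h →
      (s : ℝ) ≤ σ * h →
      CH D.p (fun ω => dg h (D.nr ω)) (fun ω => (D.V ω, D.z ω)) ≤ (1 - η) * (h * Real.log 2) →
      Claim D M h K b θ F → Claim D M h K b θ F' →
      η / 4 ≤ Pb D.p (fun ω => ∀ α, α ≠ 0 →
        |MvPolynomial.coeff α (F ω) - MvPolynomial.coeff α (F' ω)| ≤ 1 / 2 ^ s) := by
  classical
  choose C hC1 hC using fun k : ℕ => unq0 k K
  obtain ⟨Cs, hCs⟩ : ∃ Cs : ℝ, Cs = ∑ k ∈ range (m + 1), C k := ⟨_, rfl⟩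
  have hCsk : ∀ k ≤ m, C k ≤ Cs := fun k hk => by
    rw [hCs]
    exact Finset.single_le_sum (f := C) (fun i _ => by linarith [hC1 i]) (mem_range.2 (by omega))
  have hCs1 : 1 ≤ Cs := (hC1 0).trans (hCsk 0 (Nat.zero_le _))
  obtain ⟨Q, hQ⟩ : ∃ Q : ℝ, Q = ∑ k ∈ range (m + 1),
    (K * (Pool.Agent.H36.KBX.bx k K).card : ℝ) := ⟨_, rfl⟩
  have hQk : ∀ k ≤ m, (K * (Pool.Agent.H36.KBX.bx k K).card : ℝ) ≤ Q := fun k hk => by
    rw [hQ]
    exact Finset.single_le_sum (f := fun k => (K * (Pool.Agent.H36.KBX.bx k K).card : ℝ))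
      (fun i _ => by positivity) (mem_range.2 (by omega))
  have hQ0 : 0 ≤ Q := by rw [hQ]; exact Finset.sum_nonneg fun _ _ => by positivity
  have hl2 : 0 < Real.log 2 := Real.log_pos (by norm_num)
  have hl2h : 1 / 2 ≤ Real.log 2 := by linarith [Real.log_two_gt_d9]
  have hl21 : Real.log 2 ≤ 1 := by linarith [Real.log_two_lt_d9]
  have hl3 : 0 < Real.log 3 := Real.log_pos (by norm_num)
  have hm3 : 0 ≤ m * Real.log 3 := by positivity
  -- the constant error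
  obtain ⟨B₀, hB₀⟩ : ∃ B₀ : ℝ, B₀ = 4 * Q + 14 + 2 * (m * Real.log 3) := ⟨_, rfl⟩
  have hB0 : 0 < B₀ := by rw [hB₀]; positivity
  obtain ⟨ν, hν⟩ : ∃ ν : ℝ, ν = min η 1 / (32 * Cs) := ⟨_, rfl⟩
  have hη1 : 0 < min η 1 := lt_min hη one_pos
  have hν0 : 0 < ν := by rw [hν]; positivity
  have hν1 : ν * (32 * Cs) = min η 1 := by
    rw [hν]
    field_simp
  obtain ⟨ι, hι⟩ : ∃ ι : ℝ, ι = ν * ν / 8 := ⟨_, rfl⟩
  have hι0 : 0 < ι := by rw [hι]; positivity
  have hν2 : ν ≤ 1 / 32 := by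
    have : ν * 32 ≤ ν * (32 * Cs) := mul_le_mul_of_nonneg_left (by linarith) hν0.le
    linarith [min_le_right η 1]
  obtain ⟨h₁, hh₁⟩ := exists_nat_ge ((B₀ + 4) / ι + 1)
  refine ⟨ν, ι, h₁, hν0, by linarith, hι0, ?_⟩
  intro D M F F' b θ h s hp hV hhX hh hsv hb hbι hθ hθι hs h3 hF hF'
  have hMm : M.card ≤ m := by
    have := Finset.card_le_univ M
    rwa [Fintype.card_fin] at this
  have hMr : (M.card : ℝ) ≤ m := by exact_mod_cast hMm
  have hx1 : (h₁ : ℝ) ≤ h := by exact_mod_cast hh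
  have g0 : (B₀ + 4) / ι + 1 ≤ h := hh₁.trans hx1
  have g1 : B₀ + 4 ≤ ι * h := by
    have : (B₀ + 4) / ι ≤ h := by linarith
    rwa [div_le_iff₀' hι0] at this
  have hX1 : (1 : ℝ) ≤ h := by
    have : 0 ≤ (B₀ + 4) / ι := by positivity
    linarith
  have hX0 : (0 : ℝ) < h := by linarith
  have hXn : 0 < h := by exact_mod_cast hX0
  -- the claims with the height cut
  have cl := hF.low (h := h) hp le_rfl
  have cl' := hF'.low (h := h) hp le_rfl
  have triv : ∀ {G : D.Ω → Pl m}, CH D.p G (fun ω => (D.out M ω, D.z ω)) ≤ θ + 3 →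
      CH D.p G (fun ω => (D.out M ω, D.z ω)) ≤
        CH D.p G (fun ω => (dg h (D.nr ω), (D.on M ω, (D.out M ω, D.z ω)))) + (θ + 3) := by
    intro G hG
    have := CH_nonneg hp.nonneg G (fun ω => (dg h (D.nr ω), (D.on M ω, (D.out M ω, D.z ω))))
    linarith
  obtain ⟨-, i2, i3⟩ := inputs (D := D.low h) (M := M) (kap := F) (K := K) (b := b) hp hV hhX hsv hb
    hF.vars hF.deg hF.cf (θ := θ + 3) (triv cl.few) cl.full
  obtain ⟨-, i2', -⟩ := inputs (D := D.low h) (M := M) (kap := F') (K := K) (b := b) hp hV hhX hsv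
    hb hF'.vars hF'.deg hF'.cf (θ := θ + 3) (triv cl'.few) cl'.full
  obtain ⟨θ', hθ'⟩ : ∃ θ' : ℝ, θ' = θ + b + B₀ := ⟨_, rfl⟩
  have hθ'0 : 0 ≤ θ' := by rw [hθ']; positivity
  have hq := hQk _ hMm
  have hc3 : (M.card : ℝ) * Real.log 3 ≤ m * Real.log 3 := mul_le_mul_of_nonneg_right hMr hl3.le
  have hb2 : b ≤ (⌈b⌉₊ : ℝ) := Nat.le_ceil b
  have hb3 : (⌈b⌉₊ : ℝ) ≤ b + 1 := (Nat.ceil_lt_add_one hb).le
  obtain ⟨u, hu⟩ : ∃ u : ℕ, u = ⌈ν * h⌉₊ := ⟨_, rfl⟩
  have hu1 : ν * h ≤ u := by rw [hu]; exact Nat.le_ceil _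
  have hu2 : (u : ℝ) ≤ ν * h + 1 := by
    rw [hu]
    exact (Nat.ceil_lt_add_one (by positivity)).le
  have hu0 : 1 ≤ u := by
    rw [hu]
    exact Nat.one_le_iff_ne_zero.2 (Nat.pos_iff_ne_zero.1 (Nat.ceil_pos.2 (by positivity)))
  have hu0' : (0 : ℝ) < u := by exact_mod_cast hu0
  have cfb : ∀ (G : D.Ω → Pl m), (∀ ω, (G ω).vars ⊆ M) →
      (∀ ω α, |MvPolynomial.coeff α (G ω)| ≤ (2 : ℝ) ^ b) → ∀ ω, ∀ k,
      |MvPolynomial.coeff k (pj M (G ω))| ≤ 2 ^ ⌈b⌉₊ := by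
    intro G hv hc ω k
    rw [coeff_pj (hv ω)]
    refine (hc ω _).trans ?_
    rw [← Real.rpow_natCast]
    exact Real.rpow_le_rpow_of_exponent_le one_le_two hb2
  have key := hC M.card D.Ω ((Fin m → Option (ℤ × Pl m)) × D.Γ) D.p h 0 ⌈b⌉₊ s u
    (fun ω => (D.out M ω, D.z ω)) (yv (D.low h) M h) (nv (D.low h) M F) (nv (D.low h) M F')
    (D.low h).nu (fun ω => pj M (F ω)) (fun ω => pj M (F' ω)) θ' 1 (η / 2) hp hu0 hθ'0 one_pos.le
    hXn ?_ (fun ω _ => (deg_pj M _).trans (hF.deg ω)) (fun ω _ => (deg_pj M _).trans (hF'.deg ω))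
    (fun ω _ k _ => cfb F hF.vars hF.cf ω k) (fun ω _ k _ => cfb F' hF'.vars hF'.cf ω k)
    ?_ ?_ ?_ ?_ ?_ ?_ ?_
  · have hsum : 1 - Pb D.p (fun ω => Lg s (pj M (F ω) - pj M (F' ω))) ≤
        Pb D.p (fun ω => ∀ α, α ≠ 0 →
          |MvPolynomial.coeff α (F ω) - MvPolynomial.coeff α (F' ω)| ≤ 1 / 2 ^ s) := by
      have h5 : Pb D.p (fun ω => ¬ Lg s (pj M (F ω) - pj M (F' ω))) ≤ Pb D.p (fun ω => ∀ α,
          α ≠ 0 → |MvPolynomial.coeff α (F ω) - MvPolynomial.coeff α (F' ω)| ≤ 1 / 2 ^ s) := by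
        refine Pb_impD hp.nonneg fun ω _ hω α hα => ?_
        unfold Lg at hω
        push Not at hω
        by_cases h6 : ∃ β : Fin M.card →₀ ℕ, β.mapDomain (io M) = α
        · obtain ⟨β, rfl⟩ := h6
          have hβ : β ≠ 0 := fun h7 => hα (by rw [h7, Finsupp.mapDomain_zero])
          have h8 := hω β hβ
          rw [MvPolynomial.coeff_sub, coeff_pj (hF.vars ω), coeff_pj (hF'.vars ω)] at h8
          exact h8
        · push Not at h6
          have h7 : ∀ G : Pl m, G.vars ⊆ M → MvPolynomial.coeff α G = 0 := by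
            intro G hG
            rw [← ren_pj hG]
            exact MvPolynomial.coeff_rename_eq_zero _ _ _ fun u hu => absurd hu (h6 u)
          rw [h7 _ (hF.vars ω), h7 _ (hF'.vars ω), sub_zero, abs_zero]
          positivity
      have h6 := Pb_not hp.sum_one (fun ω => Lg s (pj M (F ω) - pj M (F' ω)))
      linarith
    linarith
  · intro ω _ i
    have h1 := hV ω (io M i)
    have h2 : 0 ≤ yv (D.low h) M h ω i ∧ yv (D.low h) M h ω i < 2 ^ h := by
      unfold yv av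
      change 0 ≤ D.V ω (io M i) / 2 ^ (D.X - h) ∧ D.V ω (io M i) / 2 ^ (D.X - h) < 2 ^ h
      constructor
      · exact Int.ediv_nonneg h1.1 (by positivity)
      · rw [Int.ediv_lt_iff_lt_mul (by positivity), ← pow_add, show h + (D.X - h) = D.X by omega]
        exact h1.2
    have h4 : (0 : ℝ) ≤ (yv (D.low h) M h ω i : ℤ) := by exact_mod_cast h2.1
    have h5 : ((yv (D.low h) M h ω i : ℤ) : ℝ) < 2 ^ h := by exact_mod_cast h2.2
    rw [abs_of_nonneg h4, pow_zero, one_mul]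
    exact h5.le
  · intro ω _
    have e1 : ((nv (D.low h) M F ω : ℤ) : ℝ) = (D.low h).nu ω - ⌊(2 : ℝ) ^ h * MvPolynomial.eval
        (fun i => ((yv (D.low h) M h ω i : ℤ) : ℝ) / 2 ^ h) (pj M (F ω))⌋ := by
      unfold nv
      push_cast
      rfl
    rw [e1]
    have a1 := Int.floor_le ((2 : ℝ) ^ h * MvPolynomial.eval
        (fun i => ((yv (D.low h) M h ω i : ℤ) : ℝ) / 2 ^ h) (pj M (F ω)))
    have a2 := Int.lt_floor_add_one ((2 : ℝ) ^ h * MvPolynomial.eval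
        (fun i => ((yv (D.low h) M h ω i : ℤ) : ℝ) / 2 ^ h) (pj M (F ω)))
    rw [abs_le]
    constructor <;> linarith
  · intro ω _
    have e1 : ((nv (D.low h) M F' ω : ℤ) : ℝ) = (D.low h).nu ω - ⌊(2 : ℝ) ^ h * MvPolynomial.eval
        (fun i => ((yv (D.low h) M h ω i : ℤ) : ℝ) / 2 ^ h) (pj M (F' ω))⌋ := by
      unfold nv
      push_cast
      rfl
    rw [e1]
    have a1 := Int.floor_le ((2 : ℝ) ^ h * MvPolynomial.eval
        (fun i => ((yv (D.low h) M h ω i : ℤ) : ℝ) / 2 ^ h) (pj M (F' ω)))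
    have a2 := Int.lt_floor_add_one ((2 : ℝ) ^ h * MvPolynomial.eval
        (fun i => ((yv (D.low h) M h ω i : ℤ) : ℝ) / 2 ^ h) (pj M (F' ω)))
    rw [abs_le]
    constructor <;> linarith
  · -- few bits
    have h1 : CH D.p (fun ω => pj M (F' ω)) (fun ω => (D.out M ω, D.z ω)) ≤
        CH D.p F' (fun ω => (D.out M ω, D.z ω)) :=
      CH_mono_left hp.nonneg fun ω ω' _ _ hh => by
        have : F' ω = F' ω' := (Prod.ext_iff.1 hh).1
        change pj M (F' ω) = pj M (F' ω')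
        rw [this]
    have h2 := hF'.few
    rw [hθ']
    linarith
  · change M.card * (h * Real.log 2) - θ' ≤ CH D.p (yv (D.low h) M h)
      (fun ω => (nv (D.low h) M F ω, (pj M (F ω), (D.out M ω, D.z ω))))
    change M.card * (h * Real.log 2) - _ ≤ CH D.p (yv (D.low h) M h)
      (fun ω => (nv (D.low h) M F ω, (pj M (F ω), (D.out M ω, D.z ω)))) at i2
    rw [hθ', hB₀]
    linarith
  · change M.card * (h * Real.log 2) - θ' ≤ CH D.p (yv (D.low h) M h)
      (fun ω => (nv (D.low h) M F' ω, (pj M (F' ω), (D.out M ω, D.z ω))))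
    change M.card * (h * Real.log 2) - _ ≤ CH D.p (yv (D.low h) M h)
      (fun ω => (nv (D.low h) M F' ω, (pj M (F' ω), (D.out M ω, D.z ω)))) at i2'
    rw [hθ', hB₀]
    linarith
  · change CH D.p (D.low h).nu (fun ω => (yv (D.low h) M h ω, (D.out M ω, D.z ω))) ≤ _
    change CH D.p (D.low h).nu (fun ω => (yv (D.low h) M h ω, (D.out M ω, D.z ω))) ≤
      CH D.p (fun ω => dg h (D.nr ω)) (fun ω => (D.V ω, D.z ω)) + _ at i3
    have h5 : (1 - η / 2) * (h * Real.log 2) = (1 - η) * (h * Real.log 2) +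
        η / 2 * (h * Real.log 2) := by ring
    rw [h5]
    have h6 : 2 * (ι * h) + B₀ ≤ η / 2 * (h * Real.log 2) := by
      have h7 : ι * h ≤ ν * (1 / 32) / 8 * h := by
        rw [hι]
        refine mul_le_mul_of_nonneg_right ?_ hX0.le
        refine div_le_div_of_nonneg_right ?_ (by norm_num)
        exact mul_le_mul_of_nonneg_left hν2 hν0.le
      have h8 : ν * h ≤ η / 32 * h := by
        refine mul_le_mul_of_nonneg_right ?_ hX0.le
        have h9 : ν * 32 ≤ ν * (32 * Cs) := mul_le_mul_of_nonneg_left (by linarith) hν0.le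
        linarith [min_le_left η 1]
      have h9 : η * h * (1 / 2) ≤ η * h * Real.log 2 :=
        mul_le_mul_of_nonneg_left hl2h (by positivity)
      have h10 : (0 : ℝ) ≤ η * h := by positivity
      linarith
    rw [hB₀] at h6
    linarith
  · -- sizes
    have hCk := hCsk _ hMm
    have hC0 : 0 ≤ C M.card := by linarith [hC1 M.card]
    have hlog2 : Real.log (1 + 1) ≤ 1 := by norm_num; linarith
    have hx : ι * h ≤ ν * h / 256 := by
      rw [hι]
      have : ν * ν / 8 * h ≤ ν * (1 / 32) / 8 * h := by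
        refine mul_le_mul_of_nonneg_right ?_ hX0.le
        refine div_le_div_of_nonneg_right ?_ (by norm_num)
        exact mul_le_mul_of_nonneg_left hν2 hν0.le
      linarith
    have h5 : (s : ℝ) + (⌈b⌉₊ : ℝ) + u + (0 : ℕ) + 1 + θ' + Real.log (1 + 1) ≤ 4 * (ν * h) := by
      rw [hθ']
      push_cast
      linarith
    have h6 : (h : ℝ) * (θ' + (0 : ℕ) + 1) / u ≤ ν * h := by
      rw [div_le_iff₀ hu0']
      have h7 : θ' + (0 : ℕ) + 1 ≤ ν * ν * h := by
        have h8 : 8 * (ι * h) = ν * ν * h := by rw [hι]; ring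
        rw [hθ']
        push_cast
        linarith
      calc (h : ℝ) * (θ' + (0 : ℕ) + 1) ≤ h * (ν * ν * h) :=
            mul_le_mul_of_nonneg_left h7 hX0.le
        _ = ν * h * (ν * h) := by ring
        _ ≤ ν * h * u := mul_le_mul_of_nonneg_left hu1 (by positivity)
    have h7 : C M.card * ((s : ℝ) + (⌈b⌉₊ : ℝ) + u + (0 : ℕ) + 1 + θ' + Real.log (1 + 1)) ≤
        Cs * (4 * (ν * h)) := mul_le_mul hCk h5 (by positivity) (by linarith)
    have h8 : C M.card * ((h : ℝ) * (θ' + (0 : ℕ) + 1) / u) ≤ Cs * (ν * h) :=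
      mul_le_mul hCk h6 (by positivity) (by linarith)
    have h9 : Cs * (4 * (ν * h)) + Cs * (ν * h) = 5 / 32 * (ν * (32 * Cs)) * h := by ring
    have h10 : ν * (32 * Cs) * h ≤ η * h := by
      rw [hν1]
      exact mul_le_mul_of_nonneg_right (min_le_left _ _) hX0.le
    have h11 : (0 : ℝ) ≤ η * h := by positivity
    refine (add_le_add h7 h8).trans ?_
    rw [h9]
    linarith

end Pool.TIE
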